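import Pool.Agent.Lib.H85J.D

/-! # H85J, chunk E1: `Low G` has no equilibrium with `G` -/

set_option autoImplicit false

namespace H85J

open Finset H98P H63F H96H

variable {V : Type*} [Fintype V] [DecidableEq V]

private theorem e1_px (a b : V) (S : Finset V) : px s(a, b) S = if (a ∈ S ↔ b ∈ S) then 0 else 1 := by
  unfold px
  by_cases ha : a ∈ S <;> by_cases hb : b ∈ S
  · rw [if_neg, if_pos (by simp [ha, hb])]
    rintro ⟨x, hx, y, hy, h⟩
    rcases Sym2.eq_iff.1 h with ⟨h1, h2⟩ | ⟨h1, h2⟩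
    · exact hy (h2 ▸ hb)
    · exact hy (h1 ▸ ha)
  · rw [if_pos ⟨a, ha, b, hb, rfl⟩, if_neg (by simp [ha, hb])]
  · rw [if_pos ⟨b, hb, a, ha, Sym2.eq_swap⟩, if_neg (by simp [ha, hb])]
  · rw [if_neg, if_pos (by simp [ha, hb])]
    rintro ⟨x, hx, y, hy, h⟩
    rcases Sym2.eq_iff.1 h with ⟨h1, h2⟩ | ⟨h1, h2⟩
    · exact ha (h1 ▸ hx)
    · exact hb (h2 ▸ hx)

private theorem e1_single {a b : V} (hab : a ≠ b) (v : V) :
    px s(a, b) {v} = (if v = a then (1 : ℝ) else 0) + (if v = b then (1 : ℝ) else 0) := by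
  rw [e1_px]
  by_cases h1 : v = a
  · subst h1
    have h2 : ¬ (b = v) := fun h => hab h.symm
    simp [h2, hab]
  · by_cases h2 : v = b
    · subst h2
      simp [hab, h1]
    · have h3 : ¬ (a = v) := fun h => h1 h.symm
      have h4 : ¬ (b = v) := fun h => h2 h.symm
      simp [h1, h2, h3, h4]

private theorem e1_formula (μ : St V → ℝ) (u : V → ℝ)
    (hu0 : ∀ v, u v = μ (Sum.inl (v, true)) - μ (Sum.inl (v, false))) {a b : V} (hab : a ≠ b) :
    mm pp μ s(a, b) = u a + u b + ∑ S : NCut V, μ (Sum.inr S) * px s(a, b) S.1 -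
      2 / (Fintype.card V : ℝ) * (∑ v, u v + ∑ S : NCut V, μ (Sum.inr S)) := by
  have hd : ¬ (s(a, b) : Sym2 V).IsDiag := by
    rw [Sym2.mk_isDiag_iff]
    exact hab
  unfold mm
  rw [Fintype.sum_sum_type, Fintype.sum_prod_type]
  have h2 : ∑ S : NCut V, μ (Sum.inr S) * pp s(a, b) (Sum.inr S : St V) =
      ∑ S : NCut V, μ (Sum.inr S) * px s(a, b) S.1 - 2 / (Fintype.card V : ℝ) * ∑ S : NCut V, μ (Sum.inr S) := by
    rw [mul_sum, ← sum_sub_distrib]
    refine sum_congr rfl fun S _ => ?_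
    unfold pp
    simp only [hd, if_false]
    ring
  have h3 : ∀ v : V, ∑ b' : Bool, μ (Sum.inl (v, b')) * pp s(a, b) (Sum.inl (v, b') : St V) =
      u v * (px s(a, b) {v} - 2 / (Fintype.card V : ℝ)) := by
    intro v
    rw [Fintype.sum_bool, hu0]
    unfold pp
    simp only [hd, if_false, if_true, Bool.false_eq_true]
    ring
  have h4 : ∑ v, u v * (px s(a, b) {v} - 2 / (Fintype.card V : ℝ)) =
      u a + u b - 2 / (Fintype.card V : ℝ) * ∑ v, u v := by
    have h5 : ∀ v, u v * (px s(a, b) {v} - 2 / (Fintype.card V : ℝ)) =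
        (if v = a then u v else 0) + (if v = b then u v else 0) - 2 / (Fintype.card V : ℝ) * u v := by
      intro v
      rw [e1_single hab]
      split_ifs <;> ring
    rw [sum_congr rfl fun v _ => h5 v, sum_sub_distrib, sum_add_distrib, ← mul_sum,
      sum_ite_eq' univ a u, sum_ite_eq' univ b u, if_pos (mem_univ _), if_pos (mem_univ _)]
  rw [sum_congr rfl fun v _ => h3 v, h4, h2]
  ring

private theorem e1_four {S Z : Finset V} (h : NonX Z S) {a b c d : V} (ha : a ∈ S) (hb : b ∈ S) (hc : c ∉ S)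
    (hd : d ∉ S) : px s(a, b) Z + px s(c, d) Z ≤ px s(a, c) Z + px s(b, d) Z := by
  have key : (a ∉ Z ∧ b ∉ Z) ∨ (c ∉ Z ∧ d ∉ Z) ∨ (a ∈ Z ∧ b ∈ Z) ∨ (c ∈ Z ∧ d ∈ Z) := by
    rcases h with h | h | h | h
    · refine Or.inl ⟨fun h1 => ?_, fun h1 => ?_⟩
      · have : a ∈ Z ∩ S := mem_inter.2 ⟨h1, ha⟩
        rw [h] at this
        exact notMem_empty _ this
      · have : b ∈ Z ∩ S := mem_inter.2 ⟨h1, hb⟩
        rw [h] at this
        exact notMem_empty _ this
    · exact Or.inr (Or.inl ⟨fun h1 => hc (h h1), fun h1 => hd (h h1)⟩)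
    · exact Or.inr (Or.inr (Or.inl ⟨h ha, h hb⟩))
    · refine Or.inr (Or.inr (Or.inr ⟨?_, ?_⟩))
      · have : c ∈ Z ∪ S := by rw [h]; exact mem_univ _
        exact (mem_union.1 this).resolve_right hc
      · have : d ∈ Z ∪ S := by rw [h]; exact mem_univ _
        exact (mem_union.1 this).resolve_right hd
  rw [e1_px, e1_px, e1_px, e1_px]
  by_cases h1 : a ∈ Z <;> by_cases h2 : b ∈ Z <;> by_cases h3 : c ∈ Z <;> by_cases h4 : d ∈ Z <;>
    simp [h1, h2, h3, h4] at key ⊢

private theorem e1_nonx_symm {A B : Finset V} (h : NonX A B) : NonX B A := by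
  rcases h with h | h | h | h
  · exact Or.inl (by rw [inter_comm]; exact h)
  · exact Or.inr (Or.inr (Or.inl h))
  · exact Or.inr (Or.inl h)
  · exact Or.inr (Or.inr (Or.inr (by rw [union_comm]; exact h)))

private theorem e1_nonx_compl {A B : Finset V} (h : NonX A B) : NonX (univ \ A) B := by
  rcases h with h | h | h | h
  · refine Or.inr (Or.inr (Or.inl fun x hx => mem_sdiff.2 ⟨mem_univ _, fun h1 => ?_⟩))
    have : x ∈ A ∩ B := mem_inter.2 ⟨h1, hx⟩
    rw [h] at this
    exact notMem_empty _ this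
  · refine Or.inr (Or.inr (Or.inr (eq_univ_iff_forall.2 fun x => ?_)))
    by_cases hx : x ∈ A
    · exact mem_union_right _ (h hx)
    · exact mem_union_left _ (mem_sdiff.2 ⟨mem_univ _, hx⟩)
  · refine Or.inl (eq_empty_iff_forall_notMem.2 fun x hx => ?_)
    obtain ⟨h1, h2⟩ := mem_inter.1 hx
    exact (mem_sdiff.1 h1).2 (h h2)
  · refine Or.inr (Or.inl fun x hx => ?_)
    have : x ∈ A ∪ B := by rw [h]; exact mem_univ _
    exact (mem_union.1 this).resolve_left (mem_sdiff.1 hx).2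

private theorem e1_const {H : SimpleGraph V} (hc : H.Connected) (h2 : Two H) (ν : NCut V → ℝ)
    (σ : NCut V → Finset V) (hs : ∀ S, 0 < ν S → ¬ Ns H (σ S)) (hn : ∀ S, 0 < ν S → Ns H (univ \ σ S))
    (hnest : ∀ S Z, 0 < ν S → 0 < ν Z → σ S ∩ σ Z = ∅ ∨ σ S ⊆ σ Z ∨ σ Z ⊆ σ S)
    (w : V → ℝ) (M : ℝ) (hadj : ∀ a b, H.Adj a b → w a + w b = M)
    (hpos : ∀ a b, a ≠ b → M < w a + w b → ∃ S, 0 < ν S ∧ a ∈ σ S ∧ b ∈ σ S) :
    ∀ a b, w a = w b := by
  classical
  by_contra hcon
  push Not at hcon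
  obtain ⟨a0, b0, hab0⟩ := hcon
  have hA : ∀ v, w v = w a0 ∨ w v = M - w a0 := by
    intro v
    have h := (SimpleGraph.reachable_iff_reflTransGen a0 v).1 (hc.preconnected a0 v)
    induction h with
    | refl => exact Or.inl rfl
    | tail _ h1 ih =>
      have h3 := hadj _ _ h1
      rcases ih with h4 | h4
      · exact Or.inr (by linarith)
      · exact Or.inl (by linarith)
  obtain ⟨p, hp, hlt⟩ : ∃ p, (∀ v, w v = w p ∨ w v = M - w p) ∧ M < 2 * w p := by
    have hb0 := (hA b0).resolve_left (fun h => hab0 h.symm)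
    rcases lt_or_gt_of_ne hab0 with h | h
    · refine ⟨b0, fun v => ?_, by linarith⟩
      rcases hA v with h1 | h1
      · exact Or.inr (by linarith)
      · exact Or.inl (by linarith)
    · exact ⟨a0, hA, by linarith⟩
  have hedge : ∀ a b, H.Adj a b → w a = w p ∨ w b = w p := by
    intro a b hab
    by_contra h
    push Not at h
    have h3 := (hp a).resolve_left h.1
    have h4 := (hp b).resolve_left h.2
    have h5 := hadj a b hab
    linarith
  obtain ⟨b, hbp, hb⟩ : ∃ b, b ≠ p ∧ w b = w p := by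
    obtain ⟨a, b, c, d, h3, h4, h5, h6, h7, h8⟩ := h2
    by_contra hno
    push Not at hno
    have h9 : a = p ∨ b = p := by
      rcases hedge a b h3 with h | h
      · exact Or.inl (by by_contra h'; exact hno a h' h)
      · exact Or.inr (by by_contra h'; exact hno b h' h)
    have h10 : c = p ∨ d = p := by
      rcases hedge c d h4 with h | h
      · exact Or.inl (by by_contra h'; exact hno c h' h)
      · exact Or.inr (by by_contra h'; exact hno d h' h)
    rcases h9 with h | h <;> rcases h10 with h' | h'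
    · exact h5 (h.trans h'.symm)
    · exact h6 (h.trans h'.symm)
    · exact h7 (h.trans h'.symm)
    · exact h8 (h.trans h'.symm)
  obtain ⟨S0, hS0, hS0p, -⟩ := hpos p b (fun h => hbp h.symm) (by rw [hb]; linarith)
  obtain ⟨S, hS, hSmax⟩ := exists_max_image (univ.filter fun S : NCut V => 0 < ν S ∧ p ∈ σ S) (fun S => (σ S).card)
    ⟨S0, mem_filter.2 ⟨mem_univ _, hS0, hS0p⟩⟩
  obtain ⟨hSν, hSp⟩ := (mem_filter.1 hS).2
  have hP : ∀ v, w v = w p → v ∈ σ S := by
    intro v hv
    by_cases hvp : v = p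
    · rw [hvp]
      exact hSp
    obtain ⟨Z, hZ, hZp, hZv⟩ := hpos p v (fun h => hvp h.symm) (by rw [hv]; linarith)
    rcases hnest S Z hSν hZ with h | h | h
    · have : p ∈ σ S ∩ σ Z := mem_inter.2 ⟨hSp, hZp⟩
      rw [h] at this
      exact absurd this (notMem_empty _)
    · rw [eq_of_subset_of_card_le h (hSmax Z (mem_filter.2 ⟨mem_univ _, hZ, hZp⟩))]
      exact hZv
    · exact h hZv
  have hQ : ∀ v, v ∈ σ S → w v = w p := by
    intro v hv
    by_contra hne
    have hvp : v ≠ p := fun h => hne (by rw [h])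
    have h := (SimpleGraph.reachable_iff_reflTransGen v p).1 (hc.preconnected v p)
    rcases Relation.ReflTransGen.cases_head h with h3 | ⟨x, h3, -⟩
    · exact hvp h3
    · have h4 := (hedge v x h3).resolve_left hne
      exact hs S hSν ⟨v, hv, x, hP x h4, h3⟩
  obtain ⟨x, hx, y, hy, hxy⟩ := hn S hSν
  rcases hedge x y hxy with h | h
  · exact (mem_sdiff.1 hx).2 (hP x h)
  · exact (mem_sdiff.1 hy).2 (hP y h)

/-- PROOF: `c e = mm pp μ e`; for `a ≠ b`: `c s(a,b) = u a + u b + (∑ S, μ S [ab across S]) - const`,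
`u v = μ (v+) - μ (v-)`; `c = M` (the maximum) on `G`. (1) If `μ S > 0` and `S` has edges `ab` inside and `cd` outside:
for every cut `Z` not crossing `S`: `[ab] + [cd] ≤ [ac] + [bd]` (Z), and `0 ≤ 2 - 2` becomes `0 < 2` for `Z = S`: so
`c(ac) + c(bd) > 2 M`, contradiction. So every cut with `μ S > 0` has exactly one side without edges (`Low`), call it the
stable side `σ S`; stable sides of cuts of `T` are disjoint or nested (two of them with union `univ` would make one with
two sides without edges). (2) `W v` = sum of `μ S` over the `S` with `v ∈ σ S`, `u' v = u v + W v`: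
`c(ab) = u' a + u' b - 2 (∑ μ S, a, b ∈ σ S) - const`, and the third term is `0` for edges of `G`. So
`u' a + u' b = M'` on `G`. (3) `u'` is constant: otherwise (`G` connected) `P = {u' = α}`, `P' = {u' = β}`, `α > β`,
`α + β = M'`, all edges between them; two different `a, b ∈ P` lie in a common `σ S`, `μ S > 0` (else
`c(ab) > M`); if `P` has one element `G` is a star, against `Two G`; otherwise for `a ∈ P` the largest `σ S ∋ a` with
`μ S > 0` contains `P`, has no edge inside, every vertex of `P'` has a neighbour in `P`, so `σ S = P` and its complement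
`P'` has no edge either: against `Low`. (4) `u' = κ`. The `v` of `Low` with `v+ ∉ T`, not covered: `W v = 0`,
`κ = u v ≤ 0`. If `κ < 0`: `u v < 0` for all `v`, all `v- ∈ T`, against `LL`. If `κ = 0`: `u v = - W v`; if some
`μ S > 0` then `u v < 0` on `σ S`, so all `v- ∈ T` there, against `Low`. So `μ` vanishes on the cuts and `u = 0`, and
`μ = 0` (never `v+` and `v-`), against `∑ μ = 1`. -/
theorem no_low (hV : 4 ≤ Fintype.card V) {G : Finset (Sym2 V)} (hG : ∀ v, s(v, v) ∉ G) (hc : (gg G).Connected)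
    (h2 : Two (gg G)) {T : Finset (St V)} (hT : Low (gg G) T) {μ : St V → ℝ} (hμ : μ ∈ Sx T)
    (hmax : Amax pp μ G) : False := by
  classical
  obtain ⟨hm0, hm1, hm2⟩ := hμ
  obtain ⟨⟨hT1, hT2, hT3⟩, hlow2, ⟨v0, hv0, hv0c⟩, hlow4⟩ := hT
  have hinT : ∀ S : St V, 0 < μ S → S ∈ T := by
    intro S hS
    by_contra h
    rw [hm1 S h] at hS
    exact lt_irrefl _ hS
  have hadjG : ∀ a b, (gg G).Adj a b ↔ s(a, b) ∈ G ∧ a ≠ b := by
    intro a b
    simp [gg]
  obtain ⟨u, hu0⟩ : ∃ u : V → ℝ, ∀ v, u v = μ (Sum.inl (v, true)) - μ (Sum.inl (v, false)) := ⟨_, fun _ => rfl⟩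
  obtain ⟨ν, hν⟩ : ∃ ν : NCut V → ℝ, ∀ S, ν S = μ (Sum.inr S) := ⟨_, fun _ => rfl⟩
  have hν0 : ∀ S, 0 ≤ ν S := fun S => by rw [hν]; exact hm0 _
  have hνT : ∀ S, 0 < ν S → (Sum.inr S : St V) ∈ T := fun S hS => hinT _ (by rw [← hν]; exact hS)
  obtain ⟨K, hK⟩ : ∃ K : ℝ, K = 2 / (Fintype.card V : ℝ) * (∑ v, u v + ∑ S : NCut V, μ (Sum.inr S)) := ⟨_, rfl⟩
  have hform : ∀ a b : V, a ≠ b → mm pp μ s(a, b) = u a + u b + ∑ S : NCut V, ν S * px s(a, b) S.1 - K := by
    intro a b hab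
    rw [e1_formula μ u hu0 hab, hK]
    simp only [hν]
  have hone : ∀ S : NCut V, 0 < ν S → ¬ (Ns (gg G) S.1 ∧ Ns (gg G) (univ \ S.1)) := by
    rintro S hS ⟨⟨a, ha, b, hb, hab⟩, ⟨c, hc', d, hd', hcd⟩⟩
    have hc1 : c ∉ S.1 := (mem_sdiff.1 hc').2
    have hd1 : d ∉ S.1 := (mem_sdiff.1 hd').2
    obtain ⟨hab1, hab2⟩ := (hadjG a b).1 hab
    obtain ⟨hcd1, hcd2⟩ := (hadjG c d).1 hcd
    have hac : a ≠ c := fun h => hc1 (h ▸ ha)
    have hbd : b ≠ d := fun h => hd1 (h ▸ hb)
    have h1 := hmax _ hab1 s(a, c)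
    have h3 := hmax _ hcd1 s(b, d)
    rw [hform a b hab2, hform a c hac] at h1
    rw [hform c d hcd2, hform b d hbd] at h3
    have hsum : 0 < ∑ Z : NCut V, ν Z * (px s(a, c) Z.1 + px s(b, d) Z.1 - (px s(a, b) Z.1 + px s(c, d) Z.1)) := by
      refine sum_pos' (fun Z _ => ?_) ⟨S, mem_univ _, ?_⟩
      · rcases (hν0 Z).eq_or_lt with hZ | hZ
        · rw [← hZ, zero_mul]
        · refine mul_nonneg hZ.le (sub_nonneg.2 ?_)
          exact e1_four (hT1 Z S (hνT Z hZ) (hνT S hS)) ha hb hc1 hd1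
      · refine mul_pos hS ?_
        rw [e1_px, e1_px, e1_px, e1_px]
        simp [ha, hb, hc1, hd1]
    have hexp : ∑ Z : NCut V, ν Z * (px s(a, c) Z.1 + px s(b, d) Z.1 - (px s(a, b) Z.1 + px s(c, d) Z.1)) =
        (∑ Z : NCut V, ν Z * px s(a, c) Z.1 + ∑ Z : NCut V, ν Z * px s(b, d) Z.1) -
        (∑ Z : NCut V, ν Z * px s(a, b) Z.1 + ∑ Z : NCut V, ν Z * px s(c, d) Z.1) := by
      rw [← sum_add_distrib, ← sum_add_distrib, ← sum_sub_distrib]
      exact sum_congr rfl fun Z _ => by ring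
    rw [hexp] at hsum
    linarith
  obtain ⟨σ, hσ⟩ : ∃ σ : NCut V → Finset V, ∀ S, σ S = if Ns (gg G) S.1 then univ \ S.1 else S.1 := ⟨_, fun _ => rfl⟩
  have hs : ∀ S, 0 < ν S → ¬ Ns (gg G) (σ S) := by
    intro S hS
    rw [hσ]
    split_ifs with h
    · exact fun h1 => hone S hS ⟨h, h1⟩
    · exact h
  have hn : ∀ S, 0 < ν S → Ns (gg G) (univ \ σ S) := by
    intro S hS
    rw [hσ]
    split_ifs with h
    · rw [Finset.sdiff_sdiff_eq_self (subset_univ _)]
      exact h
    · exact (hlow2 S (hνT S hS)).resolve_left h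
  have hnon : ∀ S Z, 0 < ν S → 0 < ν Z → NonX (σ S) (σ Z) := by
    intro S Z hS hZ
    have h := hT1 S Z (hνT S hS) (hνT Z hZ)
    rw [hσ, hσ]
    split_ifs
    · exact e1_nonx_symm (e1_nonx_compl (e1_nonx_symm (e1_nonx_compl h)))
    · exact e1_nonx_compl h
    · exact e1_nonx_symm (e1_nonx_compl (e1_nonx_symm h))
    · exact h
  have hnest : ∀ S Z, 0 < ν S → 0 < ν Z → σ S ∩ σ Z = ∅ ∨ σ S ⊆ σ Z ∨ σ Z ⊆ σ S := by
    intro S Z hS hZ
    rcases hnon S Z hS hZ with h | h | h | h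
    · exact Or.inl h
    · exact Or.inr (Or.inl h)
    · exact Or.inr (Or.inr h)
    · exfalso
      obtain ⟨x, hx, y, hy, hxy⟩ := hn S hS
      have h1 : ∀ z, z ∈ univ \ σ S → z ∈ σ Z := fun z hz => by
        have : z ∈ σ S ∪ σ Z := by rw [h]; exact mem_univ _
        exact (mem_union.1 this).resolve_left (mem_sdiff.1 hz).2
      exact hs Z hZ ⟨x, h1 x hx, y, h1 y hy, hxy⟩
  obtain ⟨X, hX⟩ : ∃ X : NCut V → V → ℝ, ∀ S v, X S v = if v ∈ σ S then (1 : ℝ) else 0 := ⟨_, fun _ _ => rfl⟩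
  have hpx : ∀ (S : NCut V) (a b : V), px s(a, b) S.1 = X S a + X S b - 2 * (X S a * X S b) := by
    intro S a b
    rw [e1_px, hX, hX, hσ]
    by_cases h : Ns (gg G) S.1 <;> by_cases ha : a ∈ S.1 <;> by_cases hb : b ∈ S.1 <;>
      simp [h, ha, hb] <;> norm_num
  obtain ⟨W, hW⟩ : ∃ W : V → ℝ, ∀ v, W v = ∑ S, ν S * X S v := ⟨_, fun _ => rfl⟩
  have hform2 : ∀ a b : V, a ≠ b → mm pp μ s(a, b) =
      (u a + W a) + (u b + W b) - 2 * ∑ S : NCut V, ν S * (X S a * X S b) - K := by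
    intro a b hab
    rw [hform a b hab, hW, hW]
    have h1 : ∑ S : NCut V, ν S * px s(a, b) S.1 =
        ∑ S, ν S * X S a + ∑ S, ν S * X S b - 2 * ∑ S : NCut V, ν S * (X S a * X S b) := by
      rw [mul_sum, ← sum_add_distrib, ← sum_sub_distrib]
      exact sum_congr rfl fun S _ => by rw [hpx]; ring
    rw [h1]
    ring
  obtain ⟨e0, he0⟩ : ∃ e, e ∈ G := by
    obtain ⟨a, b, -, -, h3, -⟩ := h2
    exact ⟨_, ((hadjG a b).1 h3).1⟩
  have hM : ∀ e ∈ G, mm pp μ e = mm pp μ e0 := fun e he => le_antisymm (hmax e0 he0 e) (hmax e he e0)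
  have hD : ∀ a b, (gg G).Adj a b → ∑ S : NCut V, ν S * (X S a * X S b) = 0 := by
    intro a b hab
    refine sum_eq_zero fun S _ => ?_
    rcases (hν0 S).eq_or_lt with hS | hS
    · rw [← hS, zero_mul]
    · rw [hX, hX]
      by_cases ha : a ∈ σ S
      · have hb : b ∉ σ S := fun hb => hs S hS ⟨a, ha, b, hb, hab⟩
        rw [if_neg hb, mul_zero, mul_zero]
      · rw [if_neg ha, zero_mul, mul_zero]
  have hconst := e1_const hc h2 ν σ hs hn hnest (fun v => u v + W v) (mm pp μ e0 + K)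
    (by
      intro a b hab
      obtain ⟨h3, h4⟩ := (hadjG a b).1 hab
      have h5 := hform2 a b h4
      rw [hM _ h3, hD a b hab] at h5
      linarith)
    (by
      intro a b hab hlt
      by_contra hno
      push Not at hno
      have h3 : ∑ S : NCut V, ν S * (X S a * X S b) ≤ 0 := by
        refine sum_nonpos fun S _ => ?_
        rcases (hν0 S).eq_or_lt with hS | hS
        · rw [← hS, zero_mul]
        · rw [hX, hX]
          by_cases ha : a ∈ σ S
          · rw [if_neg (hno S hS ha), mul_zero, mul_zero]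
          · rw [if_neg ha, zero_mul, mul_zero]
      have h4 := hmax e0 he0 s(a, b)
      rw [hform2 a b hab] at h4
      linarith)
  have hW0 : W v0 = 0 := by
    rw [hW]
    refine sum_eq_zero fun S _ => ?_
    rcases (hν0 S).eq_or_lt with hS | hS
    · rw [← hS, zero_mul]
    · rw [hX, if_neg, mul_zero]
      intro h
      apply hv0c
      refine ⟨S, hνT S hS, ?_⟩
      have h3 := hs S hS
      rw [hσ] at h h3
      split_ifs at h h3 with h4
      · exact Or.inr ⟨h3, (mem_sdiff.1 h).2⟩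
      · exact Or.inl ⟨h4, h⟩
  have hWn : ∀ v, 0 ≤ W v := by
    intro v
    rw [hW]
    refine sum_nonneg fun S _ => mul_nonneg (hν0 S) ?_
    rw [hX]
    split_ifs
    · exact zero_le_one
    · exact le_refl _
  have huv0 : u v0 = - μ (Sum.inl (v0, false)) := by
    rw [hu0, hm1 _ hv0]
    ring
  have hm00 := hm0 (Sum.inl (v0, false))
  rcases hm00.eq_or_lt with h0 | h0
  · have hk : ∀ v, u v + W v = 0 := by
      intro v
      rw [hconst v v0, huv0, hW0, ← h0]
      ring
    have hν00 : ∀ S, ν S = 0 := by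
      intro S
      by_contra hS'
      have hS : 0 < ν S := lt_of_le_of_ne (hν0 S) (Ne.symm hS')
      obtain ⟨v, hv, hvT⟩ : ∃ v ∈ σ S, (Sum.inl (v, false) : St V) ∉ T := by
        have h3 := hs S hS
        rw [hσ] at h3 ⊢
        split_ifs at h3 ⊢ with h4
        · obtain ⟨v, hv, hv'⟩ := (hlow4 S (hνT S hS)).2 h3
          exact ⟨v, mem_sdiff.2 ⟨mem_univ _, hv⟩, hv'⟩
        · exact (hlow4 S (hνT S hS)).1 h4
      have h5 : ν S ≤ W v := by
        rw [hW]
        have h6 : ν S * X S v ≤ ∑ Z, ν Z * X Z v := by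
          refine single_le_sum (f := fun Z => ν Z * X Z v) (fun Z _ => mul_nonneg (hν0 Z) ?_) (mem_univ S)
          rw [hX]
          split_ifs
          · exact zero_le_one
          · exact le_refl _
        rw [hX S v, if_pos hv, mul_one] at h6
        exact h6
      have h7 := hk v
      rw [hu0, hm1 _ hvT] at h7
      have h8 := hm0 (Sum.inl (v, true))
      linarith
    have hWz : ∀ v, W v = 0 := fun v => by
      rw [hW]
      exact sum_eq_zero fun S _ => by rw [hν00, zero_mul]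
    have hall : ∀ S : St V, μ S = 0 := by
      rintro (⟨v, b⟩ | S)
      · have h1 : μ (Sum.inl (v, true)) = μ (Sum.inl (v, false)) := by
          have h3 := hk v
          rw [hWz, hu0] at h3
          linarith
        have h3 : μ (Sum.inl (v, true)) = 0 := by
          by_contra h
          have h4 : 0 < μ (Sum.inl (v, true)) := lt_of_le_of_ne (hm0 _) (Ne.symm h)
          exact hT2 v ⟨hinT _ h4, hinT _ (h1 ▸ h4)⟩
        cases b
        · rw [← h1, h3]
        · exact h3
      · rw [← hν]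
        exact hν00 S
    rw [sum_eq_zero fun S _ => hall S] at hm2
    exact zero_ne_one hm2
  · obtain ⟨v, hv⟩ := hT3 false
    apply hv
    apply hinT
    have h1 := hconst v v0
    rw [huv0, hW0, hu0] at h1
    have h3 := hm0 (Sum.inl (v, true))
    have h4 := hWn v
    linarith

end H85J
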