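import Pool.Agent.Lib.H85J.D

/-! # H85J, chunk E2: families outside `Low G` have an equilibrium with `G` -/

set_option autoImplicit false

namespace H85J

open Finset H98P H63F H96H

variable {V : Type*} [Fintype V] [DecidableEq V]

open Classical in
/-- indicator -/
private noncomputable def ii (S : Finset V) (a : V) : ℝ := if a ∈ S then 1 else 0

private theorem ii_compl (S : Finset V) (a : V) : ii (univ \ S) a = 1 - ii S a := by
  unfold ii
  by_cases h : a ∈ S <;> simp [h]

private theorem px_ii (S : Finset V) {a b : V} (hab : a ≠ b) :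
    px s(a, b) S = ii S a + ii S b - 2 * (ii S a * ii S b) := by
  unfold px ii
  by_cases ha : a ∈ S <;> by_cases hb : b ∈ S
  · rw [if_neg]
    · simp [ha, hb]; norm_num
    · rintro ⟨x, hx, y, hy, h⟩
      rcases Sym2.eq_iff.1 h with ⟨h1, h2⟩ | ⟨h1, h2⟩
      · exact hy (h2 ▸ hb)
      · exact hy (h1 ▸ ha)
  · rw [if_pos ⟨a, ha, b, hb, rfl⟩]
    simp [ha, hb]
  · rw [if_pos ⟨b, hb, a, ha, Sym2.eq_swap⟩]
    simp [ha, hb]
  · rw [if_neg]
    · simp [ha, hb]
    · rintro ⟨x, hx, y, hy, h⟩
      rcases Sym2.eq_iff.1 h with ⟨h1, h2⟩ | ⟨h1, h2⟩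
      · exact ha (h1 ▸ hx)
      · exact hb (h2 ▸ hx)

private theorem px_compl (S : Finset V) {a b : V} (hab : a ≠ b) :
    px s(a, b) (univ \ S) = px s(a, b) S := by
  rw [px_ii _ hab, px_ii _ hab, ii_compl, ii_compl]
  ring

private theorem pp_cut {a b : V} (hab : a ≠ b) (S : NCut V) :
    pp s(a, b) (Sum.inr S) = px s(a, b) S.1 - 2 / (Fintype.card V : ℝ) := by
  simp [pp, hab]

private theorem pp_pos {a b : V} (hab : a ≠ b) (v : V) :
    pp s(a, b) (Sum.inl (v, true)) = px s(a, b) {v} - 2 / (Fintype.card V : ℝ) := by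
  simp [pp, hab]

private theorem pp_neg {a b : V} (hab : a ≠ b) (v : V) :
    pp s(a, b) (Sum.inl (v, false)) = 2 / (Fintype.card V : ℝ) - px s(a, b) {v} := by
  simp [pp, hab]

private theorem pp_diag (c : V) (t : St V) : pp s(c, c) t = -10 := by
  rcases t with ⟨v, b⟩ | S <;> simp [pp]

private theorem sum_px (Q : Finset V) {a b : V} (hab : a ≠ b) :
    ∑ v ∈ Q, px s(a, b) {v} = ii Q a + ii Q b := by
  have h : ∀ v ∈ Q, px s(a, b) {v} = (if v = a then 1 else 0) + (if v = b then (1 : ℝ) else 0) := by
    intro v _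
    rw [px_ii _ hab]
    unfold ii
    by_cases h1 : v = a
    · subst h1
      have : ¬ v = b := hab
      simp [this, Ne.symm this]
    · by_cases h2 : v = b
      · subst h2
        simp [h1, Ne.symm h1]
      · simp [h1, h2, Ne.symm h1, Ne.symm h2]
  rw [sum_congr rfl h, sum_add_distrib, sum_ite_eq', sum_ite_eq']
  unfold ii
  rfl

private theorem unif {ι : Type*} {T : Finset (St V)} (I : Finset ι) (hI : I.Nonempty) (g : ι → St V)
    (hg : ∀ i ∈ I, g i ∈ T) {G : Finset (Sym2 V)}
    (hG : ∀ e ∈ G, ∀ f, ∑ i ∈ I, pp f (g i) ≤ ∑ i ∈ I, pp e (g i)) : ∃ μ ∈ Sx T, Amax pp μ G := by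
  classical
  have hc : (0 : ℝ) < I.card := by exact_mod_cast hI.card_pos
  refine ⟨fun s => (∑ i ∈ I, if g i = s then (1 : ℝ) else 0) / I.card, ⟨?_, ?_, ?_⟩, ?_⟩
  · intro s
    refine div_nonneg (sum_nonneg fun i _ => ?_) hc.le
    split_ifs <;> norm_num
  · intro s hs
    have : ∑ i ∈ I, (if g i = s then (1 : ℝ) else 0) = 0 := by
      refine sum_eq_zero fun i hi => ?_
      rw [if_neg]
      rintro rfl
      exact hs (hg i hi)
    simp only [this, zero_div]
  · rw [← sum_div, sum_comm]
    have : ∀ i ∈ I, ∑ s, (if g i = s then (1 : ℝ) else 0) = 1 := by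
      intro i _
      rw [sum_ite_eq]
      simp
    rw [sum_congr rfl this, sum_const, nsmul_eq_mul, mul_one]
    exact div_self hc.ne'
  · have key : ∀ e, mm pp (fun s => (∑ i ∈ I, if g i = s then (1 : ℝ) else 0) / I.card) e =
        (∑ i ∈ I, pp e (g i)) / I.card := by
      intro e
      unfold mm
      have h1 : ∀ s ∈ (univ : Finset (St V)), (∑ i ∈ I, if g i = s then (1 : ℝ) else 0) / I.card * pp e s =
          (∑ i ∈ I, if g i = s then pp e s else 0) / I.card := by
        intro s _
        rw [div_mul_eq_mul_div, sum_mul]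
        congr 1
        refine sum_congr rfl fun i _ => ?_
        split_ifs <;> simp
      rw [sum_congr rfl h1, ← sum_div, sum_comm]
      congr 1
      refine sum_congr rfl fun i _ => ?_
      rw [sum_ite_eq]
      simp
    intro e he f
    rw [key, key]
    exact div_le_div_of_nonneg_right (hG e he f) hc.le

private theorem not_both {G : Finset (Sym2 V)} {Q : Finset V} (hQ : ¬ Ns (gg G) Q) {a b : V}
    (he : s(a, b) ∈ G) (hab : a ≠ b) : ii Q a * ii Q b = 0 := by
  unfold ii
  by_cases ha : a ∈ Q
  · by_cases hb : b ∈ Q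
    · exact absurd ⟨a, ha, b, hb, (SimpleGraph.fromEdgeSet_adj _).2 ⟨he, hab⟩⟩ hQ
    · simp [hb]
  · simp [ha]

private theorem ii_nn (Q : Finset V) (a b : V) : 0 ≤ ii Q a * ii Q b := by
  unfold ii
  split_ifs <;> norm_num

/-- case (ii) -/
private theorem case_two (hV : 4 ≤ Fintype.card V) {G : Finset (Sym2 V)} (hG : ∀ v, s(v, v) ∉ G)
    {T : Finset (St V)} {S : NCut V} (hS : (Sum.inr S : St V) ∈ T) {Q : Finset V}
    (hQS : Q = S.1 ∨ Q = univ \ S.1) (hQ : ¬ Ns (gg G) Q) (hm : ∀ v ∈ Q, (Sum.inl (v, false) : St V) ∈ T) :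
    ∃ μ ∈ Sx T, Amax pp μ G := by
  have hn : (4 : ℝ) ≤ Fintype.card V := by exact_mod_cast hV
  have hc0 : (0 : ℝ) ≤ 2 / (Fintype.card V : ℝ) := by positivity
  have hQc : (1 : ℝ) ≤ Q.card := by
    have h1 := S.2.1
    have h2 := S.2.2
    have : 1 ≤ Q.card := by
      rcases hQS with rfl | rfl <;> omega
    exact_mod_cast this
  have hval : ∀ a b : V, a ≠ b → ∑ i ∈ insertNone Q, pp s(a, b) (i.elim (Sum.inr S) fun v => Sum.inl (v, false)) =
      (Q.card - 1) * (2 / (Fintype.card V : ℝ)) - 2 * (ii Q a * ii Q b) := by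
    intro a b hab
    have hd : ¬ (s(a, b)).IsDiag := fun h => hab (Sym2.mk_isDiag_iff.1 h)
    rw [sum_insertNone]
    have h1 : pp s(a, b) (Option.elim (none : Option V) (Sum.inr S) fun v => Sum.inl (v, false)) =
        px s(a, b) Q - 2 / (Fintype.card V : ℝ) := by
      show pp s(a, b) (Sum.inr S) = _
      rw [pp_cut hab]
      rcases hQS with rfl | rfl
      · rfl
      · rw [px_compl _ hab]
    have h2 : ∀ v ∈ Q, pp s(a, b) (Option.elim (some v) (Sum.inr S) fun v => Sum.inl (v, false)) =
        2 / (Fintype.card V : ℝ) - px s(a, b) {v} := by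
      intro v _
      show pp s(a, b) (Sum.inl (v, false)) = _
      exact pp_neg hab v
    rw [h1, sum_congr rfl h2, sum_sub_distrib, sum_px Q hab, px_ii _ hab]
    simp
    ring
  refine unif (insertNone Q) ⟨none, none_mem_insertNone⟩ (fun i => i.elim (Sum.inr S) fun v => Sum.inl (v, false))
    ?_ ?_
  · intro i hi
    cases i with
    | none => exact hS
    | some v => exact hm v (some_mem_insertNone.1 hi)
  · intro e he f
    induction e using Sym2.ind with
    | _ a b =>
    have hab : a ≠ b := by
      rintro rfl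
      exact hG a he
    have hr := hval a b hab
    rw [not_both hQ he hab] at hr
    induction f using Sym2.ind with
    | _ c d =>
    by_cases hcd : c = d
    · subst hcd
      have hd : (s(c, c)).IsDiag := Sym2.mk_isDiag_iff.2 rfl
      have h3 : ∀ i ∈ insertNone Q, pp s(c, c) (i.elim (Sum.inr S) fun v => Sum.inl (v, false)) = -10 :=
        fun i _ => pp_diag c _
      have h4 : ∑ i ∈ insertNone Q, pp s(c, c) (i.elim (Sum.inr S) fun v => Sum.inl (v, false)) ≤ 0 := by
        rw [sum_congr rfl h3, sum_const, nsmul_eq_mul]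
        have : (0 : ℝ) ≤ (insertNone Q).card := by positivity
        linarith
      refine h4.trans ?_
      rw [hr]
      have : 0 ≤ (Q.card - 1 : ℝ) * (2 / (Fintype.card V : ℝ)) := mul_nonneg (by linarith) hc0
      linarith
    · rw [hr, hval c d hcd]
      have := ii_nn Q c d
      linarith

/-- the side without edges of a cut of `T` -/
private def Sd (G : Finset (Sym2 V)) (T : Finset (St V)) (Q : Finset V) : Prop :=
  ∃ S : NCut V, (Sum.inr S : St V) ∈ T ∧ (Q = S.1 ∨ Q = univ \ S.1) ∧ ¬ Ns (gg G) Q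

private theorem sd_lam {G : Finset (Sym2 V)} {T : Finset (St V)} (hT : LL T)
    (hi : ∀ S : NCut V, (Sum.inr S : St V) ∈ T → Ns (gg G) S.1 ∨ Ns (gg G) (univ \ S.1)) {Q Q' : Finset V}
    (hQ : Sd G T Q) (hQ' : Sd G T Q') : Disjoint Q Q' ∨ Q ⊆ Q' ∨ Q' ⊆ Q := by
  obtain ⟨S, hS, hQS, hn⟩ := hQ
  obtain ⟨S', hS', hQS', hn'⟩ := hQ'
  have hX := hT.1 S S' hS hS'
  -- complement of Q has an edge
  have hco : Ns (gg G) (univ \ Q) := by
    rcases hQS with rfl | rfl
    · exact (hi S hS).resolve_left hn
    · have : univ \ (univ \ S.1) = S.1 := by ext x; simp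
      rw [this]
      exact (hi S hS).resolve_right hn
  have hnu : Q ∪ Q' ≠ univ := by
    intro hu
    obtain ⟨u, hu1, v, hv1, h⟩ := hco
    have hs : univ \ Q ⊆ Q' := by
      intro x hx
      have hx1 : x ∈ Q ∪ Q' := (by rw [hu]; exact mem_univ x)
      rcases mem_union.1 hx1 with h1 | h1
      · exact absurd h1 (mem_sdiff.1 hx).2
      · exact h1
    exact hn' ⟨u, hs hu1, v, hs hv1, h⟩
  have hX' : NonX Q Q' := by
    unfold NonX at hX ⊢
    rcases hQS with rfl | rfl <;> rcases hQS' with rfl | rfl
    · exact hX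
    · rcases hX with h | h | h | h
      · right; left
        intro x hx
        refine mem_sdiff.2 ⟨mem_univ x, fun h' => ?_⟩
        have : x ∈ S.1 ∩ S'.1 := mem_inter.2 ⟨hx, h'⟩
        rw [h] at this
        simp at this
      · left
        ext x
        simp only [mem_inter, mem_sdiff, mem_univ, true_and, notMem_empty, iff_false, not_and, not_not]
        exact fun hx => h hx
      · right; right; right
        ext x
        simp only [mem_union, mem_sdiff, mem_univ, true_and, iff_true]
        by_cases hx : x ∈ S'.1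
        · exact Or.inl (h hx)
        · exact Or.inr hx
      · right; right; left
        intro x hx
        have hx1 : x ∈ S.1 ∪ S'.1 := (by rw [h]; exact mem_univ x)
        rcases mem_union.1 hx1 with h1 | h1
        · exact h1
        · exact absurd h1 (mem_sdiff.1 hx).2
    · rcases hX with h | h | h | h
      · right; right; left
        intro x hx
        refine mem_sdiff.2 ⟨mem_univ x, fun h' => ?_⟩
        have : x ∈ S.1 ∩ S'.1 := mem_inter.2 ⟨h', hx⟩
        rw [h] at this
        simp at this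
      · right; right; right
        ext x
        simp only [mem_union, mem_sdiff, mem_univ, true_and, iff_true]
        by_cases hx : x ∈ S.1
        · exact Or.inr (h hx)
        · exact Or.inl hx
      · left
        ext x
        simp only [mem_inter, mem_sdiff, mem_univ, true_and, notMem_empty, iff_false, not_and]
        exact fun hx hx' => hx (h hx')
      · right; left
        intro x hx
        have hx1 : x ∈ S.1 ∪ S'.1 := (by rw [h]; exact mem_univ x)
        rcases mem_union.1 hx1 with h1 | h1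
        · exact absurd h1 (mem_sdiff.1 hx).2
        · exact h1
    · rcases hX with h | h | h | h
      · right; right; right
        ext x
        simp only [mem_union, mem_sdiff, mem_univ, true_and, iff_true]
        by_contra hcon
        push Not at hcon
        have : x ∈ S.1 ∩ S'.1 := mem_inter.2 hcon
        rw [h] at this
        simp at this
      · right; right; left
        intro x hx
        refine mem_sdiff.2 ⟨mem_univ x, fun h' => (mem_sdiff.1 hx).2 (h h')⟩
      · right; left
        intro x hx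
        refine mem_sdiff.2 ⟨mem_univ x, fun h' => (mem_sdiff.1 hx).2 (h h')⟩
      · left
        ext x
        simp only [mem_inter, mem_sdiff, mem_univ, true_and, notMem_empty, iff_false, not_and]
        intro hx hx'
        have hx1 : x ∈ S.1 ∪ S'.1 := (by rw [h]; exact mem_univ x)
        rcases mem_union.1 hx1 with h1 | h1
        · exact hx h1
        · exact hx' h1
  rcases hX' with h | h | h | h
  · exact Or.inl (disjoint_iff_inter_eq_empty.2 h)
  · exact Or.inr (Or.inl h)
  · exact Or.inr (Or.inr h)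
  · exact absurd h hnu

/-- case (iii) -/
private theorem case_three (hV : 4 ≤ Fintype.card V) {G : Finset (Sym2 V)} (hG : ∀ v, s(v, v) ∉ G)
    {T : Finset (St V)} (hT : LL T)
    (hi : ∀ S : NCut V, (Sum.inr S : St V) ∈ T → Ns (gg G) S.1 ∨ Ns (gg G) (univ \ S.1))
    (hu : ∀ v : V, ¬ Cov (gg G) T v → (Sum.inl (v, true) : St V) ∈ T) :
    ∃ μ ∈ Sx T, Amax pp μ G := by
  classical
  have hn : (4 : ℝ) ≤ Fintype.card V := by exact_mod_cast hV
  have hc1 : 2 / (Fintype.card V : ℝ) ≤ 1 := by
    rw [div_le_one (by linarith)]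
    linarith
  have hcov : ∀ v, Cov (gg G) T v ↔ ∃ Q, Sd G T Q ∧ v ∈ Q := by
    intro v
    constructor
    · rintro ⟨S, hS, ⟨h1, h2⟩ | ⟨h1, h2⟩⟩
      · exact ⟨S.1, ⟨S, hS, Or.inl rfl, h1⟩, h2⟩
      · exact ⟨univ \ S.1, ⟨S, hS, Or.inr rfl, h1⟩, mem_sdiff.2 ⟨mem_univ v, h2⟩⟩
    · rintro ⟨Q, ⟨S, hS, rfl | rfl, h1⟩, h2⟩
      · exact ⟨S, hS, Or.inl ⟨h1, h2⟩⟩
      · exact ⟨S, hS, Or.inr ⟨h1, (mem_sdiff.1 h2).2⟩⟩
  set MM : Finset (Finset V) := univ.filter fun Q => Sd G T Q ∧ ∀ Q', Sd G T Q' → Q ⊆ Q' → Q = Q' with hMM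
  set Un : Finset V := univ.filter fun v => ¬ Cov (gg G) T v with hUn
  have hmax : ∀ Q, Sd G T Q → ∃ M ∈ MM, Q ⊆ M := by
    intro Q hQ
    obtain ⟨M, hM1, hM2⟩ := (Set.toFinite {Q' : Finset V | Sd G T Q'}).exists_le_maximal hQ
    refine ⟨M, mem_filter.2 ⟨mem_univ _, hM2.prop, fun Q' hQ' h => ?_⟩, hM1⟩
    exact le_antisymm h (hM2.le_of_ge hQ' h)
  have hpart : ∀ a, ii Un a + ∑ M ∈ MM, ii M a = 1 := by
    intro a
    by_cases ha : Cov (gg G) T a
    · have h1 : ii Un a = 0 := by
        unfold ii
        rw [if_neg]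
        simp [hUn, ha]
      obtain ⟨Q, hQ, haQ⟩ := (hcov a).1 ha
      obtain ⟨M, hM, hQM⟩ := hmax Q hQ
      have haM := hQM haQ
      have h2 : ∑ M ∈ MM, ii M a = ii M a := by
        refine sum_eq_single_of_mem M hM fun M' hM' hne => ?_
        unfold ii
        rw [if_neg]
        intro haM'
        have hm := (mem_filter.1 hM).2
        have hm' := (mem_filter.1 hM').2
        rcases sd_lam hT hi hm.1 hm'.1 with h | h | h
        · exact (disjoint_left.1 h haM) haM'
        · exact hne (hm.2 M' hm'.1 h).symm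
        · exact hne (hm'.2 M hm.1 h)
      rw [h1, h2]
      unfold ii
      rw [if_pos haM]
      norm_num
    · have h1 : ii Un a = 1 := by
        unfold ii
        rw [if_pos]
        simp [hUn, ha]
      have h2 : ∑ M ∈ MM, ii M a = 0 := by
        refine sum_eq_zero fun M hM => ?_
        unfold ii
        rw [if_neg]
        intro haM
        exact ha ((hcov a).2 ⟨M, (mem_filter.1 hM).2.1, haM⟩)
      rw [h1, h2]
      norm_num
  have hch : ∀ M : Finset V, ∃ S : NCut V, M ∈ MM → (Sum.inr S : St V) ∈ T ∧ (M = S.1 ∨ M = univ \ S.1) := by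
    intro M
    by_cases hM : M ∈ MM
    · obtain ⟨S, hS, hQS, _⟩ := (mem_filter.1 hM).2.1
      exact ⟨S, fun _ => ⟨hS, hQS⟩⟩
    · by_cases hne : Nonempty (NCut V)
      · obtain ⟨S⟩ := hne
        exact ⟨S, fun h => absurd h hM⟩
      · exfalso
        apply hne
        obtain ⟨s, hs⟩ := exists_subset_card_eq (s := (univ : Finset V)) (n := 2) (by rw [card_univ]; omega)
        refine ⟨s, hs.2.ge, ?_⟩
        rw [card_sdiff_of_subset (subset_univ s), card_univ, hs.2]
        omega
  choose cu hcu using hch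
  set I : Finset (V ⊕ Finset V) := Un.disjSum MM with hI
  set g : V ⊕ Finset V → St V := fun i => i.elim (fun v => Sum.inl (v, true)) fun M => Sum.inr (cu M) with hg
  have hIne : I.Nonempty := by
    have hVne : Nonempty V := Fintype.card_pos_iff.1 (by omega)
    obtain ⟨a⟩ := hVne
    by_cases ha : Cov (gg G) T a
    · obtain ⟨Q, hQ, haQ⟩ := (hcov a).1 ha
      obtain ⟨M, hM, hQM⟩ := hmax Q hQ
      exact ⟨Sum.inr M, inr_mem_disjSum.2 hM⟩
    · exact ⟨Sum.inl a, inl_mem_disjSum.2 (by simp [hUn, ha])⟩
  have hIc : (I.card : ℝ) = Un.card + MM.card := by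
    rw [hI, card_disjSum]
    push_cast
    ring
  have hval : ∀ a b : V, a ≠ b → ∑ i ∈ I, pp s(a, b) (g i) =
      2 - 2 * ∑ M ∈ MM, ii M a * ii M b - I.card * (2 / (Fintype.card V : ℝ)) := by
    intro a b hab
    have hd : ¬ (s(a, b)).IsDiag := fun h => hab (Sym2.mk_isDiag_iff.1 h)
    rw [hI, sum_disjSum]
    have h1 : ∀ v ∈ Un, pp s(a, b) (g (Sum.inl v)) = px s(a, b) {v} - 2 / (Fintype.card V : ℝ) := by
      intro v _
      show pp s(a, b) (Sum.inl (v, true)) = _
      exact pp_pos hab v
    have h2 : ∀ M ∈ MM, pp s(a, b) (g (Sum.inr M)) =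
        ii M a + ii M b - 2 * (ii M a * ii M b) - 2 / (Fintype.card V : ℝ) := by
      intro M hM
      show pp s(a, b) (Sum.inr (cu M)) = _
      rw [pp_cut hab, ← px_ii _ hab]
      rcases (hcu M hM).2 with h | h
      · rw [← h]
      · have h3 : px s(a, b) M = px s(a, b) (cu M).1 := by
          rw [← px_compl (cu M).1 hab, ← h]
        rw [h3]
    rw [sum_congr rfl h1, sum_congr rfl h2, ← hI, hIc]
    have ha := hpart a
    have hb := hpart b
    simp only [sum_sub_distrib, sum_add_distrib, ← mul_sum, sum_px Un hab, sum_const, nsmul_eq_mul]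
    linear_combination ha + hb
  refine unif I hIne g ?_ ?_
  · intro i hi
    cases i with
    | inl v =>
      have hv : v ∈ Un := inl_mem_disjSum.1 hi
      exact hu v (by simpa [hUn] using hv)
    | inr M => exact (hcu M (inr_mem_disjSum.1 hi)).1
  · intro e he f
    induction e using Sym2.ind with
    | _ a b =>
    have hab : a ≠ b := by
      rintro rfl
      exact hG a he
    have hr := hval a b hab
    have h0 : ∑ M ∈ MM, ii M a * ii M b = 0 := by
      refine sum_eq_zero fun M hM => ?_
      obtain ⟨S, hS, hQS, hn'⟩ := (mem_filter.1 hM).2.1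
      exact not_both hn' he hab
    rw [h0] at hr
    induction f using Sym2.ind with
    | _ c d =>
    by_cases hcd : c = d
    · subst hcd
      have hd : (s(c, c)).IsDiag := Sym2.mk_isDiag_iff.2 rfl
      have h3 : ∀ i ∈ I, pp s(c, c) (g i) = -10 := fun i _ => pp_diag c _
      rw [sum_congr rfl h3, hr, sum_const, nsmul_eq_mul]
      have hIp : (0 : ℝ) ≤ I.card := by positivity
      nlinarith [mul_nonneg hIp (sub_nonneg.2 hc1)]
    · rw [hr, hval c d hcd]
      have : 0 ≤ ∑ M ∈ MM, ii M c * ii M d := sum_nonneg fun M _ => ii_nn M c d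
      linarith

/-- PROOF by contraposition: for `T` with `LL T`, not `Low`, give `μ`. (i) a cut `S` both sides of which have no edge:
`μ = 1` on `S`: all edges of `G` cross `S`. (ii) a side `Q` (`S` or its complement) without edges and all `v-`,
`v ∈ Q`, in `T`: `μ` uniform on `S` and the `v-`, `v ∈ Q` (`1/(|Q|+1)` each): `[e across S] - |e ∩ Q|` is `0` for `e`
not inside `Q` and `-2` inside. (iii) all uncovered `v` have `v+ ∈ T`: `μ` uniform on these `v+` and on one cut for every
maximal side without edges (by (i) the sides without edges of different cuts are equal, disjoint or nested; there is at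
least one cut or all `v+ ∈ T`, against `LL`): the sum is `2` for `e` not inside one of these maximal sides and `0` inside.
Loops have `-10` everywhere, `G` has none. -/
theorem low_of (hV : 4 ≤ Fintype.card V) {G : Finset (Sym2 V)} (hG : ∀ v, s(v, v) ∉ G) {T : Finset (St V)}
    (hT : LL T) (hn : ∀ μ ∈ Sx T, ¬ Amax pp μ G) : Low (gg G) T := by
  have hn' : ¬ ∃ μ ∈ Sx T, Amax pp μ G := by
    rintro ⟨μ, h1, h2⟩
    exact hn μ h1 h2
  have hi : ∀ S : NCut V, (Sum.inr S : St V) ∈ T → Ns (gg G) S.1 ∨ Ns (gg G) (univ \ S.1) := by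
    intro S hS
    by_contra hcon
    push Not at hcon
    apply hn'
    have hnr : (4 : ℝ) ≤ Fintype.card V := by exact_mod_cast hV
    have hc0 : (0 : ℝ) ≤ 2 / (Fintype.card V : ℝ) := by positivity
    have hc1 : 2 / (Fintype.card V : ℝ) ≤ 1 := by
      rw [div_le_one (by linarith)]
      linarith
    refine unif ({S} : Finset (NCut V)) ⟨S, mem_singleton_self S⟩ (fun S => Sum.inr S) ?_ ?_
    · intro i hi
      rw [mem_singleton.1 hi]
      exact hS
    · intro e he f
      rw [sum_singleton, sum_singleton]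
      induction e using Sym2.ind with
      | _ a b =>
      have hab : a ≠ b := by
        rintro rfl
        exact hG a he
      have hd : ¬ (s(a, b)).IsDiag := fun h => hab (Sym2.mk_isDiag_iff.1 h)
      have h1 := not_both hcon.1 he hab
      have h2 := not_both hcon.2 he hab
      rw [ii_compl, ii_compl] at h2
      have hr : pp s(a, b) (Sum.inr S) = 1 - 2 / (Fintype.card V : ℝ) := by
        rw [pp_cut hab, px_ii _ hab]
        linear_combination -h2 - h1
      rw [hr]
      induction f using Sym2.ind with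
      | _ c d =>
      by_cases hcd : c = d
      · subst hcd
        rw [pp_diag]
        linarith
      · rw [pp_cut hcd]
        have : px s(c, d) S.1 ≤ 1 := by
          unfold px
          split_ifs <;> norm_num
        linarith
  refine ⟨hT, hi, ?_, ?_⟩
  · by_contra hcon
    push Not at hcon
    exact hn' (case_three hV hG hT hi fun v hv => by
      by_contra h
      exact hv (hcon v h))
  · intro S hS
    constructor
    · intro hQ
      by_contra hcon
      push Not at hcon
      exact hn' (case_two hV hG hS (Or.inl rfl) hQ hcon)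
    · intro hQ
      by_contra hcon
      push Not at hcon
      exact hn' (case_two hV hG hS (Or.inr rfl) hQ fun v hv => hcon v (mem_sdiff.1 hv).2)

end H85J
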