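import Pool.Agent.Lib.H85J.R1

/-! # H85J, chunk R4: a complex with acyclic fibres over the families with property `H` -/

set_option autoImplicit false

namespace H85J

open Finset H98P H63F

variable {E : Type*} [Fintype E] [DecidableEq E]

private theorem r4_ins_mem {s C : Finset E} {e : E} (he : e ∈ C) : insert e s ∩ C = insert e (s ∩ C) := by
  rw [insert_inter_of_mem he]

private theorem r4_ins_nmem {s C : Finset E} {e : E} (he : e ∉ C) : insert e s ∩ C = s ∩ C := by
  rw [insert_inter_of_notMem he]

private theorem r4_union_inter {A F C : Finset E} (hA : Disjoint A C) (hF : F ⊆ C) : (A ∪ F) ∩ C = F := by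
  rw [union_inter_distrib_right, disjoint_iff_inter_eq_empty.1 hA, empty_union, inter_eq_left.2 hF]

private theorem r4_step {X : Finset E → Prop} (hX : Dn X) (C : Finset E) (H : Finset E → Prop)
    (hH : ∀ F F', F ⊆ F' → H F → H F') {m : ℕ} (h1 : Bnd m fun s => X s ∧ ¬ H (s ∩ C))
    (h2 : ∀ F, F ⊆ C → X F → H F → AC fun A => Disjoint A C ∧ X (A ∪ F)) (r : ℕ) :
    ∀ z : Finset E → ZMod 2, (∀ s, z s ≠ 0 → X s ∧ s.card = m) → (∀ t, bd z t = 0) →
      (∀ s, z s ≠ 0 → H (s ∩ C) → (s ∩ C).card < r) →
      ∃ c : Finset E → ZMod 2, (∀ s, c s ≠ 0 → X s) ∧ ∀ t, bd c t = z t := by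
  classical
  induction r with
  | zero =>
    intro z hz hb hr
    obtain ⟨c, hc, hcb⟩ := h1 z (fun s hs => ⟨⟨(hz s hs).1, fun h => absurd (hr s hs h) (Nat.not_lt_zero _)⟩,
      (hz s hs).2⟩) hb
    exact ⟨c, fun s hs => (hc s hs).1, hcb⟩
  | succ r ih =>
    intro z hz hb hr
    have hex : ∀ F : Finset E, ∃ dF : Finset E → ZMod 2,
        (∀ A, dF A ≠ 0 → Disjoint A C ∧ X (A ∪ F)) ∧
        (F ⊆ C → F.card = r → X F → H F → ∀ A, bd dF A = if Disjoint A C then z (A ∪ F) else 0) := by
      intro F
      by_cases hV : F ⊆ C ∧ F.card = r ∧ X F ∧ H F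
      · obtain ⟨hFC, hFr, hFX, hFH⟩ := hV
        obtain ⟨d, hd, hdb⟩ := h2 F hFC hFX hFH (fun A => if Disjoint A C then z (A ∪ F) else 0)
          (by
            intro A hA
            have hA' : (if Disjoint A C then z (A ∪ F) else 0) ≠ 0 := hA
            by_cases h3 : Disjoint A C
            · rw [if_pos h3] at hA'
              exact ⟨h3, (hz _ hA').1⟩
            · rw [if_neg h3] at hA'
              exact absurd rfl hA')
          (by
            intro A
            show ∑ e ∈ Aᶜ, (if Disjoint (insert e A) C then z (insert e A ∪ F) else 0) = 0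
            by_cases h3 : Disjoint A C
            · have h4 : ∑ e ∈ (A ∪ F)ᶜ, z (insert e (A ∪ F)) = 0 := hb (A ∪ F)
              have h5 : ∑ e ∈ (A ∪ F)ᶜ, (if Disjoint (insert e A) C then z (insert e A ∪ F) else 0) =
                  ∑ e ∈ Aᶜ, (if Disjoint (insert e A) C then z (insert e A ∪ F) else 0) := by
                refine sum_subset (compl_subset_compl.2 subset_union_left) fun e he1 he2 => ?_
                have he3 : e ∈ F := by
                  rw [mem_compl, not_not, mem_union] at he2
                  exact he2.resolve_left (mem_compl.1 he1)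
                refine if_neg fun h6 => ?_
                exact disjoint_left.1 h6 (mem_insert_self e A) (hFC he3)
              refine h5.symm.trans (Eq.trans (sum_congr rfl fun e he => ?_) h4)
              have heF : e ∉ F := fun h => (mem_compl.1 he) (mem_union_right _ h)
              by_cases heC : e ∈ C
              · rw [if_neg fun h6 => disjoint_left.1 h6 (mem_insert_self e A) heC]
                by_contra h7
                have h8 := hr _ (Ne.symm h7)
                rw [r4_ins_mem heC, r4_union_inter h3 hFC, card_insert_of_notMem heF, hFr] at h8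
                exact absurd (h8 (hH F _ (subset_insert e F) hFH)) (lt_irrefl _)
              · rw [if_pos, insert_union]
                rw [disjoint_insert_left]
                exact ⟨heC, h3⟩
            · refine sum_eq_zero fun e _ => if_neg fun h6 => h3 ?_
              exact h6.mono_left (subset_insert e A))
        exact ⟨d, hd, fun _ _ _ _ => hdb⟩
      · exact ⟨fun _ => 0, fun A hA => absurd rfl hA,
          fun q1 q2 q3 q4 => absurd ⟨q1, q2, q3, q4⟩ hV⟩
    choose d hd hdb using hex
    obtain ⟨D, hD⟩ : ∃ D : Finset E → ZMod 2, ∀ s, D s =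
        if (s ∩ C).card = r ∧ H (s ∩ C) ∧ s.card = m + 1 then d (s ∩ C) (s \ C) else 0 :=
      ⟨_, fun _ => rfl⟩
    have hDs : ∀ s, D s ≠ 0 → X s ∧ s.card = m + 1 ∧ (s ∩ C).card = r ∧ H (s ∩ C) := by
      intro s hs
      rw [hD] at hs
      by_cases h3 : (s ∩ C).card = r ∧ H (s ∩ C) ∧ s.card = m + 1
      · rw [if_pos h3] at hs
        have h4 := (hd _ _ hs).2
        rw [sdiff_union_inter] at h4
        exact ⟨h4, h3.2.2, h3.1, h3.2.1⟩
      · rw [if_neg h3] at hs
        exact absurd rfl hs
    have hbDs : ∀ s, bd D s ≠ 0 → X s ∧ s.card = m := by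
      intro s hs
      obtain ⟨e, he, he'⟩ := exists_ne_zero_of_sum_ne_zero hs
      obtain ⟨q1, q2, _⟩ := hDs _ he'
      rw [card_insert_of_notMem (mem_compl.1 he)] at q2
      exact ⟨hX _ _ (subset_insert e s) q1, by omega⟩
    have hbD0 : ∀ s, r < (s ∩ C).card → bd D s = 0 := by
      intro s hs
      by_contra h3
      obtain ⟨e, _, he'⟩ := exists_ne_zero_of_sum_ne_zero h3
      obtain ⟨_, _, q3, _⟩ := hDs _ he'
      have h4 : (s ∩ C).card ≤ (insert e s ∩ C).card :=
        card_le_card (inter_subset_inter_right (subset_insert e s))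
      omega
    have hbDr : ∀ s, X s → s.card = m → (s ∩ C).card = r → H (s ∩ C) → bd D s = z s := by
      intro s hsX hsm hsr hsH
      have h3 := hdb (s ∩ C) inter_subset_right hsr (hX _ _ inter_subset_left hsX) hsH (s \ C)
      rw [if_pos sdiff_disjoint, sdiff_union_inter] at h3
      rw [← h3]
      show ∑ e ∈ sᶜ, D (insert e s) = ∑ e ∈ (s \ C)ᶜ, d (s ∩ C) (insert e (s \ C))
      have h4 : ∑ e ∈ sᶜ, d (s ∩ C) (insert e (s \ C)) = ∑ e ∈ (s \ C)ᶜ, d (s ∩ C) (insert e (s \ C)) := by
        refine sum_subset (compl_subset_compl.2 sdiff_subset) fun e he1 he2 => ?_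
        have he3 : e ∈ s := by
          rw [mem_compl, not_not] at he2
          exact he2
        have he4 : e ∈ C := by
          by_contra h5
          exact (mem_compl.1 he1) (mem_sdiff.2 ⟨he3, h5⟩)
        by_contra h5
        exact disjoint_left.1 (hd _ _ h5).1 (mem_insert_self _ _) he4
      rw [← h4]
      refine sum_congr rfl fun e he => ?_
      have hes : e ∉ s := mem_compl.1 he
      by_cases heC : e ∈ C
      · have h5 : D (insert e s) = 0 := by
          by_contra h6
          obtain ⟨_, _, q3, _⟩ := hDs _ h6
          rw [r4_ins_mem heC, card_insert_of_notMem (fun h => hes (mem_inter.1 h).1), hsr] at q3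
          omega
        have h6 : d (s ∩ C) (insert e (s \ C)) = 0 := by
          by_contra h7
          exact disjoint_left.1 (hd _ _ h7).1 (mem_insert_self _ _) heC
        rw [h5, h6]
      · rw [hD, r4_ins_nmem heC, insert_sdiff_of_notMem _ heC, if_pos]
        exact ⟨hsr, hsH, by rw [card_insert_of_notMem hes, hsm]⟩
    obtain ⟨c, hc, hcb⟩ := ih (fun s => z s + bd D s)
      (by
        intro s hs
        by_cases h3 : z s = 0
        · refine hbDs s fun h4 => hs ?_
          show z s + bd D s = 0
          rw [h3, h4, add_zero]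
        · exact hz s h3)
      (by
        intro t
        rw [bd_add, hb t, bd_bd, add_zero])
      (by
        intro s hs hsH
        by_contra h3
        rw [not_lt] at h3
        apply hs
        show z s + bd D s = 0
        rcases Nat.eq_or_lt_of_le h3 with h4 | h4
        · by_cases h5 : X s ∧ s.card = m
          · rw [hbDr s h5.1 h5.2 h4.symm hsH]
            exact CharTwo.add_self_eq_zero _
          · have h6 : z s = 0 := by
              by_contra h7
              exact h5 (hz s h7)
            have h7 : bd D s = 0 := by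
              by_contra h8
              exact h5 (hbDs s h8)
            rw [h6, h7, add_zero]
        · have h6 : z s = 0 := by
            by_contra h7
            have h8 := hr s h7 hsH
            omega
          rw [h6, hbD0 s h4, add_zero])
    refine ⟨fun s => c s + D s, fun s hs => ?_, fun t => ?_⟩
    · by_cases h3 : c s = 0
      · refine (hDs s fun h4 => hs ?_).1
        show c s + D s = 0
        rw [h3, h4, add_zero]
      · exact hc s h3
    · rw [bd_add, hcb t]
      have h3 := CharTwo.add_self_eq_zero (bd D t)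
      linear_combination h3

/-- PROOF: let `z` be a cycle of cardinality `m` of `X`; induction on a bound `r` for the cardinality of `s ∩ C`,
`z s ≠ 0`, `H (s ∩ C)` (for no such `s`: `h1`). For `F ⊆ C` with `F.card = r`, `H F`, `X F` put
`z_F A = z (A ∪ F)` for `A` disjoint from `C`. `bd z_F = 0`: in `bd z (A ∪ F) = 0` the terms `insert c (A ∪ F)`, `c ∈ C`,
have larger intersection with `C`, and `H` holds for it (`hH`), so they vanish. So `z_F = bd d_F` in the fibre
(part of cardinality `m + 1 - r`). Add the boundary of `d s = d_(s ∩ C) (s \ C)` (for the `s` with `(s ∩ C).card = r` and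
`H (s ∩ C)`) to `z`: this removes the terms over `F` and gives only new terms `s` with `(s ∩ C).card < r`. -/
theorem bnd_fib {X : Finset E → Prop} (hX : Dn X) (C : Finset E) (H : Finset E → Prop)
    (hH : ∀ F F', F ⊆ F' → H F → H F') {m : ℕ} (h1 : Bnd m fun s => X s ∧ ¬ H (s ∩ C))
    (h2 : ∀ F, F ⊆ C → X F → H F → AC fun A => Disjoint A C ∧ X (A ∪ F)) : Bnd m X := by
  intro z hz hb
  refine r4_step hX C H hH h1 h2 (C.card + 1) z hz hb fun s _ _ => ?_
  exact Nat.lt_succ_of_le (card_le_card inter_subset_right)

end H85J
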