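import Pool.Agent.Lib.H85J.D

/-! # H85J, chunk R3: transfer along an embedding of the vertex sets -/

set_option autoImplicit false

namespace H85J

open Finset H98P H63F

private theorem r3_bd {E E' : Type*} [Fintype E] [DecidableEq E] [Fintype E'] [DecidableEq E']
    (φ : E' ↪ E) (w : Finset E → ZMod 2) (hw : ∀ s, w s ≠ 0 → ∀ e ∈ s, ∃ e', φ e' = e)
    (r' : Finset E') : bd (fun s' => w (s'.map φ)) r' = bd w (r'.map φ) := by
  unfold bd
  have h1 : ∑ e' ∈ r'ᶜ, w ((insert e' r').map φ)
      = ∑ e ∈ (r'ᶜ).map φ, w (insert e (r'.map φ)) := by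
    rw [Finset.sum_map]
    apply Finset.sum_congr rfl
    intro e' _
    rw [Finset.map_insert]
  rw [h1]
  apply Finset.sum_subset
  · intro e he
    rw [Finset.mem_map] at he
    obtain ⟨e', he', rfl⟩ := he
    rw [Finset.mem_compl] at he' ⊢
    intro h
    rw [Finset.mem_map' φ] at h
    exact he' h
  · intro e he hne
    by_contra h0
    obtain ⟨e', he'⟩ := hw _ h0 e (Finset.mem_insert_self e _)
    apply hne
    rw [Finset.mem_map]
    refine ⟨e', ?_, he'⟩
    rw [Finset.mem_compl] at he ⊢
    intro h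
    apply he
    rw [← he']
    exact Finset.mem_map_of_mem φ h

/-- PROOF: `z' s' = z (s'.map φ)` is a cycle of `X'` (`bd z' r' = bd z (r'.map φ)`: the vertices `e` outside the range of
`φ` give `z (insert e ..) = 0` by `h1`); `z' = bd c'`; `c s = c' s'` if `s = s'.map φ`, else `0`. -/
theorem bnd_map {E E' : Type*} [Fintype E] [DecidableEq E] [Fintype E'] [DecidableEq E'] (φ : E' ↪ E)
    {X : Finset E → Prop} {X' : Finset E' → Prop} (h1 : ∀ s, X s → ∀ e ∈ s, ∃ e', φ e' = e)
    (h2 : ∀ s', X (s'.map φ) ↔ X' s') {m : ℕ} (h : Bnd m X') : Bnd m X := by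
  classical
  intro z hz hbz
  have hzr : ∀ s, z s ≠ 0 → ∀ e ∈ s, ∃ e', φ e' = e := fun s hs => h1 s (hz s hs).1
  obtain ⟨c', hc', hbc'⟩ := h (fun s' => z (s'.map φ)) (by
    intro s' hs'
    obtain ⟨hX, hcard⟩ := hz _ hs'
    refine ⟨(h2 s').1 hX, ?_⟩
    rwa [Finset.card_map] at hcard) (by
    intro r
    rw [r3_bd φ z hzr r]
    exact hbz _)
  -- the preimage
  let P : Finset E → Finset E' := fun s => univ.filter fun e' => φ e' ∈ s
  have hP : ∀ s' : Finset E', P (s'.map φ) = s' := by
    intro s'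
    ext e'
    simp only [P, Finset.mem_filter, Finset.mem_univ, true_and]
    exact Finset.mem_map' φ
  have hPm : ∀ s : Finset E, (∀ e ∈ s, ∃ e', φ e' = e) → (P s).map φ = s := by
    intro s hs
    ext e
    rw [Finset.mem_map]
    constructor
    · rintro ⟨e', he', rfl⟩
      simp only [P, Finset.mem_filter, Finset.mem_univ, true_and] at he'
      exact he'
    · intro he
      obtain ⟨e', rfl⟩ := hs e he
      refine ⟨e', ?_, rfl⟩
      simp only [P, Finset.mem_filter, Finset.mem_univ, true_and]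
      exact he
  let c : Finset E → ZMod 2 := fun s => if (∀ e ∈ s, ∃ e', φ e' = e) then c' (P s) else 0
  have hcr : ∀ s, c s ≠ 0 → ∀ e ∈ s, ∃ e', φ e' = e := by
    intro s hs
    by_contra hn
    apply hs
    simp only [c]
    rw [if_neg hn]
  have hcm : ∀ s' : Finset E', c (s'.map φ) = c' s' := by
    intro s'
    simp only [c]
    rw [if_pos, hP]
    intro e he
    rw [Finset.mem_map] at he
    obtain ⟨e', _, rfl⟩ := he
    exact ⟨e', rfl⟩
  refine ⟨c, ?_, ?_⟩
  · intro s hs
    have hr := hcr s hs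
    have hs2 : c ((P s).map φ) ≠ 0 := by
      rw [hPm s hr]
      exact hs
    rw [hcm] at hs2
    have h3 := (h2 (P s)).2 (hc' _ hs2)
    rwa [hPm s hr] at h3
  · intro r
    by_cases hr : ∀ e ∈ r, ∃ e', φ e' = e
    · have h3 := r3_bd φ c hcr (P r)
      rw [hPm r hr] at h3
      rw [← h3]
      have h4 : (fun s' : Finset E' => c (s'.map φ)) = c' := funext hcm
      rw [h4, hbc', hPm r hr]
    · have hz0 : z r = 0 := by
        by_contra hn
        exact hr (hzr r hn)
      rw [hz0]
      unfold bd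
      apply Finset.sum_eq_zero
      intro e _
      by_contra hn
      exact hr fun x hx => hcr _ hn x (Finset.mem_insert_of_mem hx)

end H85J
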