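import Pool.Agent.Lib.H85J.Z
import Pool.Agent.Lib.H85J.R3

/-! # H85J, chunk S1: join with the sphere of the signed vertices -/

set_option autoImplicit false

namespace H85J

open Finset H98P H63F H96H

variable {V : Type*} [Fintype V] [DecidableEq V]

/-- All signed vertices are over `U`. -/
def Ov (U : Finset V) (T : Finset (St V)) : Prop :=
  ∀ v : V, ∀ b : Bool, (Sum.inl (v, b) : St V) ∈ T → v ∈ U

private theorem S1_mem_ct {T : Finset (St V)} {S : NCut V} : S ∈ ct T ↔ (Sum.inr S : St V) ∈ T := by
  unfold ct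
  rw [Finset.mem_filter]
  exact ⟨fun h => h.2, fun h => ⟨Finset.mem_univ _, h⟩⟩

private theorem S1_ct_mono {s t : Finset (St V)} (h : s ⊆ t) : ct s ⊆ ct t :=
  fun _ hS => S1_mem_ct.2 (h (S1_mem_ct.1 hS))

private theorem S1_ct_ins (q : V × Bool) (s : Finset (St V)) : ct (insert (Sum.inl q : St V) s) = ct s := by
  ext S
  rw [S1_mem_ct, S1_mem_ct, Finset.mem_insert]
  exact ⟨fun h => h.resolve_left (by simp), Or.inr⟩

private theorem S1_cons_mono {s t : Finset (St V)} (h : s ⊆ t) (ht : Cons t) : Cons s :=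
  fun v hv => ht v ⟨h hv.1, h hv.2⟩

private theorem S1_cons_ins {s : Finset (St V)} {u : V} {b : Bool} (hs : Cons s)
    (h : (Sum.inl (u, !b) : St V) ∉ s) : Cons (insert (Sum.inl (u, b) : St V) s) := by
  rintro v ⟨h1, h2⟩
  rw [Finset.mem_insert] at h1 h2
  cases b
  · rcases h1 with h1 | h1
    · simp at h1
    · rcases h2 with h2 | h2
      · have h3 : v = u := by simpa using h2
        rw [h3] at h1
        exact h h1
      · exact hs v ⟨h1, h2⟩
  · rcases h2 with h2 | h2
    · simp at h2
    · rcases h1 with h1 | h1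
      · have h3 : v = u := by simpa using h1
        rw [h3] at h2
        exact h h2
      · exact hs v ⟨h1, h2⟩

private theorem S1_cons_not {s : Finset (St V)} {u : V} {b : Bool}
    (h : Cons (insert (Sum.inl (u, b) : St V) s)) : (Sum.inl (u, !b) : St V) ∉ s := by
  intro h1
  cases b
  · exact h u ⟨Finset.mem_insert_of_mem h1, Finset.mem_insert_self _ _⟩
  · exact h u ⟨Finset.mem_insert_self _ _, Finset.mem_insert_of_mem h1⟩

private theorem S1_ov_mono {U : Finset V} {s t : Finset (St V)} (h : s ⊆ t) (ht : Ov U t) : Ov U s :=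
  fun v b hv => ht v b (h hv)

private theorem S1_dn {Y : Finset (NCut V) → Prop} (hY : Dn Y) (U : Finset V) :
    Dn fun T : Finset (St V) => Cons T ∧ Ov U T ∧ Y (ct T) :=
  fun s t hst ht => ⟨S1_cons_mono hst ht.1, S1_ov_mono hst ht.2.1, hY (ct s) (ct t) (S1_ct_mono hst) ht.2.2⟩

private theorem S1_acc {E : Type*} [Fintype E] [DecidableEq E] {K K' : Finset E → Prop} (h : ∀ s, K s ↔ K' s)
    (hK : AC K) : AC K' := by
  have : K = K' := funext fun s => propext (h s)
  rwa [← this]

/-- PROOF: induction on `U`. `U = ∅`: `bnd_map` along `inr`. `insert u U`: first add `u-` to the complex of `U`: a cone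
(all `m`); then `bnd_add` for `u+`: the link is the complex of `U`, `m' ≠ k + card U`. -/
theorem bnd_over {Y : Finset (NCut V) → Prop} (hY : Dn Y) {k : ℕ} (h : ∀ m, m ≠ k → Bnd m Y) (U : Finset V) :
    ∀ m, m ≠ k + U.card → Bnd m fun T : Finset (St V) => Cons T ∧ Ov U T ∧ Y (ct T) := by
  induction U using Finset.induction_on with
  | empty =>
    intro m hm
    rw [Finset.card_empty, add_zero] at hm
    refine bnd_map (Function.Embedding.inr : NCut V ↪ St V) (X' := Y) ?_ ?_ (h m hm)
    · rintro s ⟨-, h2, -⟩ e he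
      rcases e with ⟨v, b⟩ | S
      · exact absurd (h2 v b he) (Finset.notMem_empty v)
      · exact ⟨S, rfl⟩
    · intro s'
      have hct : ct (s'.map (Function.Embedding.inr : NCut V ↪ St V)) = s' := by
        ext S
        rw [S1_mem_ct, Finset.mem_map]
        constructor
        · rintro ⟨S', hS', h3⟩
          have h4 : S' = S := Sum.inr_injective h3
          rwa [← h4]
        · intro hS
          exact ⟨S, hS, rfl⟩
      have hno : ∀ q : V × Bool, (Sum.inl q : St V) ∉ s'.map (Function.Embedding.inr : NCut V ↪ St V) := by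
        intro q hq
        obtain ⟨S', -, h3⟩ := Finset.mem_map.1 hq
        have h4 : (Sum.inr S' : St V) = Sum.inl q := h3
        simp at h4
      rw [hct]
      exact ⟨fun h3 => h3.2.2, fun h3 => ⟨fun v hv => hno _ hv.1, fun v b hv => absurd hv (hno _), h3⟩⟩
  | insert u U hu ih =>
    intro m hm
    rw [Finset.card_insert_of_notMem hu] at hm
    refine bnd_add (S1_dn hY (insert u U)) (Sum.inl (u, true) : St V) ?_ ?_
    · -- cone with apex `u-`
      apply bnd_of_ac
      refine ac_cone (a := (Sum.inl (u, false) : St V)) ?_ ?_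
      · intro s t hst ht
        exact ⟨S1_dn hY (insert u U) s t hst ht.1, fun h3 => ht.2 (hst h3)⟩
      · rintro s ⟨⟨h1, h2, h3⟩, h4⟩
        refine ⟨⟨S1_cons_ins h1 h4, ?_, by rw [S1_ct_ins]; exact h3⟩, ?_⟩
        · intro v b hv
          rcases Finset.mem_insert.1 hv with h5 | h5
          · have h6 : v = u := by
              have := Sum.inl_injective h5
              exact congrArg Prod.fst this
            rw [h6]
            exact Finset.mem_insert_self _ _
          · exact h2 v b h5
        · intro h5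
          rcases Finset.mem_insert.1 h5 with h6 | h6
          · have := congrArg Prod.snd (Sum.inl_injective h6)
            simp at this
          · exact h4 h6
    · intro m' hm'
      refine bnd_congr ?_ (ih m' (by omega))
      intro s
      constructor
      · rintro ⟨h1, h2, h3⟩
        have hn : ∀ b : Bool, (Sum.inl (u, b) : St V) ∉ s := fun b hb => hu (h2 u b hb)
        refine ⟨hn true, S1_cons_ins h1 (hn _), ?_, by rw [S1_ct_ins]; exact h3⟩
        intro v b hv
        rcases Finset.mem_insert.1 hv with h5 | h5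
        · have h6 : v = u := congrArg Prod.fst (Sum.inl_injective h5)
          rw [h6]
          exact Finset.mem_insert_self _ _
        · exact Finset.mem_insert_of_mem (h2 v b h5)
      · rintro ⟨h1, h2, h3, h4⟩
        have hn := S1_cons_not h2
        refine ⟨S1_cons_mono (Finset.subset_insert _ _) h2, ?_, by rwa [S1_ct_ins] at h4⟩
        intro v b hv
        rcases Finset.mem_insert.1 (h3 v b (Finset.mem_insert_of_mem hv)) with h5 | h5
        · exfalso
          rw [h5] at hv
          cases b
          · exact hn hv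
          · exact h1 hv
        · exact h5

/-- PROOF: let `v0 : V`. The complex without `v0+`, `v0-` is the one of `bnd_over` for `U = univ.erase v0`. Add `v0-`
(`bnd_ac`): the link is `ac_facet false (univ.erase v0)` with `Ψ T = Y (ct T)` and `v0±` not in `T`; then add `v0+`: the
link is `ac_facet true (univ.erase v0)`. -/
theorem bnd_join [Nonempty V] {Y : Finset (NCut V) → Prop} (hY : Dn Y) {k : ℕ} (h : ∀ m, m ≠ k → Bnd m Y) :
    ∀ m, m + 1 ≠ k + Fintype.card V → Bnd m fun T : Finset (St V) => Cons T ∧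
      (∀ b : Bool, ∃ v : V, (Sum.inl (v, b) : St V) ∉ T) ∧ Y (ct T) := by
  intro m hm
  obtain ⟨v0⟩ := (inferInstance : Nonempty V)
  have hW : (univ.erase v0).card + 1 = Fintype.card V := by
    rw [Finset.card_erase_of_mem (Finset.mem_univ v0), Finset.card_univ]
    have := Fintype.card_pos_iff.2 ⟨v0⟩
    omega
  have hdn : Dn fun T : Finset (St V) => Cons T ∧ (∀ b : Bool, ∃ v : V, (Sum.inl (v, b) : St V) ∉ T) ∧ Y (ct T) := by
    intro s t hst ht
    refine ⟨S1_cons_mono hst ht.1, fun b => ?_, hY (ct s) (ct t) (S1_ct_mono hst) ht.2.2⟩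
    obtain ⟨v, hv⟩ := ht.2.1 b
    exact ⟨v, fun h3 => hv (hst h3)⟩
  -- the acyclic links
  have hfac : ∀ b : Bool, AC fun s : Finset (St V) => (Sum.inl (v0, b) : St V) ∉ s ∧
      (Sum.inl (v0, !b) : St V) ∉ s ∧ Cons s ∧ (∃ v ∈ univ.erase v0, (Sum.inl (v, b) : St V) ∉ s) ∧ Y (ct s) := by
    intro b
    have hΨ : Dn fun T : Finset (St V) => (Sum.inl (v0, b) : St V) ∉ T ∧ (Sum.inl (v0, !b) : St V) ∉ T ∧ Y (ct T) := by
      intro s t hst ht
      exact ⟨fun h3 => ht.1 (hst h3), fun h3 => ht.2.1 (hst h3), hY (ct s) (ct t) (S1_ct_mono hst) ht.2.2⟩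
    refine S1_acc ?_ (ac_facet b (univ.erase v0) hΨ)
    intro s
    have hsv : ∀ c : Bool, (Sum.inl (v0, c) : St V) ∉ sv (univ.erase v0) := by
      intro c h3
      unfold sv at h3
      obtain ⟨v, hv, h4⟩ := Finset.mem_biUnion.1 h3
      have h5 : v0 = v := by
        rw [Finset.mem_insert, Finset.mem_singleton] at h4
        rcases h4 with h4 | h4
        · exact congrArg Prod.fst (Sum.inl_injective h4)
        · exact congrArg Prod.fst (Sum.inl_injective h4)
      exact (Finset.mem_erase.1 hv).1 h5.symm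
    have hct : ct (s \ sv (univ.erase v0)) = ct s := by
      ext S
      rw [S1_mem_ct, S1_mem_ct, Finset.mem_sdiff]
      refine ⟨fun h3 => h3.1, fun h3 => ⟨h3, fun h4 => ?_⟩⟩
      unfold sv at h4
      obtain ⟨v, -, h5⟩ := Finset.mem_biUnion.1 h4
      simp at h5
    have hmem : ∀ c : Bool, (Sum.inl (v0, c) : St V) ∉ s \ sv (univ.erase v0) ↔ (Sum.inl (v0, c) : St V) ∉ s := by
      intro c
      rw [Finset.mem_sdiff]
      exact ⟨fun h3 h4 => h3 ⟨h4, hsv c⟩, fun h3 h4 => h3 h4.1⟩
    constructor
    · rintro ⟨h1, h2, h3, h4, h5⟩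
      rw [hmem] at h3 h4
      rw [hct] at h5
      refine ⟨h3, h4, fun v hv => ?_, h2, h5⟩
      by_cases hv0 : v = v0
      · rw [hv0] at hv
        cases b
        · exact h3 hv.2
        · exact h3 hv.1
      · exact h1 v (Finset.mem_erase.2 ⟨hv0, Finset.mem_univ _⟩) hv
    · rintro ⟨h3, h4, h1, h2, h5⟩
      refine ⟨fun v _ => h1 v, h2, (hmem b).2 h3, (hmem (!b)).2 h4, ?_⟩
      rw [hct]
      exact h5
  refine bnd_ac hdn (Sum.inl (v0, true) : St V) ?_ ?_
  · refine bnd_ac ?_ (Sum.inl (v0, false) : St V) ?_ ?_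
    · intro s t hst ht
      exact ⟨hdn s t hst ht.1, fun h3 => ht.2 (hst h3)⟩
    · refine bnd_congr ?_ (bnd_over hY h (univ.erase v0) m (by omega))
      intro s
      constructor
      · rintro ⟨h1, h2, h3⟩
        have hn : ∀ b : Bool, (Sum.inl (v0, b) : St V) ∉ s := fun b hb => (Finset.mem_erase.1 (h2 v0 b hb)).1 rfl
        exact ⟨⟨⟨h1, fun b => ⟨v0, hn b⟩, h3⟩, hn true⟩, hn false⟩
      · rintro ⟨⟨⟨h1, -, h3⟩, h4⟩, h5⟩
        refine ⟨h1, fun v b hv => Finset.mem_erase.2 ⟨fun h6 => ?_, Finset.mem_univ _⟩, h3⟩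
        rw [h6] at hv
        cases b
        · exact h5 hv
        · exact h4 hv
    · refine S1_acc ?_ (hfac false)
      intro s
      constructor
      · rintro ⟨h1, h2, h3, ⟨v, hv, h4⟩, h5⟩
        refine ⟨h1, ⟨S1_cons_ins h3 h2, fun b => ?_, by rw [S1_ct_ins]; exact h5⟩, ?_⟩
        · cases b
          · refine ⟨v, fun h6 => ?_⟩
            rcases Finset.mem_insert.1 h6 with h7 | h7
            · exact (Finset.mem_erase.1 hv).1 (congrArg Prod.fst (Sum.inl_injective h7))
            · exact h4 h7
          · refine ⟨v0, fun h6 => ?_⟩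
            rcases Finset.mem_insert.1 h6 with h7 | h7
            · have := congrArg Prod.snd (Sum.inl_injective h7)
              simp at this
            · exact h2 h7
        · intro h6
          rcases Finset.mem_insert.1 h6 with h7 | h7
          · have := congrArg Prod.snd (Sum.inl_injective h7)
            simp at this
          · exact h2 h7
      · rintro ⟨h1, ⟨h2, h3, h4⟩, h5⟩
        rw [S1_ct_ins] at h4
        refine ⟨h1, S1_cons_not h2, S1_cons_mono (Finset.subset_insert _ _) h2, ?_, h4⟩
        obtain ⟨v, hv⟩ := h3 false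
        refine ⟨v, Finset.mem_erase.2 ⟨fun h6 => ?_, Finset.mem_univ _⟩, fun h6 => hv (Finset.mem_insert_of_mem h6)⟩
        rw [h6] at hv
        exact hv (Finset.mem_insert_self _ _)
  · refine S1_acc ?_ (hfac true)
    intro s
    constructor
    · rintro ⟨h1, h2, h3, ⟨v, hv, h4⟩, h5⟩
      refine ⟨h1, ⟨S1_cons_ins h3 h2, fun b => ?_, by rw [S1_ct_ins]; exact h5⟩⟩
      cases b
      · refine ⟨v0, fun h6 => ?_⟩
        rcases Finset.mem_insert.1 h6 with h7 | h7
        · have := congrArg Prod.snd (Sum.inl_injective h7)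
          simp at this
        · exact h2 h7
      · refine ⟨v, fun h6 => ?_⟩
        rcases Finset.mem_insert.1 h6 with h7 | h7
        · exact (Finset.mem_erase.1 hv).1 (congrArg Prod.fst (Sum.inl_injective h7))
        · exact h4 h7
    · rintro ⟨h1, h2, h3, h4⟩
      rw [S1_ct_ins] at h4
      refine ⟨h1, S1_cons_not h2, S1_cons_mono (Finset.subset_insert _ _) h2, ?_, h4⟩
      obtain ⟨v, hv⟩ := h3 true
      refine ⟨v, Finset.mem_erase.2 ⟨fun h6 => ?_, Finset.mem_univ _⟩, fun h6 => hv (Finset.mem_insert_of_mem h6)⟩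
      rw [h6] at hv
      exact hv (Finset.mem_insert_self _ _)

end H85J
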