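import Pool.Agent.Lib.H85J.G1

/-! # H85J, chunk G2: an edge which can be deleted and contracted -/

set_option autoImplicit false

namespace H85J

open Finset

variable {W : Type*} [Fintype W] [DecidableEq W]

theorem g2_conn_of_edges {G : SimpleGraph W} (a : W) (h : ∀ w, G.Reachable a w) : G.Connected := by
  haveI : Nonempty W := ⟨a⟩
  exact ⟨fun u v => (h u).symm.trans (h v)⟩

theorem g2_nonbridge {G : SimpleGraph W} (hc : G.Connected) (h4 : 4 ≤ Fintype.card W)
    (hdeg : ∀ v, ∃ x y, x ≠ y ∧ G.Adj v x ∧ G.Adj v y) :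
    ∃ a b, G.Adj a b ∧ (del G a b).Connected := by
  classical
  by_contra hno
  push Not at hno
  have hac : G.IsAcyclic := by
    rw [SimpleGraph.isAcyclic_iff_forall_adj_isBridge]
    intro v w hvw
    by_contra hb
    refine hno v w hvw ?_
    have h1 := hc.connected_delete_edge_of_not_isBridge hb
    refine h1.mono ?_
    intro x y hxy
    rw [SimpleGraph.deleteEdges_adj] at hxy
    refine ⟨hxy.1, ?_, ?_⟩
    · rintro ⟨rfl, rfl⟩
      exact hxy.2 rfl
    · rintro ⟨rfl, rfl⟩
      exact hxy.2 (by rw [Set.mem_singleton_iff, Sym2.eq_swap])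
  haveI : Nontrivial W := by
    rw [← Fintype.one_lt_card_iff_nontrivial]
    omega
  obtain ⟨v, hv⟩ := (SimpleGraph.IsTree.mk hc hac).exists_vert_degree_one_of_nontrivial
  obtain ⟨x, y, hxy, hx, hy⟩ := hdeg v
  rw [← SimpleGraph.card_neighborFinset_eq_degree, Finset.card_eq_one] at hv
  obtain ⟨c, hcc⟩ := hv
  have e1 : x ∈ G.neighborFinset v := by rwa [SimpleGraph.mem_neighborFinset]
  have e2 : y ∈ G.neighborFinset v := by rwa [SimpleGraph.mem_neighborFinset]
  rw [hcc, Finset.mem_singleton] at e1 e2
  exact hxy (e1.trans e2.symm)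

theorem g2_other (h4 : 4 ≤ Fintype.card W) (a b c : W) : ∃ w, w ≠ a ∧ w ≠ b ∧ w ≠ c := by
  classical
  have h : (({a, b, c} : Finset W)).card < Fintype.card W := by
    have := Finset.card_le_three (a := a) (b := b) (c := c)
    omega
  obtain ⟨w, hw⟩ := Finset.exists_mem_notMem_of_card_lt_card (s := ({a, b, c} : Finset W)) (t := univ)
    (by rwa [Finset.card_univ])
  refine ⟨w, ?_, ?_, ?_⟩ <;> rintro rfl <;> exact hw.2 (by simp)

theorem g2_other4 (h5 : 5 ≤ Fintype.card W) (a b c d : W) : ∃ w, w ≠ a ∧ w ≠ b ∧ w ≠ c ∧ w ≠ d := by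
  classical
  have h : (({a, b, c, d} : Finset W)).card < Fintype.card W := by
    have := Finset.card_le_four (a := a) (b := b) (c := c) (d := d)
    omega
  obtain ⟨w, hw⟩ := Finset.exists_mem_notMem_of_card_lt_card (s := ({a, b, c, d} : Finset W)) (t := univ)
    (by rwa [Finset.card_univ])
  refine ⟨w, ?_, ?_, ?_, ?_⟩ <;> rintro rfl <;> exact hw.2 (by simp)

theorem g2_two_del {G : SimpleGraph W} (h4 : 4 ≤ Fintype.card W)
    (hdeg : ∀ v, ∃ x y, x ≠ y ∧ G.Adj v x ∧ G.Adj v y) {a b : W} (hc : (del G a b).Connected) :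
    Two (del G a b) := by
  by_contra hno
  obtain ⟨z, hz⟩ := star_of hc h4 hno
  obtain ⟨w, hwa, hwb, hwz⟩ := g2_other h4 a b z
  obtain ⟨x, y, hxy, hx, hy⟩ := hdeg w
  have key : ∀ u, G.Adj w u → u = z := by
    intro u hu
    have := hz w u ⟨hu, fun h => hwa h.1, fun h => hwb h.1⟩
    rcases this with h | h
    · exact absurd h hwz
    · exact h
  exact hxy ((key x hx).trans (key y hy).symm)

/-- If every vertex has two different neighbours, some edge `ab` can be deleted and contracted.
PROOF: `G` is not a forest (a finite tree with at least two vertices has a vertex of degree `1`), so some edge `ab` is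
not a bridge: `del G a b` is connected. If `del G a b` has no two disjoint edges it is a star (`star_of`) with at least
two leaves different from the ends... a leaf different from `a`, `b` has degree `1` in `G`: contradiction. If
`5 ≤ card W` and `contr G a b` (connected) has no two disjoint edges, it is a star with centre `z`; if `z ≠ a` a vertex
`≠ a, b, z` has degree `1` in `G`; so `z = a`, every vertex `w ≠ a, b` is adjacent exactly to `a` and `b`. Then take the
edge `a w0` instead of `ab` (`w0 ≠ a, b`): `del G a w0` is connected with two disjoint edges `a w1`, `b w2`, and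
`contr G a w0` has the disjoint edges `b w1`, `a w2`. -/
theorem exists_edge {G : SimpleGraph W} (hc : G.Connected) (h4 : 4 ≤ Fintype.card W)
    (hdeg : ∀ v, ∃ x y, x ≠ y ∧ G.Adj v x ∧ G.Adj v y) :
    ∃ a b, G.Adj a b ∧ (del G a b).Connected ∧ Two (del G a b) ∧ (5 ≤ Fintype.card W → Two (contr G a b)) := by
  classical
  obtain ⟨a, b, hab, hcon⟩ := g2_nonbridge hc h4 hdeg
  by_cases h5 : 5 ≤ Fintype.card W
  swap
  · exact ⟨a, b, hab, hcon, g2_two_del h4 hdeg hcon, fun h => absurd h h5⟩
  by_cases hT : Two (contr G a b)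
  · exact ⟨a, b, hab, hcon, g2_two_del h4 hdeg hcon, fun _ => hT⟩
  have hne : a ≠ b := hab.ne
  have hcc : (contr G a b).Connected := by
    have hmap : ∀ u v : W, G.Adj u v → (contr G a b).Reachable
        (if h : u = b then ⟨a, hne⟩ else ⟨u, h⟩) (if h : v = b then ⟨a, hne⟩ else ⟨v, h⟩) := by
      intro u v huv
      by_cases hu : u = b
      · subst hu
        by_cases hv : v = u
        · exact absurd hv huv.ne'
        · rw [dif_pos rfl, dif_neg hv]
          by_cases hva : v = a
          · subst hva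
            exact SimpleGraph.Reachable.refl _
          · refine SimpleGraph.Adj.reachable ⟨?_, ?_⟩
            · intro h
              exact hva (congrArg Subtype.val h).symm
            · exact Or.inr (Or.inl ⟨rfl, huv⟩)
      · by_cases hv : v = b
        · subst hv
          rw [dif_pos rfl, dif_neg hu]
          by_cases hua : u = a
          · subst hua
            exact SimpleGraph.Reachable.refl _
          · refine SimpleGraph.Adj.reachable ⟨?_, ?_⟩
            · intro h
              exact hua (congrArg Subtype.val h)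
            · exact Or.inr (Or.inr ⟨rfl, huv.symm⟩)
        · rw [dif_neg hu, dif_neg hv]
          refine SimpleGraph.Adj.reachable ⟨?_, Or.inl huv⟩
          intro h
          exact huv.ne (congrArg Subtype.val h)
    have hwalk : ∀ u v : W, G.Walk u v → (contr G a b).Reachable
        (if h : u = b then ⟨a, hne⟩ else ⟨u, h⟩) (if h : v = b then ⟨a, hne⟩ else ⟨v, h⟩) := by
      intro u v p
      induction p with
      | nil => exact SimpleGraph.Reachable.refl _
      | cons h p ih => exact (hmap _ _ h).trans ih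
    haveI : Nonempty {w : W // w ≠ b} := ⟨⟨a, hne⟩⟩
    refine ⟨fun x y => ?_⟩
    obtain ⟨p⟩ := hc.preconnected x.1 y.1
    have := hwalk _ _ p
    rw [dif_neg x.2, dif_neg y.2] at this
    exact this
  have hcard : 4 ≤ Fintype.card {w : W // w ≠ b} := by
    rw [Fintype.card_subtype_compl]
    simp only [Fintype.card_unique]
    omega
  obtain ⟨z, hz⟩ := star_of hcc hcard hT
  have hza : z.1 = a := by
    by_contra hza
    obtain ⟨w, hwa, hwb, hwz⟩ := g2_other h4 a b z.1
    obtain ⟨x, y, hxy, hx, hy⟩ := hdeg w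
    have key : ∀ u, G.Adj w u → u = z.1 := by
      intro u hu
      by_cases hub : u = b
      · subst hub
        have := hz ⟨w, hwb⟩ ⟨a, hne⟩ ⟨fun h => hwa (congrArg Subtype.val h), Or.inr (Or.inr ⟨rfl, hu.symm⟩)⟩
        rcases this with h | h
        · exact absurd (congrArg Subtype.val h) hwz
        · exact absurd (congrArg Subtype.val h).symm hza
      · have := hz ⟨w, hwb⟩ ⟨u, hub⟩ ⟨fun h => hu.ne (congrArg Subtype.val h), Or.inl hu⟩
        rcases this with h | h
        · exact absurd (congrArg Subtype.val h) hwz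
        · exact congrArg Subtype.val h
    exact hxy ((key x hx).trans (key y hy).symm)
  have hin : ∀ w, w ≠ a → w ≠ b → ∀ u, G.Adj w u → u = a ∨ u = b := by
    intro w hwa hwb u hu
    by_cases hub : u = b
    · exact Or.inr hub
    · left
      have := hz ⟨w, hwb⟩ ⟨u, hub⟩ ⟨fun h => hu.ne (congrArg Subtype.val h), Or.inl hu⟩
      rcases this with h | h
      · exact absurd ((congrArg Subtype.val h).trans hza) hwa
      · exact (congrArg Subtype.val h).trans hza
  have hboth : ∀ w, w ≠ a → w ≠ b → G.Adj w a ∧ G.Adj w b := by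
    intro w hwa hwb
    obtain ⟨x, y, hxy, hx, hy⟩ := hdeg w
    rcases hin w hwa hwb x hx with h | h <;> rcases hin w hwa hwb y hy with h' | h'
    · exact absurd (h.trans h'.symm) hxy
    · exact ⟨h ▸ hx, h' ▸ hy⟩
    · exact ⟨h' ▸ hy, h ▸ hx⟩
    · exact absurd (h.trans h'.symm) hxy
  obtain ⟨w0, h0a, h0b, -⟩ := g2_other h4 a b a
  obtain ⟨w1, h1a, h1b, h10⟩ := g2_other h4 a b w0
  obtain ⟨w2, h2a, h2b, h20, h21⟩ := g2_other4 h5 a b w0 w1
  have hcon0 : (del G a w0).Connected := by
    have adj1 : ∀ w, w ≠ a → w ≠ b → (del G a w0).Adj w b := by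
      intro w hwa hwb
      exact ⟨(hboth w hwa hwb).2, fun h => hwa h.1, fun h => hne h.2.symm⟩
    have adj2 : (del G a w0).Adj a w1 :=
      ⟨(hboth w1 h1a h1b).1.symm, fun h => h10 h.2, fun h => h0a h.1.symm⟩
    refine g2_conn_of_edges b ?_
    intro w
    by_cases hwb : w = b
    · subst hwb
      exact SimpleGraph.Reachable.refl _
    · by_cases hwa : w = a
      · subst hwa
        exact ((adj1 w1 h1a h1b).symm.reachable).trans adj2.symm.reachable
      · exact (adj1 w hwa hwb).symm.reachable
  refine ⟨a, w0, (hboth w0 h0a h0b).1.symm, hcon0, g2_two_del h4 hdeg hcon0, fun _ => ?_⟩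
  refine ⟨⟨b, h0b.symm⟩, ⟨w1, h10⟩, ⟨a, h0a.symm⟩, ⟨w2, h20⟩, ?_, ?_, ?_, ?_, ?_, ?_⟩
  · exact ⟨fun h => h1b (congrArg Subtype.val h).symm, Or.inl (hboth w1 h1a h1b).2.symm⟩
  · exact ⟨fun h => h2a (congrArg Subtype.val h).symm, Or.inl (hboth w2 h2a h2b).1.symm⟩
  · intro h
    exact hne (congrArg Subtype.val h).symm
  · intro h
    exact h2b (congrArg Subtype.val h).symm
  · intro h
    exact h1a (congrArg Subtype.val h)
  · intro h
    exact h21 (congrArg Subtype.val h).symm

end H85J
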