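import Pool.Agent.Lib.H85J.D

/-! # H85J, chunk G3: contractions are connected -/

set_option autoImplicit false

namespace H85J

open Finset

variable {W : Type*} [Fintype W] [DecidableEq W]

/-- PROOF: map a walk of `G` by `f w = if w = b then a else w`. -/
theorem contr_connected {G : SimpleGraph W} (hc : G.Connected) {a b : W} (hab : G.Adj a b) :
    (contr G a b).Connected := by
  have hne : a ≠ b := hab.ne
  let f : W → {w : W // w ≠ b} := fun w => if h : w = b then ⟨a, hne⟩ else ⟨w, h⟩
  have hfb : f b = ⟨a, hne⟩ := by simp [f]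
  have hf : ∀ w (h : w ≠ b), f w = ⟨w, h⟩ := by
    intro w h
    simp [f, h]
  have hstep : ∀ u v, G.Adj u v → (contr G a b).Reachable (f u) (f v) := by
    intro u v huv
    by_cases he : f u = f v
    · rw [he]
    · refine SimpleGraph.Adj.reachable ⟨he, ?_⟩
      by_cases hu : u = b
      · subst hu
        have hv : v ≠ u := huv.ne'
        rw [hfb, hf v hv]
        exact Or.inr (Or.inl ⟨rfl, huv⟩)
      · by_cases hv : v = b
        · subst hv
          rw [hfb, hf u hu]
          exact Or.inr (Or.inr ⟨rfl, huv.symm⟩)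
        · rw [hf u hu, hf v hv]
          exact Or.inl huv
  have hwalk : ∀ u v, G.Reachable u v → (contr G a b).Reachable (f u) (f v) := by
    rintro u v ⟨p⟩
    induction p with
    | nil => exact SimpleGraph.Reachable.refl _
    | cons h _ ih => exact (hstep _ _ h).trans ih
  haveI : Nonempty {w : W // w ≠ b} := ⟨⟨a, hne⟩⟩
  refine ⟨fun x y => ?_⟩
  have h := hwalk x.1 y.1 (hc.preconnected x.1 y.1)
  rw [hf x.1 x.2, hf y.1 y.2] at h
  exact h

end H85J
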