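import Pool.Agent.Lib.H85J.T2
import Pool.Agent.Lib.H85J.R3

/-! # H85J, chunk T3: the link of the cut `ab` is the complex of the contraction -/

set_option autoImplicit false

namespace H85J

open Finset H98P H63F H96H

variable {W : Type*} [Fintype W] [DecidableEq W]

/-- The retraction `b ↦ a`. -/
private def t3r (a b : W) (h : a ≠ b) (w : W) : {w : W // w ≠ b} :=
  if hw : w = b then ⟨a, h⟩ else ⟨w, hw⟩

private theorem t3r_b {a b : W} (h : a ≠ b) : t3r a b h b = ⟨a, h⟩ := by
  unfold t3r
  rw [dif_pos rfl]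

private theorem t3r_ne {a b : W} (h : a ≠ b) {w : W} (hw : w ≠ b) : t3r a b h w = ⟨w, hw⟩ := by
  unfold t3r
  rw [dif_neg hw]

private theorem t3r_val {a b : W} (h : a ≠ b) (w : {w : W // w ≠ b}) : t3r a b h w.1 = w := by
  rw [t3r_ne h w.2]

/-- The preimage under the retraction. -/
private def t3p (a b : W) (h : a ≠ b) (S : Finset {w : W // w ≠ b}) : Finset W :=
  univ.filter fun w => t3r a b h w ∈ S

private theorem t3p_mem {a b : W} (h : a ≠ b) {S : Finset {w : W // w ≠ b}} {w : W} :
    w ∈ t3p a b h S ↔ t3r a b h w ∈ S := by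
  unfold t3p
  rw [mem_filter]
  exact ⟨fun h => h.2, fun h => ⟨mem_univ _, h⟩⟩

private theorem t3p_sub {a b : W} (h : a ≠ b) {S T : Finset {w : W // w ≠ b}} :
    t3p a b h S ⊆ t3p a b h T ↔ S ⊆ T := by
  constructor
  · intro h1 x hx
    have h2 : x.1 ∈ t3p a b h S := (t3p_mem h).2 (by rw [t3r_val]; exact hx)
    have h3 := (t3p_mem h).1 (h1 h2)
    rwa [t3r_val] at h3
  · intro h1 w hw
    exact (t3p_mem h).2 (h1 ((t3p_mem h).1 hw))

private theorem t3p_compl {a b : W} (h : a ≠ b) (S : Finset {w : W // w ≠ b}) :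
    univ \ t3p a b h S = t3p a b h (univ \ S) := by
  ext w
  rw [mem_sdiff, t3p_mem, t3p_mem, mem_sdiff]
  exact ⟨fun h => ⟨mem_univ _, h.2⟩, fun h => ⟨mem_univ _, h.2⟩⟩

private theorem t3p_inter {a b : W} (h : a ≠ b) {S T : Finset {w : W // w ≠ b}} :
    t3p a b h S ∩ t3p a b h T = ∅ ↔ S ∩ T = ∅ := by
  rw [eq_empty_iff_forall_notMem, eq_empty_iff_forall_notMem]
  constructor
  · intro h1 x hx
    rw [mem_inter] at hx
    refine h1 x.1 ?_
    rw [mem_inter, t3p_mem, t3p_mem, t3r_val]
    exact hx
  · intro h1 w hw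
    rw [mem_inter, t3p_mem, t3p_mem] at hw
    exact h1 _ (mem_inter.2 hw)

private theorem t3p_union {a b : W} (h : a ≠ b) {S T : Finset {w : W // w ≠ b}} :
    t3p a b h S ∪ t3p a b h T = univ ↔ S ∪ T = univ := by
  rw [eq_univ_iff_forall, eq_univ_iff_forall]
  constructor
  · intro h1 x
    have h2 := h1 x.1
    rw [mem_union, t3p_mem, t3p_mem, t3r_val] at h2
    exact mem_union.2 h2
  · intro h1 w
    have h2 := h1 (t3r a b h w)
    rw [mem_union] at h2
    rw [mem_union, t3p_mem, t3p_mem]
    exact h2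

private theorem t3p_nonX {a b : W} (h : a ≠ b) {S T : Finset {w : W // w ≠ b}} :
    NonX (t3p a b h S) (t3p a b h T) ↔ NonX S T := by
  unfold NonX
  rw [t3p_inter, t3p_sub, t3p_sub, t3p_union]

private theorem t3p_inj {a b : W} (h : a ≠ b) {S T : Finset {w : W // w ≠ b}}
    (hST : t3p a b h S = t3p a b h T) : S = T :=
  Subset.antisymm ((t3p_sub h).1 hST.subset) ((t3p_sub h).1 hST.symm.subset)

private theorem t3p_card {a b : W} (h : a ≠ b) (S : Finset {w : W // w ≠ b}) :
    S.card ≤ (t3p a b h S).card := by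
  have h1 : S.map (Function.Embedding.subtype _) ⊆ t3p a b h S := by
    intro w hw
    rw [mem_map] at hw
    obtain ⟨x, hx, rfl⟩ := hw
    rw [t3p_mem]
    show t3r a b h x.1 ∈ S
    rwa [t3r_val]
  calc S.card = (S.map (Function.Embedding.subtype _)).card := (card_map _).symm
    _ ≤ _ := card_le_card h1

/-- The embedding of the cuts. -/
private def t3φ (a b : W) (h : a ≠ b) : NCut {w : W // w ≠ b} ↪ NCut W where
  toFun S := ⟨t3p a b h S.1, S.2.1.trans (t3p_card h _), by
    rw [t3p_compl]
    exact S.2.2.trans (t3p_card h _)⟩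
  inj' S T hST := Subtype.ext (t3p_inj h (congrArg Subtype.val hST))

private theorem t3_ns {G : SimpleGraph W} {a b : W} (h : a ≠ b) {S : Finset {w : W // w ≠ b}} :
    Ns (del G a b) (t3p a b h S) ↔ Ns (contr G a b) S := by
  constructor
  · rintro ⟨u, hu, v, hv, hG, h1, h2⟩
    have huv : u ≠ v := hG.ne
    refine ⟨_, (t3p_mem h).1 hu, _, (t3p_mem h).1 hv, ?_⟩
    by_cases hub : u = b
    · subst hub
      have hvb : v ≠ u := huv.symm
      rw [t3r_b, t3r_ne h hvb]
      refine ⟨fun h3 => ?_, Or.inr (Or.inl ⟨rfl, hG⟩)⟩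
      have h4 : a = v := congrArg Subtype.val h3
      exact h2 ⟨rfl, h4.symm⟩
    · by_cases hvb : v = b
      · subst hvb
        rw [t3r_b, t3r_ne h hub]
        refine ⟨fun h3 => ?_, Or.inr (Or.inr ⟨rfl, hG.symm⟩)⟩
        have h4 : u = a := congrArg Subtype.val h3
        exact h1 ⟨h4, rfl⟩
      · rw [t3r_ne h hub, t3r_ne h hvb]
        exact ⟨fun h3 => huv (congrArg Subtype.val h3), Or.inl hG⟩
  · rintro ⟨x, hx, y, hy, hxy, h1⟩
    have hxy' : x.1 ≠ y.1 := fun h2 => hxy (Subtype.ext h2)
    have hx' : x.1 ∈ t3p a b h S := (t3p_mem h).2 (by rwa [t3r_val])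
    have hy' : y.1 ∈ t3p a b h S := (t3p_mem h).2 (by rwa [t3r_val])
    rcases h1 with h1 | ⟨h1, h2⟩ | ⟨h1, h2⟩
    · exact ⟨x.1, hx', y.1, hy', h1, fun h2 => y.2 h2.2, fun h2 => x.2 h2.1⟩
    · refine ⟨b, (t3p_mem h).2 ?_, y.1, hy', h2, fun h3 => h h3.1.symm, fun h3 => hxy' (h1.trans h3.2.symm)⟩
      rw [t3r_b]
      have : x = ⟨a, h⟩ := Subtype.ext h1
      rwa [← this]
    · refine ⟨x.1, hx', b, (t3p_mem h).2 ?_, h2.symm, fun h3 => hxy' (h3.1.trans h1.symm), fun h3 => h h3.2.symm⟩
      rw [t3r_b]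
      have : y = ⟨a, h⟩ := Subtype.ext h1
      rwa [← this]

private theorem t3_ns_card {G : SimpleGraph W} {S : Finset W} (h : Ns G S) : 2 ≤ S.card := by
  obtain ⟨u, hu, v, hv, huv⟩ := h
  exact one_lt_card.2 ⟨u, hu, v, hv, huv.ne⟩

private theorem t3_ns_del {G : SimpleGraph W} {a b : W} {S : Finset W} (h : Ns (del G a b) S) : Ns G S := by
  obtain ⟨u, hu, v, hv, huv⟩ := h
  exact ⟨u, hu, v, hv, huv.1⟩

private theorem t3_ns_ab {G : SimpleGraph W} {a b : W} {S : Finset W} (hS : S ⊆ {a, b}) : ¬ Ns (del G a b) S := by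
  rintro ⟨u, hu, v, hv, huv, h1, h2⟩
  have hu' := hS hu
  have hv' := hS hv
  rw [mem_insert, mem_singleton] at hu' hv'
  rcases hu' with hu' | hu' <;> rcases hv' with hv' | hv'
  · exact huv.ne (hu'.trans hv'.symm)
  · exact h1 ⟨hu', hv'⟩
  · exact h2 ⟨hu', hv'⟩
  · exact huv.ne (hu'.trans hv'.symm)

private theorem t3_lift {a b : W} (h : a ≠ b) {R : Finset W} (hR : a ∈ R ↔ b ∈ R) :
    t3p a b h (R.image (t3r a b h)) = R := by
  ext w
  rw [t3p_mem, mem_image]
  constructor
  · rintro ⟨u, hu, h1⟩
    by_cases hub : u = b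
    · subst hub
      rw [t3r_b] at h1
      by_cases hwb : w = u
      · rw [hwb]
        exact hu
      · rw [t3r_ne h hwb] at h1
        have h2 : a = w := congrArg Subtype.val h1
        rw [← h2]
        exact hR.2 hu
    · rw [t3r_ne h hub] at h1
      by_cases hwb : w = b
      · subst hwb
        rw [t3r_b] at h1
        have h2 : u = a := congrArg Subtype.val h1
        rw [h2] at hu
        exact hR.1 hu
      · rw [t3r_ne h hwb] at h1
        have h2 : u = w := congrArg Subtype.val h1
        rwa [← h2]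
  · intro hw
    exact ⟨w, hw, rfl⟩

private theorem t3_sep {G : SimpleGraph W} {a b : W} {R : Finset W} (h1 : Ns (del G a b) R)
    (h2 : Ns (del G a b) (univ \ R)) (h3 : NonX R {a, b}) : a ∈ R ↔ b ∈ R := by
  rcases h3 with h3 | h3 | h3 | h3
  · rw [eq_empty_iff_forall_notMem] at h3
    constructor
    · intro h4
      exact absurd (mem_inter.2 ⟨h4, mem_insert_self _ _⟩) (h3 a)
    · intro h4
      exact absurd (mem_inter.2 ⟨h4, mem_insert_of_mem (mem_singleton_self _)⟩) (h3 b)
  · exact absurd h1 (t3_ns_ab h3)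
  · exact ⟨fun _ => h3 (mem_insert_of_mem (mem_singleton_self _)), fun _ => h3 (mem_insert_self _ _)⟩
  · refine absurd h2 (t3_ns_ab fun w hw => ?_)
    have h4 : w ∈ R ∪ {a, b} := by
      rw [h3]
      exact mem_univ _
    rw [mem_union] at h4
    exact h4.resolve_left (mem_sdiff.1 hw).2

private theorem t3_nonX_comm {S T : Finset W} (h : NonX S T) : NonX T S := by
  unfold NonX at h ⊢
  rcases h with h | h | h | h
  · left
    rwa [inter_comm]
  · right; right; left
    exact h
  · right; left
    exact h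
  · right; right; right
    rwa [union_comm]

private theorem t3_dn (G : SimpleGraph W) (a b : W) : Dn (TX G a b) := by
  intro s t hst ht
  exact ⟨⟨fun S hS => ht.1.1 S (hst hS), fun S hS S' hS' => ht.1.2 S (hst hS) S' (hst hS')⟩,
    fun S hS => ht.2 S (hst hS)⟩

/-- PROOF: if `{a, b}` is not a cut with edges on both sides, `TX G a b` and `TT (del G a b)` are the same
(`bnd_congr`). Otherwise `bnd_add` for `v` = the cut `{a, b}`: without it `TX` is `TT (del G a b)` (`{a, b}` and its
complement are not in it). The link: the families of `TT (del G a b)` no member of which separates `a` and `b` (not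
crossing `{a, b}` means this). `bnd_map` with `φ S' = S'.map val ∪ (if a ∈ S' then {b} else ∅)`: a side `S` of such a cut
containing `a`, `b` has at least three elements (the only other edge `ab` is deleted), `S = φ S'`, and `Ns (del G a b) S`
iff `Ns (contr G a b) S'`, `NonX` is preserved in both directions. -/
theorem bnd_step {G : SimpleGraph W} {a b : W} (hab : G.Adj a b) {m : ℕ} (h1 : Bnd m (TT (del G a b)))
    (h2 : ∀ m', m' + 1 = m → Bnd m' (TT (contr G a b))) : Bnd m (TX G a b) := by
  have hne : a ≠ b := hab.ne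
  by_cases hcut : Ns G (univ \ {a, b})
  · have hv0 : 2 ≤ ({a, b} : Finset W).card ∧ 2 ≤ (univ \ {a, b} : Finset W).card :=
      ⟨(card_pair hne).ge, t3_ns_card hcut⟩
    set v : NCut W := ⟨{a, b}, hv0⟩ with hv
    refine bnd_add (t3_dn G a b) v (bnd_congr (fun s => ?_) h1) (fun m' hm' => ?_)
    · constructor
      · rintro ⟨h3, h4⟩
        refine ⟨⟨fun S hS => ⟨t3_ns_del (h3 S hS).1, t3_ns_del (h3 S hS).2⟩, h4⟩, fun S hS => Or.inr (h3 S hS)⟩ |>
          fun h5 => ⟨h5, fun hvs => ?_⟩
        exact t3_ns_ab (Subset.refl _) (h3 v hvs).1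
      · rintro ⟨⟨h3, h4⟩, h5⟩
        refine ⟨fun S hS => (h4 S hS).resolve_left fun h6 => h5 ?_, h3.2⟩
        have h7 : S = v := Subtype.ext h6
        rwa [← h7]
    · refine bnd_map (t3φ a b hne) (fun s hs e he => ?_) (fun s' => ?_) (h2 m' hm')
      · obtain ⟨hvs, h3, h4⟩ := hs
        have hev : e ≠ v := fun h5 => hvs (h5 ▸ he)
        have h5 := (h4 e (mem_insert_of_mem he)).resolve_left fun h6 => hev (Subtype.ext h6)
        have h6 := t3_sep h5.1 h5.2 (h3.2 e (mem_insert_of_mem he) v (mem_insert_self _ _))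
        have h7 := t3_lift hne h6
        have h8 : Ns (contr G a b) (e.1.image (t3r a b hne)) := by
          rw [← t3_ns hne, h7]
          exact h5.1
        have h9 : Ns (contr G a b) (univ \ e.1.image (t3r a b hne)) := by
          rw [← t3_ns hne, ← t3p_compl, h7]
          exact h5.2
        exact ⟨⟨e.1.image (t3r a b hne), t3_ns_card h8, t3_ns_card h9⟩, Subtype.ext h7⟩
      · constructor
        · rintro ⟨hvs, h3, h4⟩
          refine ⟨fun S hS => ?_, fun S hS S' hS' => ?_⟩
          · have hS1 : t3φ a b hne S ∈ s'.map (t3φ a b hne) := mem_map_of_mem _ hS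
            have h5 := (h4 _ (mem_insert_of_mem hS1)).resolve_left fun h6 => hvs (by
              have h7 : t3φ a b hne S = v := Subtype.ext h6
              rwa [← h7])
            have h6 : Ns (del G a b) (t3p a b hne S.1) ∧ Ns (del G a b) (univ \ t3p a b hne S.1) := h5
            rw [t3p_compl, t3_ns, t3_ns] at h6
            exact h6
          · exact (t3p_nonX hne).1 (h3.2 _ (mem_insert_of_mem (mem_map_of_mem _ hS)) _
              (mem_insert_of_mem (mem_map_of_mem _ hS')))
        · rintro ⟨h3, h4⟩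
          have h5 : ∀ R ∈ s'.map (t3φ a b hne), Ns (del G a b) R.1 ∧ Ns (del G a b) (univ \ R.1) := by
            intro R hR
            rw [mem_map] at hR
            obtain ⟨S, hS, rfl⟩ := hR
            show Ns (del G a b) (t3p a b hne S.1) ∧ Ns (del G a b) (univ \ t3p a b hne S.1)
            rw [t3p_compl, t3_ns, t3_ns]
            exact h3 S hS
          have h6 : ∀ R ∈ s'.map (t3φ a b hne), NonX {a, b} R.1 := by
            intro R hR
            rw [mem_map] at hR
            obtain ⟨S, hS, rfl⟩ := hR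
            show NonX {a, b} (t3p a b hne S.1)
            have h7 : t3r a b hne b = ⟨a, hne⟩ := t3r_b hne
            have h8 : t3r a b hne a = ⟨a, hne⟩ := t3r_ne hne hne
            by_cases h9 : (⟨a, hne⟩ : {w : W // w ≠ b}) ∈ S.1
            · right; left
              intro w hw
              rw [mem_insert, mem_singleton] at hw
              rw [t3p_mem]
              rcases hw with rfl | rfl
              · rwa [h8]
              · rwa [h7]
            · left
              rw [eq_empty_iff_forall_notMem]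
              intro w hw
              rw [mem_inter, mem_insert, mem_singleton, t3p_mem] at hw
              rcases hw with ⟨hw | hw, hw'⟩
              · rw [hw, h8] at hw'
                exact h9 hw'
              · rw [hw, h7] at hw'
                exact h9 hw'
          have hself : ∀ S : Finset W, NonX S S := fun S => Or.inr (Or.inl (Subset.refl _))
          refine ⟨fun hvs => t3_ns_ab (Subset.refl _) (h5 v hvs).1, ⟨fun R hR => ?_, fun R hR R' hR' => ?_⟩,
            fun R hR => ?_⟩
          · rw [mem_insert] at hR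
            rcases hR with rfl | hR
            · exact ⟨⟨a, mem_insert_self _ _, b, mem_insert_of_mem (mem_singleton_self _), hab⟩, hcut⟩
            · exact ⟨t3_ns_del (h5 R hR).1, t3_ns_del (h5 R hR).2⟩
          · rw [mem_insert] at hR hR'
            rcases hR with rfl | hR <;> rcases hR' with rfl | hR'
            · exact hself _
            · exact h6 R' hR'
            · exact t3_nonX_comm (h6 R hR)
            · rw [mem_map] at hR hR'
              obtain ⟨S, hS, rfl⟩ := hR
              obtain ⟨S', hS', rfl⟩ := hR'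
              exact (t3p_nonX hne).2 (h4 S hS S' hS')
          · rw [mem_insert] at hR
            rcases hR with rfl | hR
            · exact Or.inl rfl
            · exact Or.inr (h5 R hR)
  · refine bnd_congr (fun s => ?_) h1
    constructor
    · rintro ⟨h3, h4⟩
      exact ⟨⟨fun S hS => ⟨t3_ns_del (h3 S hS).1, t3_ns_del (h3 S hS).2⟩, h4⟩, fun S hS => Or.inr (h3 S hS)⟩
    · rintro ⟨h3, h4⟩
      refine ⟨fun S hS => (h4 S hS).resolve_left fun h5 => hcut ?_, h3.2⟩
      have h6 := (h3.1 S hS).2
      rwa [h5] at h6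

end H85J
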