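import Pool.Agent.Lib.H85J.T1
import Pool.Agent.Lib.H85J.T3
import Pool.Agent.Lib.H85J.G2
import Pool.Agent.Lib.H85J.G3

/-! # H85J, chunk T4: the homology of `TT G` -/

set_option autoImplicit false

namespace H85J

open Finset H98P H63F H96H

private theorem t4_base {W : Type} [Fintype W] [DecidableEq W] (G : SimpleGraph W)
    (hW : Fintype.card W = 3) (m : ℕ) (hm : m ≠ 0) : Bnd m (TT G) := by
  intro z hz _
  have hempty : ∀ S : NCut W, False := by
    intro S
    have h1 := S.2.1
    have h2 := S.2.2
    have h3 : S.1.card + (univ \ S.1).card = Fintype.card W := by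
      rw [Finset.card_sdiff_of_subset (Finset.subset_univ _), Finset.card_univ]
      have := Finset.card_le_univ S.1
      omega
    omega
  have hs : ∀ s : Finset (NCut W), s = ∅ := fun s =>
    Finset.eq_empty_of_forall_notMem fun S _ => hempty S
  have hz0 : ∀ s, z s = 0 := by
    intro s
    by_contra h
    have h1 := (hz s h).2
    rw [hs s, Finset.card_empty] at h1
    exact hm h1.symm
  refine ⟨fun _ => 0, fun s h => absurd rfl h, fun r => ?_⟩
  rw [hz0 r]
  simp [bd]

private theorem t4_two {W : Type} {G : SimpleGraph W} (h2 : Two G) {a b : W}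
    (hab : ∀ v, G.Adj b v ↔ v = a) :
    ∃ c d, G.Adj c d ∧ c ≠ a ∧ c ≠ b ∧ d ≠ a ∧ d ≠ b := by
  obtain ⟨p, q, r, s, hpq, hrs, h1, h2, h3, h4⟩ := h2
  -- an edge which does not contain `a` does not contain `b`
  have key : ∀ x y, G.Adj x y → x ≠ a → y ≠ a → x ≠ a ∧ x ≠ b ∧ y ≠ a ∧ y ≠ b := by
    intro x y hxy hx hy
    refine ⟨hx, ?_, hy, ?_⟩
    · intro h
      subst h
      exact hy ((hab y).1 hxy)
    · intro h
      subst h
      exact hx ((hab x).1 hxy.symm)
  by_cases hp : p = a
  · refine ⟨r, s, hrs, key r s hrs ?_ ?_⟩
    · rw [← hp]; exact h1.symm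
    · rw [← hp]; exact h2.symm
  · by_cases hq : q = a
    · refine ⟨r, s, hrs, key r s hrs ?_ ?_⟩
      · rw [← hq]; exact h3.symm
      · rw [← hq]; exact h4.symm
    · exact ⟨p, q, hpq, key p q hpq hp hq⟩

/-- PROOF: induction on `card W + number of edges` (or `card W`, inside it the number of edges). `card W = 3`: there is
no nontrivial cut, so `z = 0` for `m ≠ 0`. `card W ≥ 4`: if some vertex `b` has exactly one neighbour `a`: `Two G` gives
an edge without `a`, `b` (of two disjoint edges at most one contains `a`, and `b` only lies in `ab`): `bnd_pendant`.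
Otherwise all vertices have two neighbours (connected, so no vertex without neighbour): `exists_edge`, `bnd_TX`,
`bnd_step` and the induction hypothesis for `del G a b` (same vertices, fewer edges) and `contr G a b` (one vertex less,
`m' ≠ card W - 4`). -/
theorem bnd_TT (n : ℕ) : ∀ (W : Type) [Fintype W] [DecidableEq W] (G : SimpleGraph W), Fintype.card W = n → 3 ≤ n →
    G.Connected → (4 ≤ n → Two G) → ∀ m, m + 3 ≠ n → Bnd m (TT G) := by
  induction n with
  | zero => intro W _ _ G _ h3; omega
  | succ n ih =>
    have key : ∀ k : ℕ, ∀ (W : Type) [Fintype W] [DecidableEq W] (G : SimpleGraph W),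
        {p : W × W | G.Adj p.1 p.2}.ncard = k → Fintype.card W = n + 1 → 3 ≤ n + 1 →
        G.Connected → (4 ≤ n + 1 → Two G) → ∀ m, m + 3 ≠ n + 1 → Bnd m (TT G) := by
      intro k
      induction k using Nat.strong_induction_on with
      | _ k ihk =>
        intro W _ _ G hk hW h3 hc h2 m hm
        by_cases h4 : 4 ≤ n + 1
        · by_cases hp : ∃ b a, ∀ v, G.Adj b v ↔ v = a
          · obtain ⟨b, a, hab⟩ := hp
            exact bnd_pendant hab (t4_two (h2 h4) hab) m
          · have hnt : Nontrivial W := by
              rw [← Fintype.one_lt_card_iff_nontrivial]; omega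
            have hdeg : ∀ v, ∃ x y, x ≠ y ∧ G.Adj v x ∧ G.Adj v y := by
              intro v
              obtain ⟨x, hx⟩ := hc.preconnected.exists_adj_of_nontrivial v
              by_contra hcon
              refine hp ⟨v, x, fun w => ⟨fun hw => ?_, fun hw => hw ▸ hx⟩⟩
              by_contra hne
              exact hcon ⟨w, x, hne, hw, hx⟩
            obtain ⟨a, b, hab, hd, hd2, hc2⟩ := exists_edge hc (by omega) hdeg
            refine bnd_TX hab (bnd_step hab ?_ ?_)
            · refine ihk _ ?_ W (del G a b) rfl hW h3 hd (fun _ => hd2) m hm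
              rw [← hk]
              refine Set.ncard_lt_ncard ?_ (Set.toFinite _)
              refine ⟨fun p hp => hp.1, fun hsub => ?_⟩
              have h5 : (a, b) ∈ {p : W × W | (del G a b).Adj p.1 p.2} := hsub hab
              exact h5.2.1 ⟨rfl, rfl⟩
            · intro m' hm'
              refine ih {w : W // w ≠ b} (contr G a b) ?_ (by omega) (contr_connected hc hab) ?_ m'
                (by omega)
              · rw [Fintype.card_subtype_compl, Fintype.card_subtype_eq, hW]; omega
              · intro h5
                exact hc2 (by omega)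
        · exact t4_base G (by omega) m (by omega)
    intro W _ _ G hW h3 hc h2 m hm
    exact key _ W G rfl hW h3 hc h2 m hm

end H85J
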