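import Pool.Agent.Lib.H85J.L1
import Pool.Agent.Lib.H85J.R4
import Pool.Agent.Lib.H85J.S1
import Pool.Agent.Lib.H85J.T4

/-! # H85J, chunk L2: the homology of `Low G` -/

set_option autoImplicit false

namespace H85J

open Finset H98P H63F H96H

variable {V : Type} [Fintype V] [DecidableEq V]

theorem dn_low (G : SimpleGraph V) : Dn (Low G) := by
  intro s t hst ht
  obtain ⟨⟨h1, h2, h3⟩, h4, ⟨v, h5, h6⟩, h7⟩ := ht
  refine ⟨⟨fun S S' hS hS' => h1 S S' (hst hS) (hst hS'),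
    fun v hv => h2 v ⟨hst hv.1, hst hv.2⟩, fun b => ?_⟩, fun S hS => h4 S (hst hS),
    ⟨v, fun h => h5 (hst h), ?_⟩, fun S hS => ⟨fun h => ?_, fun h => ?_⟩⟩
  · obtain ⟨w, hw⟩ := h3 b
    exact ⟨w, fun h => hw (hst h)⟩
  · rintro ⟨S, hS, h⟩
    exact h6 ⟨S, hst hS, h⟩
  · obtain ⟨w, hw, hw'⟩ := (h7 S (hst hS)).1 h
    exact ⟨w, hw, fun h' => hw' (hst h')⟩
  · obtain ⟨w, hw, hw'⟩ := (h7 S (hst hS)).2 h
    exact ⟨w, hw, fun h' => hw' (hst h')⟩

private theorem l2_mem_ct {T : Finset (St V)} {S : NCut V} : S ∈ ct T ↔ (Sum.inr S : St V) ∈ T := by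
  unfold ct
  rw [mem_filter]
  exact ⟨fun h => h.2, fun h => ⟨mem_univ S, h⟩⟩

private theorem l2_dnTT (G : SimpleGraph V) : Dn (TT G) := fun _ _ hst ht =>
  ⟨fun S hS => ht.1 S (hst hS), fun S hS S' hS' => ht.2 S (hst hS) S' (hst hS')⟩

/-- PROOF: `bnd_fib` with `C = cuts`, `H = HS G` (`ac_fib`, `dn_low`); the part with `¬ HS G (T ∩ cuts)` is
`bnd_join` for `Y = TT G` (`LL T` = cuts do not cross, `Cons T`, not all `v±`; the conditions of `Low` are then the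
ones of `LL`), `k = card V - 3` by `bnd_TT`; `m + 1 ≠ (card V - 3) + card V`. -/
theorem bnd_low (hV : 4 ≤ Fintype.card V) {G : SimpleGraph V} (hc : G.Connected) (h2 : Two G) {m : ℕ}
    (hm : m + 4 ≠ 2 * Fintype.card V) : Bnd m (Low G) := by
  have hne : Nonempty V := Fintype.card_pos_iff.1 (by omega)
  have hmono : ∀ F F' : Finset (St V), F ⊆ F' → HS G F → HS G F' := by
    rintro F F' hFF ⟨S, hS, h⟩
    exact ⟨S, hFF hS, h⟩
  refine bnd_fib (dn_low G) cuts (HS G) hmono ?_ fun F hF hX hH => ac_fib hF hX hH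
  have hTT : ∀ k, k ≠ Fintype.card V - 3 → Bnd k (TT G) := fun k hk =>
    bnd_TT (Fintype.card V) V G rfl (by omega) hc (fun _ => h2) k (by omega)
  have key := bnd_join (l2_dnTT G) hTT m (by omega)
  refine bnd_congr (fun T => ?_) key
  constructor
  · rintro ⟨hcons, hall, hT⟩
    have hns : ∀ S : NCut V, (Sum.inr S : St V) ∈ T → Ns G S.1 ∧ Ns G (univ \ S.1) :=
      fun S hS => hT.1 S (l2_mem_ct.2 hS)
    refine ⟨⟨⟨fun S S' hS hS' => hT.2 S (l2_mem_ct.2 hS) S' (l2_mem_ct.2 hS'), hcons, hall⟩,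
      fun S hS => Or.inl (hns S hS).1, ?_, fun S hS => ⟨fun h => absurd (hns S hS).1 h,
        fun h => absurd (hns S hS).2 h⟩⟩, ?_⟩
    · obtain ⟨v, hv⟩ := hall true
      refine ⟨v, hv, ?_⟩
      rintro ⟨S, hS, h | h⟩
      · exact h.1 (hns S hS).1
      · exact h.1 (hns S hS).2
    · rintro ⟨S, hS, h | h⟩
      · exact h (hns S (mem_inter.1 hS).1).1
      · exact h (hns S (mem_inter.1 hS).1).2
  · rintro ⟨⟨⟨h1, h3, h4⟩, _, _, _⟩, hHS⟩
    refine ⟨h3, h4, ⟨fun S hS => ?_, fun S hS S' hS' => h1 S S' (l2_mem_ct.1 hS) (l2_mem_ct.1 hS')⟩⟩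
    have hS1 : (Sum.inr S : St V) ∈ T ∩ cuts :=
      mem_inter.2 ⟨l2_mem_ct.1 hS, mem_image.2 ⟨S, mem_univ _, rfl⟩⟩
    constructor
    · by_contra h
      exact hHS ⟨S, hS1, Or.inl h⟩
    · by_contra h
      exact hHS ⟨S, hS1, Or.inr h⟩

end H85J
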