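import Pool.Agent.Lib.H85J.A0
import Pool.Agent.Lib.H85J.E1
import Pool.Agent.Lib.H85J.E2
import Pool.Agent.Lib.H85J.L2
import Pool.Agent.Lib.H85J.M2
import Pool.Agent.Lib.H96H.H

/-! # H85J, chunk A: Theorem J -/

set_option autoImplicit false

namespace H85J

open Finset H98P H98Z H98M H63F H96H

variable {V : Type} [Fintype V] [DecidableEq V]

private theorem a_ns {G G' : SimpleGraph V} (h : G ≤ G') {S : Finset V} (hS : Ns G S) : Ns G' S := by
  obtain ⟨u, hu, v, hv, huv⟩ := hS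
  exact ⟨u, hu, v, hv, h huv⟩

theorem low_mono {G G' : SimpleGraph V} (h : G ≤ G') {T : Finset (St V)} (hT : Low G T) : Low G' T := by
  obtain ⟨h1, h2, ⟨v, hv, hc⟩, h4⟩ := hT
  refine ⟨h1, fun S hS => (h2 S hS).imp (a_ns h) (a_ns h), ⟨v, hv, ?_⟩, fun S hS => ⟨fun h5 => ?_, fun h5 => ?_⟩⟩
  · rintro ⟨S, hS, h5⟩
    refine hc ⟨S, hS, ?_⟩
    rcases h5 with ⟨h6, h7⟩ | ⟨h6, h7⟩
    · exact Or.inl ⟨fun h8 => h6 (a_ns h h8), h7⟩
    · exact Or.inr ⟨fun h8 => h6 (a_ns h h8), h7⟩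
  · exact (h4 S hS).1 fun h8 => h5 (a_ns h h8)
  · exact (h4 S hS).2 fun h8 => h5 (a_ns h h8)

private theorem a_gg {G G' : Finset (Sym2 V)} (h : G ⊆ G') : gg G ≤ gg G' :=
  SimpleGraph.fromEdgeSet_mono (Finset.coe_subset.2 h)

private theorem a_sx {G G' : Finset (Sym2 V)} (h : G ⊆ G') {x : Sym2 V → ℝ} (hx : x ∈ Sx G) : x ∈ Sx G' :=
  ⟨hx.1, fun e he => hx.2.1 e fun h1 => he (h h1), hx.2.2⟩

private theorem a_ne {G : Finset (Sym2 V)} (h : G.Nonempty) : (Sx G).Nonempty := by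
  obtain ⟨a, ha⟩ := h
  refine ⟨Pi.single a 1, ?_, ?_, ?_⟩
  · intro e
    by_cases he : e = a
    · subst he
      rw [Pi.single_eq_same]
      exact zero_le_one
    · rw [Pi.single_eq_of_ne he]
  · intro e he
    exact Pi.single_eq_of_ne (fun h => he (by rw [h]; exact ha)) _
  · rw [Finset.sum_pi_single']
    simp

private theorem a_dnK (cross : Sym2 V → Sym2 V → Prop) : Dn (KK cross) := by
  intro s t hst ht
  refine ⟨?_, fun v hv => ht.2 v (hst hv)⟩
  intro e he f hf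
  exact ht.1 e (hst he) f (hst hf)

private theorem a_dnL : Dn (fun T : Finset (St V) => LL T) := by
  intro s t hst ht
  refine ⟨fun S S' h h' => ht.1 S S' (hst h) (hst h'), fun v hv => ht.2.1 v ⟨hst hv.1, hst hv.2⟩, fun b => ?_⟩
  obtain ⟨v, hv⟩ := ht.2.2 b
  exact ⟨v, fun h => hv (hst h)⟩

/-- PROOF: suppose not. `minimaxJ` with `p = pp`, `K = KK cross`, `L = LL` and `Γ G T` = (`Gd G` and `Low (gg G) T`) or
(`¬ Gd G` and `LL T ∧ ∃ x ∈ Sx G, Amin pp 0 x T`), where `Gd G := ∃ x ∈ Sx G, Good x`. Monotone: good in good: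
`Low` is monotone in the graph; not good in good: `low_of` (an equilibrium `μ` with `t` is one with `s`, against
`no_equilibrium`). `hac`: `G` good, `G.card + 3 ≠ 2 n`: `bnd_low` (`good_graph`); `G` not good: `ac_min`, `hyp_a`,
`bnd_of_ac`. The conclusion contradicts `no_low` resp. `no_equilibrium`. -/
theorem exists_good_card (hV : 4 ≤ Fintype.card V) {cross : Sym2 V → Sym2 V → Prop}
    (hsymm : ∀ e f, cross e f → cross f e) (hHD : ∀ W : Finset V, HD cross W) :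
    ∃ G : Finset (Sym2 V), KK cross G ∧ G.card + 3 = 2 * Fintype.card V ∧ ∃ x ∈ Sx G, Good x := by
  classical
  by_contra hng
  have hng' : ∀ G : Finset (Sym2 V), KK cross G → (∃ x ∈ Sx G, Good x) → G.card + 3 ≠ 2 * Fintype.card V :=
    fun G h1 h2 h3 => hng ⟨G, h1, h3, h2⟩
  have hne : Nonempty V := by
    rw [← Fintype.card_pos_iff]
    omega
  have hs2 : Nonempty (Sym2 V) := ⟨s(hne.some, hne.some)⟩
  have hK0 : KK cross (∅ : Finset (Sym2 V)) := by
    refine ⟨?_, fun v hv => absurd hv (Finset.notMem_empty _)⟩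
    intro e he
    exact absurd he (Finset.notMem_empty _)
  have hL0 : LL (∅ : Finset (St V)) := by
    refine ⟨fun S S' h => absurd h (Finset.notMem_empty _), fun v hv => absurd hv.1 (Finset.notMem_empty _), fun b => ?_⟩
    exact ⟨hne.some, Finset.notMem_empty _⟩
  obtain ⟨G, hGne, hGK, T, hΓ, μ, hμ, hmax⟩ := minimaxJ (pp : Sym2 V → St V → ℝ) (KK cross)
    (fun T : Finset (St V) => LL T)
    (fun G T => ((∃ x ∈ Sx G, Good x) → Low (gg G) T) ∧
      (¬ (∃ x ∈ Sx G, Good x) → LL T ∧ ∃ x ∈ Sx G, Amin pp (fun _ => 0) x T))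
    (a_dnK cross) a_dnL hK0 (ac_KK hV hsymm hHD)
    (by
      intro s t hst hKt hs r hr
      refine ⟨fun hgt => ?_, fun hgt => ?_⟩
      · by_cases hgs : ∃ x ∈ Sx s, Good x
        · exact low_mono (a_gg hst) (hr.1 hgs)
        · obtain ⟨h1, x, hx, h2⟩ := hr.2 hgs
          refine low_of hV hKt.2 h1 fun μ hμ hmax => ?_
          exact no_equilibrium hV (fun v hv => hKt.2 v (hst hv)) hx h1 h2 hμ fun e he => hmax e (hst he)
      · have hgs : ¬ ∃ x ∈ Sx s, Good x := by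
          rintro ⟨x, hx, hg⟩
          exact hgt ⟨x, a_sx hst hx, hg⟩
        obtain ⟨h1, x, hx, h2⟩ := hr.2 hgs
        exact ⟨h1, x, a_sx hst hx, h2⟩)
    (by
      intro s hKs hs
      refine ⟨fun _ => ⟨hL0, fun S hS => absurd hS (Finset.notMem_empty _), ⟨hne.some, Finset.notMem_empty _, ?_⟩,
        fun S hS => absurd hS (Finset.notMem_empty _)⟩, fun _ => ⟨hL0, ?_⟩⟩
      · rintro ⟨S, hS, _⟩
        exact absurd hS (Finset.notMem_empty _)
      · obtain ⟨x, hx⟩ := a_ne hs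
        exact ⟨x, hx, fun S hS => absurd hS (Finset.notMem_empty _)⟩)
    (by
      intro s r hr
      by_cases hgs : ∃ x ∈ Sx s, Good x
      · exact (hr.1 hgs).1
      · exact (hr.2 hgs).1)
    (by
      intro s hKs hs
      by_cases hgs : ∃ x ∈ Sx s, Good x
      · have h1 := hng' s hKs hgs
        have h2 := Finset.card_pos.2 hs
        obtain ⟨x, hx, hg⟩ := hgs
        obtain ⟨h3, h4⟩ := good_graph hV hKs.2 hx hg
        refine bnd_congr (fun T => ?_) (bnd_low hV h3 h4 (m := s.card - 1) (by omega))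
        exact ⟨fun h5 => ⟨fun _ => h5, fun h6 => absurd ⟨x, hx, hg⟩ h6⟩, fun h5 => h5.1 ⟨x, hx, hg⟩⟩
      · refine bnd_congr (fun T => ?_) (bnd_of_ac (ac_min pp (fun _ => 0) (fun T : Finset (St V) => LL T) a_dnL hL0 hs
          fun x hx => hyp_a hV hx.1 hx.2.2 (fun v => hx.2.1 _ (hKs.2 v)) fun hg => hgs ⟨x, hx, hg⟩))
        exact ⟨fun h5 => ⟨fun h6 => absurd h6 hgs, fun _ => h5⟩, fun h5 => h5.2 hgs⟩)
    (fun T hT μ hμ => hyp_b hV hsymm hHD hT hμ)
  by_cases hgs : ∃ x ∈ Sx G, Good x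
  · obtain ⟨x, hx, hg⟩ := hgs
    obtain ⟨h3, h4⟩ := good_graph hV hGK.2 hx hg
    exact no_low hV hGK.2 h3 h4 (hΓ.1 ⟨x, hx, hg⟩) hμ hmax
  · obtain ⟨h1, x, hx, h2⟩ := hΓ.2 hgs
    exact no_equilibrium hV hGK.2 hx h1 h2 hμ hmax

private theorem a_smul (x : Sym2 V → ℝ) (c : ℝ) (S : Finset V) : cutw (fun e => c * x e) S = c * cutw x S := by
  unfold cutw
  rw [Finset.mul_sum]
  refine Finset.sum_congr rfl fun e _ => ?_
  ring

/-- THEOREM J. PROOF: `exists_good_card`, `y = n x` as in `H96H.theoremH`. -/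
theorem theoremJ (hV : 4 ≤ Fintype.card V) {cross : Sym2 V → Sym2 V → Prop}
    (hsymm : ∀ e f, cross e f → cross f e) (hHD : ∀ W : Finset V, HD cross W) :
    ∃ (G : Finset (Sym2 V)) (y : Sym2 V → ℝ), Plane cross G ∧ G.card + 3 = 2 * Fintype.card V ∧ FracHam G y ∧
      ((∀ e, y e = 0 ∨ y e = 1) ∨
        ∀ S : Finset V, 2 ≤ S.card → 2 ≤ (univ \ S).card → 2 < cutw y S) := by
  classical
  obtain ⟨G, hG, hcard, x, hx, hgood⟩ := exists_good_card hV hsymm hHD
  have hn : (0 : ℝ) < (Fintype.card V : ℝ) := by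
    have h4 : (4 : ℝ) ≤ (Fintype.card V : ℝ) := by exact_mod_cast hV
    linarith
  have hn2 : (Fintype.card V : ℝ) * (2 / (Fintype.card V : ℝ)) = 2 := by
    field_simp
  have hn1 : (Fintype.card V : ℝ) * (1 / (Fintype.card V : ℝ)) = 1 := by
    field_simp
  refine ⟨G, fun e => (Fintype.card V : ℝ) * x e, hG.1, hcard, ⟨fun e => mul_nonneg hn.le (hx.1 e), ?_, hG.2, ?_, ?_⟩, ?_⟩
  · intro e he
    show (Fintype.card V : ℝ) * x e = 0
    rw [hx.2.1 e he, mul_zero]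
  · intro v
    rw [a_smul, hgood.1 v, hn2]
  · intro S hS hS'
    rw [a_smul]
    calc (2 : ℝ) = (Fintype.card V : ℝ) * (2 / (Fintype.card V : ℝ)) := hn2.symm
      _ ≤ _ := mul_le_mul_of_nonneg_left (hgood.2.1 S hS hS') hn.le
  · rcases hgood.2.2 with h | h
    · left
      intro e
      rcases h e with h0 | h0
      · left
        show (Fintype.card V : ℝ) * x e = 0
        rw [h0, mul_zero]
      · right
        show (Fintype.card V : ℝ) * x e = 1
        rw [h0, hn1]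
    · right
      intro S hS hS'
      rw [a_smul]
      calc (2 : ℝ) = (Fintype.card V : ℝ) * (2 / (Fintype.card V : ℝ)) := hn2.symm
        _ < _ := mul_lt_mul_of_pos_left (h ⟨S, hS, hS'⟩) hn

end H85J
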