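import Pool.Agent.Lib.H85J.G1

/-! # H85J, chunk A0: supports of good points are connected and not stars -/

set_option autoImplicit false

namespace H85J

open Finset H98P H63F H96H

variable {V : Type*} [Fintype V] [DecidableEq V]

omit [Fintype V] [DecidableEq V] in
private theorem a0_adj {G : Finset (Sym2 V)} {a b : V} : (gg G).Adj a b ↔ s(a, b) ∈ G ∧ a ≠ b := by
  unfold gg
  rw [SimpleGraph.fromEdgeSet_adj]
  exact Iff.rfl

/-- PROOF: all cuts of `x` have value `≥ 2/n > 0`, so no union of components is proper (compare
`H63F.connected_of_cuts` in H63F/W1.lean). If `gg G` has no two disjoint edges it is a star with centre `z` (`star_of`);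
then `cutw x {z} = ∑ x e = 1 ≠ 2/n`. -/
theorem good_graph (hV : 4 ≤ Fintype.card V) {G : Finset (Sym2 V)} (hG : ∀ v, s(v, v) ∉ G) {x : Sym2 V → ℝ}
    (hx : x ∈ Sx G) (hg : Good x) : (gg G).Connected ∧ Two (gg G) := by
  classical
  have hn : (4 : ℝ) ≤ (Fintype.card V : ℝ) := by exact_mod_cast hV
  have hn0 : (0 : ℝ) < (Fintype.card V : ℝ) := by linarith
  have hpos : (0 : ℝ) < 2 / (Fintype.card V : ℝ) := by positivity
  have hne : Nonempty V := Fintype.card_pos_iff.1 (by omega)
  have hconn : (gg G).Connected := by
    refine ⟨?_⟩
    intro u v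
    by_contra huv
    have hS1 : (univ.filter fun w => (gg G).Reachable u w).Nonempty :=
      ⟨u, mem_filter.2 ⟨mem_univ u, SimpleGraph.Reachable.refl u⟩⟩
    have hS2 : (univ.filter fun w => (gg G).Reachable u w) ≠ univ := by
      intro h
      have h1 : v ∈ univ.filter fun w => (gg G).Reachable u w := by
        rw [h]
        exact mem_univ v
      exact huv (mem_filter.1 h1).2
    have h1 := hg.2.1 _ hS1 hS2
    have h2 : cutw x (univ.filter fun w => (gg G).Reachable u w) = 0 := by
      unfold cutw
      apply Finset.sum_eq_zero
      intro e _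
      unfold px
      split_ifs with h3
      · obtain ⟨a, ha, b, hb, rfl⟩ := h3
        have h4 : s(a, b) ∉ G := by
          intro h5
          apply hb
          have hab : a ≠ b := by
            rintro rfl
            exact hb ha
          exact mem_filter.2 ⟨mem_univ b, ((mem_filter.1 ha).2).trans (a0_adj.2 ⟨h5, hab⟩).reachable⟩
        rw [hx.2.1 _ h4, zero_mul]
      · rw [mul_zero]
    rw [h2] at h1
    linarith
  refine ⟨hconn, ?_⟩
  by_contra hT
  obtain ⟨z, hz⟩ := star_of hconn hV hT
  have h1 : cutw x {z} = 1 := by
    rw [← hx.2.2]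
    unfold cutw
    refine Finset.sum_congr rfl fun e _ => ?_
    by_cases he : e ∈ G
    · have h2 : px e ({z} : Finset V) = 1 := by
        unfold px
        apply if_pos
        induction e with
        | _ a b =>
          have hab : a ≠ b := by
            rintro rfl
            exact hG a he
          rcases hz a b (a0_adj.2 ⟨he, hab⟩) with h3 | h3
          · refine ⟨a, mem_singleton.2 h3, b, ?_, rfl⟩
            rw [mem_singleton, ← h3]
            exact fun h4 => hab h4.symm
          · refine ⟨b, mem_singleton.2 h3, a, ?_, Sym2.eq_swap⟩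
            rw [mem_singleton, ← h3]
            exact hab
      rw [h2, mul_one]
    · rw [hx.2.1 _ he, zero_mul]
  rw [hg.1 z] at h1
  have h2 : (2 : ℝ) = (Fintype.card V : ℝ) := by
    field_simp at h1
    linarith
  linarith

end H85J
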