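import Pool.Agent.Lib.H96H.D

/-!
# H85J, file D: definitions for Theorem J (Theorem H with exactly `2n - 3` edges), see PROOF.md
-/

set_option autoImplicit false

namespace H85J

open Finset H98P H63F H96H

/-- Every cycle of sets of cardinality `m` in `K` is a boundary in `K`. -/
def Bnd {E : Type*} [Fintype E] [DecidableEq E] (m : ℕ) (K : Finset E → Prop) : Prop :=
  ∀ z : Finset E → ZMod 2, (∀ s, z s ≠ 0 → K s ∧ s.card = m) → (∀ r, bd z r = 0) →
    ∃ c : Finset E → ZMod 2, (∀ s, c s ≠ 0 → K s) ∧ ∀ r, bd c r = z r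

/-- `S` contains an edge of `G`. -/
def Ns {W : Type*} (G : SimpleGraph W) (S : Finset W) : Prop :=
  ∃ u ∈ S, ∃ v ∈ S, G.Adj u v

/-- The families of pairwise non-crossing nontrivial cuts with an edge of `G` on both sides. -/
def TT {W : Type*} [Fintype W] [DecidableEq W] (G : SimpleGraph W) (F : Finset (NCut W)) : Prop :=
  (∀ S ∈ F, Ns G S.1 ∧ Ns G (univ \ S.1)) ∧ ∀ S ∈ F, ∀ S' ∈ F, NonX S.1 S'.1

/-- `G` has two disjoint edges. -/
def Two {W : Type*} (G : SimpleGraph W) : Prop :=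
  ∃ a b c d, G.Adj a b ∧ G.Adj c d ∧ a ≠ c ∧ a ≠ d ∧ b ≠ c ∧ b ≠ d

/-- `G` without the edge `ab`. -/
def del {W : Type*} (G : SimpleGraph W) (a b : W) : SimpleGraph W where
  Adj x y := G.Adj x y ∧ ¬ (x = a ∧ y = b) ∧ ¬ (x = b ∧ y = a)
  symm := ⟨fun _ _ h => ⟨h.1.symm, fun h1 => h.2.2 ⟨h1.2, h1.1⟩, fun h1 => h.2.1 ⟨h1.2, h1.1⟩⟩⟩
  loopless := ⟨fun x h => G.loopless.irrefl x h.1⟩

/-- The contraction of `b` into `a` (simple graph on the vertices `≠ b`). -/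
def contr {W : Type*} (G : SimpleGraph W) (a b : W) : SimpleGraph {w : W // w ≠ b} where
  Adj x y := x ≠ y ∧ (G.Adj x.1 y.1 ∨ (x.1 = a ∧ G.Adj b y.1) ∨ (y.1 = a ∧ G.Adj b x.1))
  symm := ⟨fun _ _ h => ⟨h.1.symm, h.2.elim (fun h1 => Or.inl h1.symm)
    fun h1 => h1.elim (fun h2 => Or.inr (Or.inr h2)) fun h2 => Or.inr (Or.inl h2)⟩⟩
  loopless := ⟨fun _ h => h.1 rfl⟩

/-- The graph of a set of edges. -/
def gg {V : Type*} (G : Finset (Sym2 V)) : SimpleGraph V :=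
  SimpleGraph.fromEdgeSet (G : Set (Sym2 V))

/-- The cuts of a family of strategies. -/
def ct {V : Type*} [Fintype V] [DecidableEq V] (T : Finset (St V)) : Finset (NCut V) :=
  univ.filter fun S : NCut V => (Sum.inr S : St V) ∈ T

/-- Never `v+` and `v-`. -/
def Cons {V : Type*} [Fintype V] [DecidableEq V] (T : Finset (St V)) : Prop :=
  ∀ v : V, ¬ ((Sum.inl (v, true) : St V) ∈ T ∧ (Sum.inl (v, false) : St V) ∈ T)

/-- `v` is in a side without edges of `G` of some cut of `T`. -/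
def Cov {V : Type*} [Fintype V] [DecidableEq V] (G : SimpleGraph V) (T : Finset (St V)) (v : V) : Prop :=
  ∃ S : NCut V, (Sum.inr S : St V) ∈ T ∧ ((¬ Ns G S.1 ∧ v ∈ S.1) ∨ (¬ Ns G (univ \ S.1) ∧ v ∉ S.1))

/-- The families of strategies without equilibrium with `G` (explicit form): every cut has a side with an edge, some
uncovered vertex `v` has `v+ ∉ T`, and a side without edges contains a vertex `v` with `v- ∉ T`. -/
def Low {V : Type*} [Fintype V] [DecidableEq V] (G : SimpleGraph V) (T : Finset (St V)) : Prop :=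
  LL T ∧ (∀ S : NCut V, (Sum.inr S : St V) ∈ T → Ns G S.1 ∨ Ns G (univ \ S.1)) ∧
  (∃ v : V, (Sum.inl (v, true) : St V) ∉ T ∧ ¬ Cov G T v) ∧
  ∀ S : NCut V, (Sum.inr S : St V) ∈ T →
    (¬ Ns G S.1 → ∃ v ∈ S.1, (Sum.inl (v, false) : St V) ∉ T) ∧
    (¬ Ns G (univ \ S.1) → ∃ v ∉ S.1, (Sum.inl (v, false) : St V) ∉ T)

end H85J
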