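import Pool.Agent.Lib.H85J.D

/-! # H85J, chunk G1: connected graphs without two disjoint edges are stars -/

set_option autoImplicit false

namespace H85J

open Finset

variable {W : Type*} [Fintype W] [DecidableEq W]

/-- PROOF: take an edge `ab`. If all edges contain `a` or all contain `b`: done. Otherwise there are edges `bc`, `c ≠ a`,
not containing `a`, and `ad`, `d ≠ b`, not containing `b`; not disjoint, so `c = d`: triangle `abc`. A fourth vertex is
reached by an edge leaving `{a, b, c}`, e.g. `aw`, disjoint from `bc`: contradiction. -/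
theorem star_of {G : SimpleGraph W} (hc : G.Connected) (h4 : 4 ≤ Fintype.card W) (h : ¬ Two G) :
    ∃ z, ∀ u v, G.Adj u v → u = z ∨ v = z := by
  by_contra hcon
  push Not at hcon
  have h' : ∀ a b c d, G.Adj a b → G.Adj c d → a = c ∨ a = d ∨ b = c ∨ b = d := by
    intro a b c d h1 h2
    by_contra h3
    push Not at h3
    exact h ⟨a, b, c, d, h1, h2, h3.1, h3.2.1, h3.2.2.1, h3.2.2.2⟩
  have hW : Nonempty W := Fintype.card_pos_iff.1 (by omega)
  obtain ⟨w0⟩ := hW
  obtain ⟨a, b, hab, -, -⟩ := hcon w0
  have key : ∀ a b, G.Adj a b → ∃ c, G.Adj b c ∧ c ≠ a := by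
    intro a b hab
    obtain ⟨u, v, huv, h1, h2⟩ := hcon a
    rcases h' a b u v hab huv with h3 | h3 | h3 | h3
    · exact absurd h3.symm h1
    · exact absurd h3.symm h2
    · subst h3
      exact ⟨v, huv, h2⟩
    · subst h3
      exact ⟨u, huv.symm, h1⟩
  obtain ⟨c, hbc, hca⟩ := key a b hab
  obtain ⟨d, had, hdb⟩ := key b a hab.symm
  have hcd : c = d := by
    rcases h' b c a d hbc had with h3 | h3 | h3 | h3
    · exact absurd h3 hab.ne'
    · exact absurd h3.symm hdb
    · exact absurd h3 hca
    · exact h3
  subst hcd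
  obtain ⟨w, hw⟩ : ∃ w, w ∉ ({a, b, c} : Finset W) := by
    by_contra hall
    push Not at hall
    have h5 : Fintype.card W ≤ ({a, b, c} : Finset W).card := by
      rw [← Finset.card_univ]
      exact Finset.card_le_card fun x _ => hall x
    have h6 : ({a, b, c} : Finset W).card ≤ 3 := Finset.card_le_three
    omega
  obtain ⟨p⟩ := hc.preconnected a w
  obtain ⟨e, -, he1, he2⟩ := p.exists_boundary_dart {x | x ∈ ({a, b, c} : Finset W)}
    (by show a ∈ ({a, b, c} : Finset W); simp) hw
  have he1' : e.fst ∈ ({a, b, c} : Finset W) := he1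
  have he2' : e.snd ∉ ({a, b, c} : Finset W) := he2
  have hadj : G.Adj e.fst e.snd := e.adj
  simp only [mem_insert, mem_singleton, not_or] at he1' he2'
  obtain ⟨ha, hb, hc'⟩ := he2'
  rcases he1' with h7 | h7 | h7
  · rw [h7] at hadj
    rcases h' a e.snd b c hadj hbc with h8 | h8 | h8 | h8
    · exact hab.ne h8
    · exact hca h8.symm
    · exact hb h8
    · exact hc' h8
  · rw [h7] at hadj
    rcases h' b e.snd a c hadj had with h8 | h8 | h8 | h8
    · exact hab.ne' h8
    · exact hdb h8.symm
    · exact ha h8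
    · exact hc' h8
  · rw [h7] at hadj
    rcases h' c e.snd a b hadj hab with h8 | h8 | h8 | h8
    · exact hca h8
    · exact hdb h8
    · exact ha h8
    · exact hb h8

end H85J
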