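import Pool.Agent.Lib.H85J.Z

/-! # H85J, chunk L1: the fibres over families with a cut with a side without edges -/

set_option autoImplicit false

namespace H85J

open Finset H98P H63F H96H

variable {V : Type*} [Fintype V] [DecidableEq V]

/-- The cut strategies. -/
def cuts : Finset (St V) := univ.image (Sum.inr : NCut V → St V)

/-- `F` has a cut with a side without edges. -/
def HS (G : SimpleGraph V) (F : Finset (St V)) : Prop :=
  ∃ S : NCut V, (Sum.inr S : St V) ∈ F ∧ (¬ Ns G S.1 ∨ ¬ Ns G (univ \ S.1))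

private theorem l1_inr (S : NCut V) : (Sum.inr S : St V) ∈ (cuts : Finset (St V)) :=
  mem_image.2 ⟨S, mem_univ _, rfl⟩

private theorem l1_inl (p : V × Bool) : (Sum.inl p : St V) ∉ (cuts : Finset (St V)) := by
  intro h
  obtain ⟨S, _, hS⟩ := mem_image.1 h
  exact absurd hS (by simp)

private theorem l1_sv_inl {O : Finset V} {v : V} {b : Bool} (h : (Sum.inl (v, b) : St V) ∈ sv O) :
    v ∈ O := by
  unfold sv at h
  obtain ⟨u, hu, h1⟩ := mem_biUnion.1 h
  rw [mem_insert, mem_singleton] at h1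
  rcases h1 with h1 | h1
  · have h2 := Prod.mk.inj (Sum.inl.inj h1)
    rw [h2.1]
    exact hu
  · have h2 := Prod.mk.inj (Sum.inl.inj h1)
    rw [h2.1]
    exact hu

private theorem l1_sv_inr {O : Finset V} {S : NCut V} : (Sum.inr S : St V) ∉ sv O := by
  intro h
  unfold sv at h
  obtain ⟨u, hu, h1⟩ := mem_biUnion.1 h
  rw [mem_insert, mem_singleton] at h1
  rcases h1 with h1 | h1
  · exact absurd h1 (by simp)
  · exact absurd h1 (by simp)

/-- PROOF: `O` = the vertices not covered by `F` (`¬ Cov G F v`), `ac_facet true O` with `Ψ A` = `A` contains no cut, no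
`v+` together with `v-`, and for every side of a cut of `F` without edges of `G` some `v` of it has `v- ∉ A` (these sides
are disjoint from `O`; `not all v+` and `not all v-` in `LL (A ∪ F)` follow: some `v ∈ O` has `v+ ∉ A`, and `F` has a side
without edges). -/
theorem ac_fib {G : SimpleGraph V} {F : Finset (St V)} (hFc : F ⊆ cuts) (hF : Low G F) (hS : HS G F) :
    AC fun A : Finset (St V) => Disjoint A cuts ∧ Low G (A ∪ F) := by
  classical
  set O : Finset V := univ.filter fun v => ¬ Cov G F v with hO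
  have mO : ∀ v, v ∈ O ↔ ¬ Cov G F v := fun v => by
    rw [hO, mem_filter]
    exact ⟨fun h => h.2, fun h => ⟨mem_univ v, h⟩⟩
  have hΨ : Dn fun A : Finset (St V) => Disjoint A cuts ∧ Cons A ∧
      ∀ S : NCut V, (Sum.inr S : St V) ∈ F →
        (¬ Ns G S.1 → ∃ v ∈ S.1, (Sum.inl (v, false) : St V) ∉ A) ∧
        (¬ Ns G (univ \ S.1) → ∃ v ∉ S.1, (Sum.inl (v, false) : St V) ∉ A) := by
    intro s t hst ht
    refine ⟨ht.1.mono_left hst, fun v hv => ht.2.1 v ⟨hst hv.1, hst hv.2⟩,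
      fun S hSF => ⟨fun h => ?_, fun h => ?_⟩⟩
    · obtain ⟨v, hv, hv'⟩ := (ht.2.2 S hSF).1 h
      exact ⟨v, hv, fun h' => hv' (hst h')⟩
    · obtain ⟨v, hv, hv'⟩ := (ht.2.2 S hSF).2 h
      exact ⟨v, hv, fun h' => hv' (hst h')⟩
  have key := ac_facet true O hΨ
  have hvF : ∀ p : V × Bool, (Sum.inl p : St V) ∉ F := fun p h => l1_inl p (hFc h)
  have hcov : ∀ A : Finset (St V), Disjoint A cuts → ∀ v, Cov G (A ∪ F) v ↔ Cov G F v := by
    intro A hA v
    constructor
    · rintro ⟨S, hSm, h⟩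
      rcases mem_union.1 hSm with h1 | h1
      · exact absurd (l1_inr S) (disjoint_left.1 hA h1)
      · exact ⟨S, h1, h⟩
    · rintro ⟨S, hSm, h⟩
      exact ⟨S, mem_union_right _ hSm, h⟩
  have hiff : ∀ A : Finset (St V), ((∀ v ∈ O, ¬ ((Sum.inl (v, true) : St V) ∈ A ∧
        (Sum.inl (v, false) : St V) ∈ A)) ∧ (∃ v ∈ O, (Sum.inl (v, true) : St V) ∉ A) ∧
        (Disjoint (A \ sv O) cuts ∧ Cons (A \ sv O) ∧ ∀ S : NCut V, (Sum.inr S : St V) ∈ F →
          (¬ Ns G S.1 → ∃ v ∈ S.1, (Sum.inl (v, false) : St V) ∉ A \ sv O) ∧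
          (¬ Ns G (univ \ S.1) → ∃ v ∉ S.1, (Sum.inl (v, false) : St V) ∉ A \ sv O))) ↔
      (Disjoint A cuts ∧ Low G (A ∪ F)) := by
    intro A
    constructor
    · rintro ⟨h1, ⟨v0, hv0, h2⟩, h3, h4, h5⟩
      have hA : Disjoint A cuts := by
        rw [disjoint_left]
        intro a ha hac
        obtain ⟨S, _, rfl⟩ := mem_image.1 hac
        exact disjoint_left.1 h3 (mem_sdiff.2 ⟨ha, l1_sv_inr⟩) hac
      have hcons : Cons A := by
        intro v hv
        by_cases hvO : v ∈ O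
        · exact h1 v hvO hv
        · exact h4 v ⟨mem_sdiff.2 ⟨hv.1, fun h => hvO (l1_sv_inl h)⟩,
            mem_sdiff.2 ⟨hv.2, fun h => hvO (l1_sv_inl h)⟩⟩
      have h6 : ∀ S : NCut V, (Sum.inr S : St V) ∈ F →
          (¬ Ns G S.1 → ∃ v ∈ S.1, (Sum.inl (v, false) : St V) ∉ A ∪ F) ∧
          (¬ Ns G (univ \ S.1) → ∃ v ∉ S.1, (Sum.inl (v, false) : St V) ∉ A ∪ F) := by
        intro S hSF
        refine ⟨fun h => ?_, fun h => ?_⟩
        · obtain ⟨v, hv, hv'⟩ := (h5 S hSF).1 h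
          refine ⟨v, hv, fun h7 => ?_⟩
          rcases mem_union.1 h7 with h8 | h8
          · refine hv' (mem_sdiff.2 ⟨h8, fun h9 => ?_⟩)
            exact (mO v).1 (l1_sv_inl h9) ⟨S, hSF, Or.inl ⟨h, hv⟩⟩
          · exact hvF _ h8
        · obtain ⟨v, hv, hv'⟩ := (h5 S hSF).2 h
          refine ⟨v, hv, fun h7 => ?_⟩
          rcases mem_union.1 h7 with h8 | h8
          · refine hv' (mem_sdiff.2 ⟨h8, fun h9 => ?_⟩)
            exact (mO v).1 (l1_sv_inl h9) ⟨S, hSF, Or.inr ⟨h, hv⟩⟩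
          · exact hvF _ h8
      have hcutF : ∀ S : NCut V, (Sum.inr S : St V) ∈ A ∪ F → (Sum.inr S : St V) ∈ F := by
        intro S hS1
        rcases mem_union.1 hS1 with h7 | h7
        · exact absurd (l1_inr S) (disjoint_left.1 hA h7)
        · exact h7
      have h7 : (Sum.inl (v0, true) : St V) ∉ A ∪ F := by
        intro h
        rcases mem_union.1 h with h8 | h8
        · exact h2 h8
        · exact hvF _ h8
      refine ⟨hA, ⟨?_, ?_, ?_⟩, ?_, ?_, ?_⟩
      · intro S S' hS1 hS2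
        exact hF.1.1 S S' (hcutF S hS1) (hcutF S' hS2)
      · rintro v ⟨hv1, hv2⟩
        rcases mem_union.1 hv1 with h8 | h8
        · rcases mem_union.1 hv2 with h9 | h9
          · exact hcons v ⟨h8, h9⟩
          · exact hvF _ h9
        · exact hvF _ h8
      · intro b
        rcases b with _ | _
        · obtain ⟨S, hSF, hside⟩ := hS
          rcases hside with h8 | h8
          · obtain ⟨v, _, hv'⟩ := (h6 S hSF).1 h8
            exact ⟨v, hv'⟩
          · obtain ⟨v, _, hv'⟩ := (h6 S hSF).2 h8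
            exact ⟨v, hv'⟩
        · exact ⟨v0, h7⟩
      · intro S hS1
        exact hF.2.1 S (hcutF S hS1)
      · exact ⟨v0, h7, fun h => (mO v0).1 hv0 ((hcov A hA v0).1 h)⟩
      · intro S hS1
        exact h6 S (hcutF S hS1)
    · rintro ⟨hA, hLL, h2, ⟨v0, h3, h4⟩, h5⟩
      refine ⟨?_, ⟨v0, (mO v0).2 fun h => h4 ((hcov A hA v0).2 h),
        fun h => h3 (mem_union_left _ h)⟩, ?_, ?_, ?_⟩
      · intro v _ hv
        exact hLL.2.1 v ⟨mem_union_left _ hv.1, mem_union_left _ hv.2⟩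
      · exact hA.mono_left sdiff_subset
      · intro v hv
        exact hLL.2.1 v ⟨mem_union_left _ (mem_sdiff.1 hv.1).1, mem_union_left _ (mem_sdiff.1 hv.2).1⟩
      · intro S hSF
        refine ⟨fun h => ?_, fun h => ?_⟩
        · obtain ⟨v, hv, hv'⟩ := (h5 S (mem_union_right _ hSF)).1 h
          exact ⟨v, hv, fun h' => hv' (mem_union_left _ (mem_sdiff.1 h').1)⟩
        · obtain ⟨v, hv, hv'⟩ := (h5 S (mem_union_right _ hSF)).2 h
          exact ⟨v, hv, fun h' => hv' (mem_union_left _ (mem_sdiff.1 h').1)⟩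
  intro z hz hb
  obtain ⟨c, hc, hcb⟩ := key z (fun s hs => (hiff s).2 (hz s hs)) hb
  exact ⟨c, fun s hs => (hiff s).1 (hc s hs), hcb⟩

end H85J
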