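import Pool.Agent.Lib.H85J.D
import Pool.Agent.Lib.H63F.F4

/-! # H85J, chunk M1: chain maps from carriers that are acyclic in the one degree which is used -/

set_option autoImplicit false

namespace H85J

open Finset H98P H63F

private theorem m1_sym {X : Type*} [DecidableEq X] {g : X → X → ZMod 2}
    (hg : ∀ u v, g u v = g v u) (W : Finset X) : ∑ u ∈ W, ∑ v ∈ W.erase u, g u v = 0 := by
  rw [Finset.sum_sigma']
  refine Finset.sum_involution (fun x _ => (⟨x.2, x.1⟩ : Σ _ : X, X)) ?_ ?_ ?_ ?_
  · rintro ⟨e, f⟩ hx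
    simp only
    rw [hg f e]
    exact CharTwo.add_self_eq_zero _
  · rintro ⟨e, f⟩ hx _ hEq
    simp only [Finset.mem_sigma, Finset.mem_erase] at hx
    have h1 : f = e := congrArg Sigma.fst hEq
    exact hx.2.1 h1
  · rintro ⟨e, f⟩ hx
    simp only [Finset.mem_sigma, Finset.mem_erase] at hx ⊢
    exact ⟨hx.2.2, fun h => hx.2.1 h.symm, hx.1⟩
  · rintro ⟨e, f⟩ hx
    rfl

/-- One step: the chain of one set `s`. -/
private theorem m1_step {A B : Type*} [DecidableEq A] [Fintype B] [DecidableEq B]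
    (K : Finset A → Prop) (hK : Dn K) (Γ : Finset A → Finset B → Prop)
    (hm : ∀ s t, s ⊆ t → K t → s.Nonempty → ∀ r, Γ s r → Γ t r)
    (h0 : ∀ s, K s → s.Nonempty → Γ s ∅) (hac : ∀ s, K s → s.Nonempty → Bnd (s.card - 1) (Γ s)) (k : ℕ)
    (θ : Finset A → Finset B → ZMod 2) (t0 : ∀ r, θ ∅ r = if r = ∅ then 1 else 0)
    (t1 : ∀ s, K s → s.Nonempty → s.card ≤ k → ∀ r, θ s r ≠ 0 → Γ s r ∧ r.card = s.card)
    (t2 : ∀ s, K s → s.Nonempty → s.card ≤ k → ∀ r, bd (θ s) r = ∑ a ∈ s, θ (s.erase a) r)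
    (s : Finset A) (hs : K s) (hc : s.card = k + 1) :
    ∃ d : Finset B → ZMod 2, (∀ r, d r ≠ 0 → Γ s r ∧ r.card = s.card) ∧
      ∀ r, bd d r = ∑ a ∈ s, θ (s.erase a) r := by
  have hne : s.Nonempty := Finset.card_pos.1 (by omega)
  have hsup : ∀ r, ∑ a ∈ s, θ (s.erase a) r ≠ 0 → Γ s r ∧ r.card = k := by
    intro r hr
    obtain ⟨a, ha, har⟩ := Finset.exists_ne_zero_of_sum_ne_zero hr
    have h1 := Finset.card_erase_add_one ha
    rcases (s.erase a).eq_empty_or_nonempty with h2 | h2
    · rw [h2, t0] at har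
      have h3 : r = ∅ := by
        by_contra h4
        rw [if_neg h4] at har
        exact har rfl
      rw [h2, Finset.card_empty] at h1
      rw [h3]
      exact ⟨h0 s hs hne, by rw [Finset.card_empty]; omega⟩
    · have h3 := t1 (s.erase a) (hK _ _ (Finset.erase_subset a s) hs) h2 (by omega) r har
      exact ⟨hm _ _ (Finset.erase_subset a s) hs h2 r h3.1, by omega⟩
  have hbd : ∀ r, bd (fun r => ∑ a ∈ s, θ (s.erase a) r) r = 0 := by
    intro r
    rw [bd_sum]
    rcases Nat.eq_zero_or_pos k with h1 | h1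
    · refine Finset.sum_eq_zero fun a ha => ?_
      have h2 := Finset.card_erase_add_one ha
      have h3 : s.erase a = ∅ := Finset.card_eq_zero.1 (by omega)
      rw [h3]
      simp only [bd, t0]
      refine Finset.sum_eq_zero fun e _ => ?_
      rw [if_neg (Finset.insert_ne_empty e r)]
    · have h2 : ∀ a ∈ s, bd (θ (s.erase a)) r = ∑ b ∈ s.erase a, θ ((s.erase a).erase b) r := by
        intro a ha
        have h3 := Finset.card_erase_add_one ha
        exact t2 _ (hK _ _ (Finset.erase_subset a s) hs) (Finset.card_pos.1 (by omega)) (by omega) r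
      rw [Finset.sum_congr rfl h2]
      exact m1_sym (g := fun a b => θ ((s.erase a).erase b) r)
        (fun a b => by rw [Finset.erase_right_comm]) s
  have hk : s.card - 1 = k := by omega
  obtain ⟨c, hc1, hc2⟩ := hac s hs hne (fun r => ∑ a ∈ s, θ (s.erase a) r)
    (fun r hr => ⟨(hsup r hr).1, by rw [hk]; exact (hsup r hr).2⟩) hbd
  refine ⟨fun r => if r.card = k + 1 then c r else 0, ?_, ?_⟩
  · intro r hr
    beta_reduce at hr
    by_cases h1 : r.card = k + 1
    · rw [if_pos h1] at hr
      exact ⟨hc1 r hr, by omega⟩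
    · rw [if_neg h1] at hr
      exact absurd rfl hr
  · intro r
    rw [bd_card, hc2]
    by_cases h1 : r.card = k
    · rw [if_pos h1]
    · rw [if_neg h1]
      by_contra h2
      exact h1 (hsup r fun h3 => h2 h3.symm).2

/-- PROOF: copy of `H63F.carriers` (and `f4_step`) in H63F/F4.lean: there `hac` is used only for the cycle
`r ↦ ∑ a ∈ s, θ (s.erase a) r`, which lives in cardinality `s.card - 1`. -/
theorem carriersB {A B : Type*} [Fintype A] [DecidableEq A] [Fintype B] [DecidableEq B]
    (K : Finset A → Prop) (hK : Dn K) (Γ : Finset A → Finset B → Prop)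
    (hm : ∀ s t, s ⊆ t → K t → s.Nonempty → ∀ r, Γ s r → Γ t r)
    (h0 : ∀ s, K s → s.Nonempty → Γ s ∅) (hac : ∀ s, K s → s.Nonempty → Bnd (s.card - 1) (Γ s)) :
    ∃ θ : Finset A → Finset B → ZMod 2, (∀ r, θ ∅ r = if r = ∅ then 1 else 0) ∧
      (∀ s, K s → s.Nonempty → ∀ r, θ s r ≠ 0 → Γ s r ∧ r.card = s.card) ∧
      ∀ s, K s → s.Nonempty → ∀ r, bd (θ s) r = ∑ a ∈ s, θ (s.erase a) r := by
  classical
  have key : ∀ k : ℕ, ∃ θ : Finset A → Finset B → ZMod 2, (∀ r, θ ∅ r = if r = ∅ then 1 else 0) ∧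
      (∀ s, K s → s.Nonempty → s.card ≤ k → ∀ r, θ s r ≠ 0 → Γ s r ∧ r.card = s.card) ∧
      ∀ s, K s → s.Nonempty → s.card ≤ k → ∀ r, bd (θ s) r = ∑ a ∈ s, θ (s.erase a) r := by
    intro k
    induction k with
    | zero =>
      refine ⟨fun _ r => if r = ∅ then 1 else 0, fun r => rfl, ?_, ?_⟩
      · intro s _ hne hc
        have := Finset.card_pos.2 hne
        omega
      · intro s _ hne hc
        have := Finset.card_pos.2 hne
        omega
    | succ k ih =>
      obtain ⟨θ, t0, t1, t2⟩ := ih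
      have hex : ∀ s : Finset A, ∃ d : Finset B → ZMod 2, K s → s.card = k + 1 →
          (∀ r, d r ≠ 0 → Γ s r ∧ r.card = s.card) ∧ ∀ r, bd d r = ∑ a ∈ s, θ (s.erase a) r := by
        intro s
        by_cases h : K s ∧ s.card = k + 1
        · obtain ⟨d, hd⟩ := m1_step K hK Γ hm h0 hac k θ t0 t1 t2 s h.1 h.2
          exact ⟨d, fun _ _ => hd⟩
        · exact ⟨fun _ => 0, fun h1 h2 => absurd ⟨h1, h2⟩ h⟩
      choose d hd using hex
      have hlow : ∀ s : Finset A, s.card ≤ k →
          (if s.card = k + 1 then d s else θ s) = θ s := by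
        intro s hs
        rw [if_neg (by omega)]
      have hsum : ∀ s : Finset A, s.card ≤ k + 1 → ∀ r,
          ∑ a ∈ s, (if (s.erase a).card = k + 1 then d (s.erase a) else θ (s.erase a)) r =
            ∑ a ∈ s, θ (s.erase a) r := by
        intro s hs r
        refine Finset.sum_congr rfl fun a ha => ?_
        have h1 := Finset.card_erase_add_one ha
        rw [hlow _ (by omega)]
      refine ⟨fun s => if s.card = k + 1 then d s else θ s, ?_, ?_, ?_⟩
      · intro r
        beta_reduce
        rw [hlow ∅ (by simp)]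
        exact t0 r
      · intro s hs hne hc r
        beta_reduce
        by_cases h1 : s.card = k + 1
        · rw [if_pos h1]
          exact (hd s hs h1).1 r
        · rw [if_neg h1]
          exact t1 s hs hne (by omega) r
      · intro s hs hne hc r
        beta_reduce
        rw [hsum s hc r]
        by_cases h1 : s.card = k + 1
        · rw [if_pos h1]
          exact (hd s hs h1).2 r
        · rw [if_neg h1]
          exact t2 s hs hne (by omega) r
  obtain ⟨θ, t0, t1, t2⟩ := key (Fintype.card A)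
  exact ⟨θ, t0, fun s hs hne => t1 s hs hne (Finset.card_le_univ s),
    fun s hs hne => t2 s hs hne (Finset.card_le_univ s)⟩


end H85J
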