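import Pool.Agent.Lib.H85J.D
import Pool.Agent.Lib.H96H.A0

/-! # H85J, chunk R1: adding one vertex to a complex -/

set_option autoImplicit false

namespace H85J

open Finset H98P H63F

variable {E : Type*} [Fintype E] [DecidableEq E]

theorem bnd_congr {m : ℕ} {K K' : Finset E → Prop} (h : ∀ s, K s ↔ K' s) (hK : Bnd m K) : Bnd m K' := by
  have : K = K' := funext fun s => propext (h s)
  rwa [← this]

theorem bnd_of_ac {m : ℕ} {K : Finset E → Prop} (hK : AC K) : Bnd m K :=
  fun z h1 h2 => hK z (fun s hs => (h1 s hs).1) h2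

private theorem bd_join (v : E) (c : Finset E → ZMod 2) (hc : ∀ s, v ∈ s → c s = 0) (r : Finset E) :
    bd (fun s => if v ∈ s then c (s.erase v) else 0) r = if v ∈ r then bd c (r.erase v) else c r := by
  show ∑ e ∈ rᶜ, (if v ∈ insert e r then c ((insert e r).erase v) else 0) = _
  by_cases har : v ∈ r
  · rw [if_pos har]
    have h2 : (r.erase v)ᶜ = insert v rᶜ := by
      ext x
      rw [mem_compl, mem_erase, mem_insert, mem_compl]
      constructor
      · intro h
        by_cases hx : x = v
        · exact Or.inl hx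
        · exact Or.inr fun hxr => h ⟨hx, hxr⟩
      · rintro (h | h) ⟨h3, h4⟩
        · exact h3 h
        · exact h h4
    unfold bd
    rw [h2, sum_insert (fun h => (mem_compl.1 h) har), insert_erase har, hc r har, zero_add]
    refine sum_congr rfl fun e he => ?_
    have hev : e ≠ v := by
      rintro rfl
      exact (mem_compl.1 he) har
    rw [if_pos (mem_insert_of_mem har), erase_insert_of_ne hev]
  · rw [if_neg har, sum_eq_single v]
    · rw [if_pos (mem_insert_self v r), erase_insert har]
    · intro e _ hea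
      rw [if_neg]
      rw [mem_insert]
      rintro (h | h)
      · exact hea h.symm
      · exact har h
    · intro h
      exact absurd (mem_compl.2 har) h

private theorem bd_mem_zero (v : E) (c : Finset E → ZMod 2) (hc : ∀ s, v ∈ s → c s = 0) {r : Finset E}
    (hr : v ∈ r) : bd c r = 0 := by
  unfold bd
  exact sum_eq_zero fun e _ => hc _ (mem_insert_of_mem hr)

/-- PROOF: split a cycle `z` of `K` by cardinality: `z = ∑ m, z m`, every `z m` is a cycle (`H98P.bd_card`; the part of
cardinality `0` has boundary `0` anyway). -/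
theorem ac_of_bnd {K : Finset E → Prop} (h : ∀ m, Bnd m K) : AC K := by
  intro z hz hb
  have key : ∀ m : ℕ, ∃ c : Finset E → ZMod 2, (∀ s, c s ≠ 0 → K s) ∧
      ∀ r, bd c r = if r.card = m then z r else 0 := by
    intro m
    have hcyc : ∀ r, bd (fun s => if s.card = m then z s else 0) r = 0 := by
      intro r
      rcases m with _ | m
      · unfold bd
        refine sum_eq_zero fun e _ => ?_
        refine if_neg fun h0 => ?_
        have h1 := card_eq_zero.1 h0
        exact absurd (h1 ▸ mem_insert_self e r) (notMem_empty e)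
      · rw [bd_card, hb r]
        split_ifs <;> rfl
    obtain ⟨c, hc, hcb⟩ := h m (fun s => if s.card = m then z s else 0)
      (by
        intro s hs
        have hs' : (if s.card = m then z s else 0) ≠ 0 := hs
        by_cases h1 : s.card = m
        · rw [if_pos h1] at hs'
          exact ⟨hz s hs', h1⟩
        · rw [if_neg h1] at hs'
          exact absurd rfl hs')
      hcyc
    exact ⟨c, hc, fun r => hcb r⟩
  choose c hc hcb using key
  refine ⟨fun s => ∑ m ∈ range (Fintype.card E + 1), c m s, fun s hs => ?_, fun r => ?_⟩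
  · obtain ⟨m, -, hm⟩ := exists_ne_zero_of_sum_ne_zero hs
    exact hc m s hm
  · rw [bd_sum]
    have h1 : ∑ m ∈ range (Fintype.card E + 1), bd (c m) r = bd (c r.card) r := by
      refine sum_eq_single_of_mem r.card ?_ fun m _ hm => ?_
      · rw [mem_range]
        exact Nat.lt_succ_of_le (card_le_univ r)
      · rw [hcb m r, if_neg (fun h => hm h.symm)]
    rw [h1, hcb, if_pos rfl]

/-- PROOF: `z = z' + v * y` (`z' s = z s` for `v ∉ s`, `y s = z (insert v s)` for `v ∉ s`, else `0`). `bd z = 0` gives
`bd y = 0` and `bd z' = y`. `y` has cardinality `m - 1` (`y = 0` for `m = 0`), so `y = bd c` with `c` on the link;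
`z + bd (v * c) = z' + c` is a cycle without `v` (`v * c` is `s ↦ c (s.erase v)` for `v ∈ s`, else `0`; take the part of
`c` of cardinality `m`), so it is `bd d`, `z = bd (d + v * c)`. -/
theorem bnd_add {X : Finset E → Prop} (hX : Dn X) (v : E) {m : ℕ} (h1 : Bnd m fun s => X s ∧ v ∉ s)
    (h2 : ∀ m', m' + 1 = m → Bnd m' fun s => v ∉ s ∧ X (insert v s)) : Bnd m X := by
  intro z hz hb
  rcases m with _ | m
  · obtain ⟨d, hd, hdb⟩ := h1 z (fun s hs => by
      obtain ⟨q1, q2⟩ := hz s hs
      refine ⟨⟨q1, ?_⟩, q2⟩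
      rw [card_eq_zero.1 q2]
      exact notMem_empty v) hb
    exact ⟨d, fun s hs => (hd s hs).1, hdb⟩
  obtain ⟨y, hy⟩ : ∃ y : Finset E → ZMod 2, ∀ s, y s = if v ∈ s then 0 else z (insert v s) :=
    ⟨_, fun _ => rfl⟩
  obtain ⟨z', hz'⟩ : ∃ z' : Finset E → ZMod 2, ∀ s, z' s = if v ∈ s then 0 else z s := ⟨_, fun _ => rfl⟩
  have hy0 : ∀ s, v ∈ s → y s = 0 := fun s hs => by rw [hy, if_pos hs]
  have hz0 : ∀ s, v ∈ s → z' s = 0 := fun s hs => by rw [hz', if_pos hs]
  have hsum : ∀ s, z' s + (if v ∈ s then y (s.erase v) else 0) = z s := by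
    intro s
    by_cases hs : v ∈ s
    · rw [hz0 s hs, if_pos hs, zero_add, hy, if_neg (notMem_erase v s), insert_erase hs]
    · rw [hz', if_neg hs, if_neg hs, add_zero]
  have hbs : ∀ r, bd z' r + (if v ∈ r then bd y (r.erase v) else y r) = 0 := by
    intro r
    rw [← bd_join v y hy0 r, ← bd_add]
    have h3 : (fun s => z' s + (if v ∈ s then y (s.erase v) else 0)) = z := funext hsum
    rw [h3]
    exact hb r
  have hzy : ∀ r, bd z' r = y r := by
    intro r
    by_cases hr : v ∈ r
    · rw [bd_mem_zero v z' hz0 hr, hy0 r hr]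
    · have h3 := hbs r
      rw [if_neg hr] at h3
      exact CharTwo.add_eq_zero.1 h3
  have hyb : ∀ r, bd y r = 0 := by
    intro r
    by_cases hr : v ∈ r
    · exact bd_mem_zero v y hy0 hr
    · have h3 := hbs (insert v r)
      rw [bd_mem_zero v z' hz0 (mem_insert_self v r), if_pos (mem_insert_self v r), erase_insert hr,
        zero_add] at h3
      exact h3
  have hys : ∀ s, y s ≠ 0 → (v ∉ s ∧ X (insert v s)) ∧ s.card = m := by
    intro s hs
    have hvs : v ∉ s := fun h => hs (hy0 s h)
    rw [hy, if_neg hvs] at hs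
    obtain ⟨q1, q2⟩ := hz _ hs
    rw [card_insert_of_notMem hvs] at q2
    exact ⟨⟨hvs, q1⟩, by omega⟩
  obtain ⟨c0, hc0, hc0b⟩ := h2 m rfl y hys hyb
  obtain ⟨c, hcdef⟩ : ∃ c : Finset E → ZMod 2, ∀ s, c s = if s.card = m + 1 then c0 s else 0 :=
    ⟨_, fun _ => rfl⟩
  have hcb : ∀ r, bd c r = y r := by
    intro r
    have h3 : c = fun s => if s.card = m + 1 then c0 s else 0 := funext hcdef
    rw [h3, bd_card, hc0b r]
    by_cases h4 : r.card = m
    · rw [if_pos h4]
    · rw [if_neg h4]
      by_contra h5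
      exact h4 (hys r (fun h => h5 h.symm)).2
  have hcs : ∀ s, c s ≠ 0 → v ∉ s ∧ X (insert v s) ∧ s.card = m + 1 := by
    intro s hs
    rw [hcdef] at hs
    by_cases h3 : s.card = m + 1
    · rw [if_pos h3] at hs
      exact ⟨(hc0 s hs).1, (hc0 s hs).2, h3⟩
    · rw [if_neg h3] at hs
      exact absurd rfl hs
  have hcv : ∀ s, v ∈ s → c s = 0 := by
    intro s hs
    by_contra h3
    exact (hcs s h3).1 hs
  obtain ⟨d, hd, hdb⟩ := h1 (fun s => z' s + c s)
    (by
      intro s hs
      by_cases h3 : z' s = 0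
      · have h4 : c s ≠ 0 := by
          intro h5
          apply hs
          show z' s + c s = 0
          rw [h3, h5, add_zero]
        obtain ⟨q1, q2, q3⟩ := hcs s h4
        exact ⟨⟨hX s (insert v s) (subset_insert v s) q2, q1⟩, q3⟩
      · have hvs : v ∉ s := fun h => h3 (hz0 s h)
        rw [hz', if_neg hvs] at h3
        obtain ⟨q1, q2⟩ := hz s h3
        exact ⟨⟨q1, hvs⟩, q2⟩)
    (by
      intro r
      rw [bd_add, hzy, hcb]
      exact CharTwo.add_self_eq_zero _)
  refine ⟨fun s => d s + (if v ∈ s then c (s.erase v) else 0), fun s hs => ?_, fun r => ?_⟩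
  · by_cases h3 : d s = 0
    · have h4 : (if v ∈ s then c (s.erase v) else 0) ≠ 0 := by
        intro h5
        apply hs
        show d s + (if v ∈ s then c (s.erase v) else 0) = 0
        rw [h3, h5, add_zero]
      by_cases h5 : v ∈ s
      · rw [if_pos h5] at h4
        have h6 := (hcs _ h4).2.1
        rwa [insert_erase h5] at h6
      · rw [if_neg h5] at h4
        exact absurd rfl h4
    · exact (hd s h3).1
  · rw [bd_add, bd_join v c hcv r, hdb r]
    by_cases h3 : v ∈ r
    · rw [if_pos h3, hz0 r h3, hcv r h3, hcb, hy, if_neg (notMem_erase v r), insert_erase h3, zero_add,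
        zero_add]
    · rw [if_neg h3, hz', if_neg h3]
      have h4 := CharTwo.add_self_eq_zero (c r)
      linear_combination h4

theorem bnd_ac {X : Finset E → Prop} (hX : Dn X) (v : E) {m : ℕ} (h1 : Bnd m fun s => X s ∧ v ∉ s)
    (h2 : AC fun s => v ∉ s ∧ X (insert v s)) : Bnd m X :=
  bnd_add hX v h1 fun _ _ => bnd_of_ac h2

end H85J
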