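import Pool.Agent.Lib.H85J.R1

/-! # H85J, chunk R2: adding many vertices whose links are cones -/

set_option autoImplicit false

namespace H85J

open Finset H98P H63F

variable {E : Type*} [Fintype E] [DecidableEq E]

/-- PROOF: induction on `U` (generalize `X`). If `U` is nonempty take `v ∈ U` with `ρ v` minimal. The link
`fun s => v ∉ s ∧ X (insert v s)` is a cone with apex `α v` (`H96H.ac_cone`; `α v ≠ v`), so `bnd_ac` reduces to
`X' s = X s ∧ v ∉ s` and `U.erase v`. -/
theorem bnd_cone (U : Finset E) (ρ : E → ℕ) (α : E → E) (h1 : ∀ v ∈ U, α v ∉ U) {X : Finset E → Prop} (hX : Dn X)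
    (h2 : ∀ v ∈ U, ∀ s, v ∉ s → X (insert v s) → (∀ u ∈ s, u ∈ U → ρ v ≤ ρ u) → X (insert (α v) (insert v s)))
    {m : ℕ} (h : Bnd m fun s => X s ∧ Disjoint s U) : Bnd m X := by
  classical
  induction hn : U.card using Nat.strong_induction_on generalizing U X with
  | _ n ih =>
    rcases U.eq_empty_or_nonempty with rfl | hne
    · refine bnd_congr (fun s => ?_) h
      simp
    · obtain ⟨v, hvU, hvmin⟩ := exists_min_image U ρ hne
      have hX' : Dn fun s => X s ∧ v ∉ s := fun s t hst ht =>
        ⟨hX s t hst ht.1, fun hv => ht.2 (hst hv)⟩
      refine bnd_ac hX v ?_ ?_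
      · refine ih (U.erase v).card ?_ (U.erase v) ?_ hX' ?_ ?_ rfl
        · rw [← hn]
          exact card_erase_lt_of_mem hvU
        · intro u hu hau
          exact h1 u (mem_of_mem_erase hu) (mem_of_mem_erase hau)
        · intro u hu s hus hXs hρ
          have huU : u ∈ U := mem_of_mem_erase hu
          have hvs : v ∉ s := fun hv => hXs.2 (mem_insert_of_mem hv)
          have huv : v ≠ u := (ne_of_mem_erase hu).symm
          have hαv : v ≠ α u := by
            rintro rfl
            exact h1 u huU hvU
          refine ⟨h2 u huU s hus hXs.1 ?_, ?_⟩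
          · intro w hw hwU
            refine hρ w hw (mem_erase.2 ⟨?_, hwU⟩)
            rintro rfl
            exact hvs hw
          · rw [mem_insert, mem_insert]
            rintro (h3 | h3 | h3)
            · exact hαv h3
            · exact huv h3
            · exact hvs h3
        · refine bnd_congr (fun s => ?_) h
          constructor
          · rintro ⟨q1, q2⟩
            refine ⟨⟨q1, fun hv => ?_⟩, ?_⟩
            · exact (disjoint_left.1 q2) hv hvU
            · exact q2.mono_right (erase_subset v U)
          · rintro ⟨⟨q1, q2⟩, q3⟩
            refine ⟨q1, disjoint_left.2 fun w hw hwU => ?_⟩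
            have hwv : w ≠ v := by
              rintro rfl
              exact q2 hw
            exact (disjoint_left.1 q3) hw (mem_erase.2 ⟨hwv, hwU⟩)
      · have hαv : α v ≠ v := by
          intro h3
          apply h1 v hvU
          rw [h3]
          exact hvU
        refine H96H.ac_cone (fun s t hst ht => ?_) (α v) ?_
        · exact ⟨fun hv => ht.1 (hst hv), hX _ _ (insert_subset_insert v hst) ht.2⟩
        · rintro s ⟨hvs, hXs⟩
          refine ⟨?_, ?_⟩
          · rw [mem_insert]
            rintro (h3 | h3)
            · exact hαv h3.symm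
            · exact hvs h3
          · rw [insert_comm]
            exact h2 v hvU s hvs hXs fun u _ huU => hvmin u huU

end H85J
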