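import Pool.Agent.Lib.H85J.R2

/-! # H85J, chunk T1: a vertex of degree 1 makes the complex `TT G` acyclic -/

set_option autoImplicit false

namespace H85J

open Finset H98P H63F H96H

variable {W : Type*} [Fintype W] [DecidableEq W]

/-- The side of `b`. -/
private def t1B (b : W) (S : Finset W) : Finset W := if b ∈ S then S else univ \ S

private theorem t1B_mem (b : W) (S : Finset W) : b ∈ t1B b S := by
  unfold t1B
  by_cases h : b ∈ S
  · rw [if_pos h]
    exact h
  · rw [if_neg h]
    exact mem_sdiff.2 ⟨mem_univ _, h⟩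

private theorem t1B_or (b : W) (S : Finset W) :
    (t1B b S = S ∧ b ∈ S) ∨ (t1B b S = univ \ S ∧ b ∉ S) := by
  unfold t1B
  by_cases h : b ∈ S
  · rw [if_pos h]
    exact Or.inl ⟨rfl, h⟩
  · rw [if_neg h]
    exact Or.inr ⟨rfl, h⟩

private theorem t1_comm {S T : Finset W} (h : NonX S T) : NonX T S := by
  rcases h with h | h | h | h
  · exact Or.inl (by rw [inter_comm]; exact h)
  · exact Or.inr (Or.inr (Or.inl h))
  · exact Or.inr (Or.inl h)
  · exact Or.inr (Or.inr (Or.inr (by rw [union_comm]; exact h)))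

private theorem t1_compl {S T : Finset W} (h : NonX S T) : NonX (univ \ S) T := by
  rcases h with h | h | h | h
  · refine Or.inr (Or.inr (Or.inl fun x hx => ?_))
    rw [mem_sdiff]
    refine ⟨mem_univ _, fun h' => ?_⟩
    have h1 : x ∈ S ∩ T := mem_inter.2 ⟨h', hx⟩
    rw [h] at h1
    exact absurd h1 (notMem_empty _)
  · refine Or.inr (Or.inr (Or.inr ?_))
    rw [eq_univ_iff_forall]
    intro x
    rw [mem_union, mem_sdiff]
    by_cases hx : x ∈ S
    · exact Or.inr (h hx)
    · exact Or.inl ⟨mem_univ _, hx⟩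
  · refine Or.inl ?_
    rw [eq_empty_iff_forall_notMem]
    intro x hx
    rw [mem_inter, mem_sdiff] at hx
    exact hx.1.2 (h hx.2)
  · refine Or.inr (Or.inl fun x hx => ?_)
    have h1 : x ∈ S ∪ T := by rw [h]; exact mem_univ _
    rcases mem_union.1 h1 with h1 | h1
    · exact absurd h1 (mem_sdiff.1 hx).2
    · exact h1

private theorem t1_ns_card {G : SimpleGraph W} {S : Finset W} (h : Ns G S) : 2 ≤ S.card := by
  obtain ⟨u, hu, v, hv, huv⟩ := h
  exact one_lt_card.2 ⟨u, hu, v, hv, huv.ne⟩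

private theorem t1_ns_mono {G : SimpleGraph W} {S T : Finset W} (hST : S ⊆ T) (h : Ns G S) : Ns G T := by
  obtain ⟨u, hu, v, hv, huv⟩ := h
  exact ⟨u, hST hu, v, hST hv, huv⟩

private theorem t1_dn (G : SimpleGraph W) : Dn (TT G) := by
  intro s t hst ht
  exact ⟨fun S hS => ht.1 S (hst hS), fun S hS S' hS' => ht.2 S (hst hS) S' (hst hS')⟩

/-- Nested with the side of `b` without `b`. -/
private theorem t1_case {a b : W} {B R : Finset W} (hb : b ∈ B) (ha : a ∉ B) (h : NonX B R)
    (h1 : b ∈ R → a ∉ R → B.card ≤ R.card) (h2 : b ∉ R → a ∈ R → B.card ≤ (univ \ R).card) :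
    NonX (B.erase b) R := by
  rcases h with h | h | h | h
  · left
    rw [eq_empty_iff_forall_notMem] at h ⊢
    intro x hx
    rw [mem_inter] at hx
    exact h x (mem_inter.2 ⟨mem_of_mem_erase hx.1, hx.2⟩)
  · right; left
    exact (erase_subset _ _).trans h
  · by_cases hbR : b ∈ R
    · have h3 : R = B := eq_of_subset_of_card_le h (h1 hbR fun h4 => ha (h h4))
      right; left
      rw [h3]
      exact erase_subset _ _
    · right; right; left
      intro x hx
      exact mem_erase.2 ⟨fun h3 => hbR (h3 ▸ hx), h hx⟩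
  · rw [eq_univ_iff_forall] at h
    by_cases hbR : b ∈ R
    · right; right; right
      rw [eq_univ_iff_forall]
      intro x
      rw [mem_union, mem_erase]
      by_cases hxb : x = b
      · right
        rw [hxb]
        exact hbR
      · rcases mem_union.1 (h x) with h3 | h3
        · exact Or.inl ⟨hxb, h3⟩
        · exact Or.inr h3
    · have haR : a ∈ R := (mem_union.1 (h a)).resolve_left ha
      have h3 : univ \ R ⊆ B := fun x hx => (mem_union.1 (h x)).resolve_right (mem_sdiff.1 hx).2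
      have h4 : univ \ R = B := eq_of_subset_of_card_le h3 (h2 hbR haR)
      left
      rw [eq_empty_iff_forall_notMem]
      intro x hx
      rw [mem_inter] at hx
      have h5 := mem_of_mem_erase hx.1
      rw [← h4, mem_sdiff] at h5
      exact h5.2 hx.2

/-- PROOF: `bnd_cone` with `U` = the cuts `S` with `Ns G S.1`, `Ns G (univ \ S.1)` which separate `a` from `b`;
the `b`-side is `B S` (`S.1` if `b ∈ S.1`, else the complement), `ρ S = (B S).card`, `α S` = the cut `B S \ {b}`
(it has an edge since the only neighbour `a` of `b` is not in `B S`; outside `U` take any value). If `R` does not cross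
`S` and `R` does not separate `a`, `b` or has `ρ S ≤ ρ R`, then `R` does not cross `B S \ {b}` (cases `R ⊆ B`, `B ⊆ R`,
`R ∩ B = ∅`, `R ∪ B = univ`; if `b` is on the inner side of `R`, then that side is inside `B`, so `R` separates, and by
`ρ` it is `B`). The families without cuts separating `a`, `b` are a cone with apex the cut `{a, b}`
(`H96H.ac_cone`, `bnd_of_ac`; its complement contains `c`, `d`). -/
theorem bnd_pendant {G : SimpleGraph W} {a b : W} (hab : ∀ v, G.Adj b v ↔ v = a)
    (h : ∃ c d, G.Adj c d ∧ c ≠ a ∧ c ≠ b ∧ d ≠ a ∧ d ≠ b) (m : ℕ) : Bnd m (TT G) := by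
  classical
  obtain ⟨c, d, hcd, hca, hcb, hda, hdb⟩ := h
  have hba : G.Adj b a := (hab a).2 rfl
  have hne : a ≠ b := hba.ne.symm
  -- the cuts separating `a` and `b`
  obtain ⟨U, hU⟩ : ∃ U : Finset (NCut W), ∀ S, S ∈ U ↔
      (Ns G S.1 ∧ Ns G (univ \ S.1)) ∧ (a ∈ S.1 ↔ b ∉ S.1) :=
    ⟨univ.filter fun S : NCut W => (Ns G S.1 ∧ Ns G (univ \ S.1)) ∧ (a ∈ S.1 ↔ b ∉ S.1),
      fun S => by rw [mem_filter]; exact ⟨fun h => h.2, fun h => ⟨mem_univ _, h⟩⟩⟩
  have hB : ∀ S ∈ U, a ∉ t1B b S.1 ∧ Ns G (t1B b S.1) ∧ Ns G (univ \ t1B b S.1) := by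
    intro S hS
    obtain ⟨⟨h1, h2⟩, h3⟩ := (hU S).1 hS
    rcases t1B_or b S.1 with ⟨h4, h5⟩ | ⟨h4, h5⟩
    · rw [h4]
      exact ⟨fun h6 => h3.1 h6 h5, h1, h2⟩
    · rw [h4]
      refine ⟨fun h6 => (mem_sdiff.1 h6).2 (h3.2 h5), h2, ?_⟩
      rw [Finset.sdiff_sdiff_eq_self (subset_univ _)]
      exact h1
  have hE : ∀ S ∈ U, Ns G ((t1B b S.1).erase b) ∧ Ns G (univ \ (t1B b S.1).erase b) := by
    intro S hS
    obtain ⟨h1, ⟨u, hu, v, hv, huv⟩, h3⟩ := hB S hS
    refine ⟨⟨u, mem_erase.2 ⟨fun h4 => ?_, hu⟩, v, mem_erase.2 ⟨fun h4 => ?_, hv⟩, huv⟩,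
      t1_ns_mono (sdiff_subset_sdiff (Subset.refl _) (erase_subset _ _)) h3⟩
    · rw [h4] at huv
      exact h1 ((hab v).1 huv ▸ hv)
    · rw [h4] at huv
      exact h1 ((hab u).1 huv.symm ▸ hu)
  obtain ⟨α, hα⟩ : ∃ α : NCut W → NCut W, ∀ S ∈ U, (α S).1 = (t1B b S.1).erase b := by
    refine ⟨fun S => if h : 2 ≤ ((t1B b S.1).erase b).card ∧
      2 ≤ (univ \ (t1B b S.1).erase b).card then ⟨(t1B b S.1).erase b, h⟩ else S, fun S hS => ?_⟩
    have h1 := hE S hS
    simp only
    rw [dif_pos ⟨t1_ns_card h1.1, t1_ns_card h1.2⟩]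
  have hself : ∀ S : Finset W, NonX S S := fun S => Or.inr (Or.inl (Subset.refl _))
  refine bnd_cone U (fun S => (t1B b S.1).card) α (fun S hS h1 => ?_) (t1_dn G)
    (fun S hS F hSF hF hρ => ?_) ?_
  · have h2 := ((hU _).1 h1).2
    rw [hα S hS] at h2
    have h3 : b ∉ (t1B b S.1).erase b := notMem_erase _ _
    exact (hB S hS).1 (mem_of_mem_erase (h2.2 h3))
  · obtain ⟨h1, h2, h3⟩ := hB S hS
    have key : ∀ R ∈ insert S F, NonX ((t1B b S.1).erase b) R.1 := by
      intro R hR
      have h4 : NonX (t1B b S.1) R.1 := by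
        have h5 := hF.2 S (mem_insert_self _ _) R hR
        rcases t1B_or b S.1 with ⟨h6, _⟩ | ⟨h6, _⟩
        · rw [h6]
          exact h5
        · rw [h6]
          exact t1_compl h5
      have h5 : R ∈ U → (t1B b S.1).card ≤ (t1B b R.1).card := by
        intro hRU
        rcases mem_insert.1 hR with rfl | hR'
        · exact le_rfl
        · exact hρ R hR' hRU
      refine t1_case (t1B_mem b S.1) h1 h4 (fun h6 h7 => ?_) (fun h6 h7 => ?_)
      · have h8 := h5 ((hU R).2 ⟨hF.1 R hR, fun h8 => absurd h8 h7, fun h8 => absurd h6 h8⟩)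
        unfold t1B at h8
        rwa [if_pos h6] at h8
      · have h8 := h5 ((hU R).2 ⟨hF.1 R hR, fun _ => h6, fun _ => h7⟩)
        have h9 : t1B b R.1 = univ \ R.1 := by
          unfold t1B
          rw [if_neg h6]
        rwa [h9] at h8
    refine ⟨fun R hR => ?_, fun R hR R' hR' => ?_⟩
    · rcases mem_insert.1 hR with rfl | hR
      · rw [hα S hS]
        exact hE S hS
      · exact hF.1 R hR
    · rcases mem_insert.1 hR with rfl | hR
      · rcases mem_insert.1 hR' with rfl | hR'
        · exact hself _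
        · rw [hα S hS]
          exact key R' hR'
      · rcases mem_insert.1 hR' with rfl | hR'
        · rw [hα S hS]
          exact t1_comm (key R hR)
        · exact hF.2 R hR R' hR'
  · have h1 : Ns G ({a, b} : Finset W) :=
      ⟨a, mem_insert_self _ _, b, mem_insert_of_mem (mem_singleton_self _), hba.symm⟩
    have h2 : Ns G (univ \ {a, b} : Finset W) := by
      refine ⟨c, ?_, d, ?_, hcd⟩
      · rw [mem_sdiff, mem_insert, mem_singleton]
        exact ⟨mem_univ _, fun h => h.elim hca hcb⟩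
      · rw [mem_sdiff, mem_insert, mem_singleton]
        exact ⟨mem_univ _, fun h => h.elim hda hdb⟩
    apply bnd_of_ac
    refine ac_cone (fun s t hst ht => ⟨t1_dn G s t hst ht.1, disjoint_of_subset_left hst ht.2⟩)
      (⟨{a, b}, t1_ns_card h1, t1_ns_card h2⟩ : NCut W) fun s hs => ?_
    obtain ⟨hs, hd⟩ := hs
    have h3 : ∀ R ∈ s, NonX ({a, b} : Finset W) R.1 := by
      intro R hR
      have h4 : ¬ (a ∈ R.1 ↔ b ∉ R.1) := fun h4 =>
        (disjoint_left.1 hd) hR ((hU R).2 ⟨hs.1 R hR, h4⟩)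
      by_cases h5 : a ∈ R.1
      · have h6 : b ∈ R.1 := by
          by_contra h6
          exact h4 ⟨fun _ => h6, fun _ => h5⟩
        right; left
        intro x hx
        rw [mem_insert, mem_singleton] at hx
        rcases hx with rfl | rfl
        · exact h5
        · exact h6
      · have h6 : b ∉ R.1 := by
          intro h6
          exact h4 ⟨fun h7 => absurd h7 h5, fun h7 => absurd h6 h7⟩
        left
        rw [eq_empty_iff_forall_notMem]
        intro x hx
        rw [mem_inter, mem_insert, mem_singleton] at hx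
        rcases hx with ⟨rfl | rfl, hx⟩
        · exact h5 hx
        · exact h6 hx
    refine ⟨⟨fun R hR => ?_, fun R hR R' hR' => ?_⟩, ?_⟩
    · rcases mem_insert.1 hR with rfl | hR
      · exact ⟨h1, h2⟩
      · exact hs.1 R hR
    · rcases mem_insert.1 hR with rfl | hR
      · rcases mem_insert.1 hR' with rfl | hR'
        · exact hself _
        · exact h3 R' hR'
      · rcases mem_insert.1 hR' with rfl | hR'
        · exact t1_comm (h3 R hR)
        · exact hs.2 R hR R' hR'
    · rw [disjoint_insert_left]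
      refine ⟨fun h4 => ?_, hd⟩
      have h5 := ((hU _).1 h4).2
      exact h5.1 (mem_insert_self _ _) (mem_insert_of_mem (mem_singleton_self _))

end H85J
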