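import Pool.Agent.Lib.H85J.R2

/-! # H85J, chunk T2: the cuts whose only inner edge is `ab` -/

set_option autoImplicit false

namespace H85J

open Finset H98P H63F H96H

variable {W : Type*} [Fintype W] [DecidableEq W]

/-- The families of `TT G` all of whose cuts are the cut `{a, b}` itself or have edges different from `ab` on both sides. -/
def TX (G : SimpleGraph W) (a b : W) (F : Finset (NCut W)) : Prop :=
  TT G F ∧ ∀ S ∈ F, S.1 = {a, b} ∨ (Ns (del G a b) S.1 ∧ Ns (del G a b) (univ \ S.1))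

omit [Fintype W] in
private theorem t2_side {G : SimpleGraph W} {a b : W} {Q : Finset W} (h1 : Ns G Q)
    (h2 : ¬ Ns (del G a b) Q) : (a ∈ Q ∧ b ∈ Q) ∧
      ∀ u ∈ Q, ∀ v ∈ Q, G.Adj u v → (u = a ∧ v = b) ∨ (u = b ∧ v = a) := by
  have h3 : ∀ u ∈ Q, ∀ v ∈ Q, G.Adj u v → (u = a ∧ v = b) ∨ (u = b ∧ v = a) := by
    intro u hu v hv huv
    by_contra hcon
    push Not at hcon
    exact h2 ⟨u, hu, v, hv, huv, fun h => hcon.1 h.1 h.2, fun h => hcon.2 h.1 h.2⟩
  obtain ⟨u, hu, v, hv, huv⟩ := h1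
  refine ⟨?_, h3⟩
  rcases h3 u hu v hv huv with ⟨rfl, rfl⟩ | ⟨rfl, rfl⟩
  · exact ⟨hu, hv⟩
  · exact ⟨hv, hu⟩

/-- A side `Q` of `S` and the other side `Q'`. -/
private theorem t2_Q {G : SimpleGraph W} {a b : W} {S : Finset W} (h1 : Ns G S) (h2 : Ns G (univ \ S))
    (h3 : ¬ (Ns (del G a b) S ∧ Ns (del G a b) (univ \ S))) :
    ∃ Q : Finset W, (Q = S ∨ Q = univ \ S) ∧ Ns G (univ \ Q) ∧ (a ∈ Q ∧ b ∈ Q) ∧
      ∀ u ∈ Q, ∀ v ∈ Q, G.Adj u v → (u = a ∧ v = b) ∨ (u = b ∧ v = a) := by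
  by_cases h4 : Ns (del G a b) S
  · have h5 : ¬ Ns (del G a b) (univ \ S) := fun h => h3 ⟨h4, h⟩
    obtain ⟨h6, h7⟩ := t2_side h2 h5
    refine ⟨univ \ S, Or.inr rfl, ?_, h6, h7⟩
    have h8 : univ \ (univ \ S) = S := by
      ext x
      simp
    rw [h8]
    exact h1
  · obtain ⟨h6, h7⟩ := t2_side h1 h4
    exact ⟨S, Or.inl rfl, h2, h6, h7⟩

private theorem t2_both {G : SimpleGraph W} {a b : W} {S R : Finset W} (h1 : Ns G S) (h2 : Ns G (univ \ S))
    (h3 : ¬ (Ns (del G a b) S ∧ Ns (del G a b) (univ \ S))) (hR1 : Ns G R) (hR2 : Ns G (univ \ R))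
    (hX : NonX S R) : (a ∈ R ∧ b ∈ R) ∨ (a ∉ R ∧ b ∉ R) := by
  obtain ⟨Q, hQ, -, ⟨ha, hb⟩, hQe⟩ := t2_Q h1 h2 h3
  have key1 : R ⊆ Q → (a ∈ R ∧ b ∈ R) := by
    intro hRQ
    obtain ⟨u, hu, v, hv, huv⟩ := hR1
    rcases hQe u (hRQ hu) v (hRQ hv) huv with ⟨rfl, rfl⟩ | ⟨rfl, rfl⟩
    · exact ⟨hu, hv⟩
    · exact ⟨hv, hu⟩
  have key2 : univ \ R ⊆ Q → (a ∉ R ∧ b ∉ R) := by
    intro hRQ
    obtain ⟨u, hu, v, hv, huv⟩ := hR2
    have hu' : u ∉ R := (mem_sdiff.1 hu).2
    have hv' : v ∉ R := (mem_sdiff.1 hv).2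
    rcases hQe u (hRQ hu) v (hRQ hv) huv with ⟨rfl, rfl⟩ | ⟨rfl, rfl⟩
    · exact ⟨hu', hv'⟩
    · exact ⟨hv', hu'⟩
  rcases hQ with rfl | rfl
  · rcases hX with h | h | h | h
    · right
      constructor
      · intro haR
        have := mem_inter.2 ⟨ha, haR⟩
        rw [h] at this
        exact notMem_empty _ this
      · intro hbR
        have := mem_inter.2 ⟨hb, hbR⟩
        rw [h] at this
        exact notMem_empty _ this
    · exact Or.inl ⟨h ha, h hb⟩
    · exact Or.inl (key1 h)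
    · right
      apply key2
      intro x hx
      have h4 : x ∈ Q ∪ R := by
        rw [h]
        exact mem_univ x
      rcases mem_union.1 h4 with h5 | h5
      · exact h5
      · exact absurd h5 (mem_sdiff.1 hx).2
  · have ha' : a ∉ S := (mem_sdiff.1 ha).2
    have hb' : b ∉ S := (mem_sdiff.1 hb).2
    rcases hX with h | h | h | h
    · left
      apply key1
      intro x hx
      rw [mem_sdiff]
      refine ⟨mem_univ x, fun hxS => ?_⟩
      have := mem_inter.2 ⟨hxS, hx⟩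
      rw [h] at this
      exact notMem_empty _ this
    · right
      apply key2
      intro x hx
      rw [mem_sdiff] at hx ⊢
      exact ⟨mem_univ x, fun hxS => hx.2 (h hxS)⟩
    · exact Or.inr ⟨fun h4 => ha' (h h4), fun h4 => hb' (h h4)⟩
    · left
      have h5 : ∀ x, x ∉ S → x ∈ R := by
        intro x hx
        have h4 : x ∈ S ∪ R := by
          rw [h]
          exact mem_univ x
        exact (mem_union.1 h4).resolve_left hx
      exact ⟨h5 a ha', h5 b hb'⟩

private theorem t2_nonX {a b : W} {R : Finset W} (h : (a ∈ R ∧ b ∈ R) ∨ (a ∉ R ∧ b ∉ R)) :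
    NonX {a, b} R ∧ NonX R {a, b} := by
  rcases h with ⟨ha, hb⟩ | ⟨ha, hb⟩
  · have h1 : ({a, b} : Finset W) ⊆ R := by
      intro x hx
      rw [mem_insert, mem_singleton] at hx
      rcases hx with rfl | rfl
      · exact ha
      · exact hb
    exact ⟨Or.inr (Or.inl h1), Or.inr (Or.inr (Or.inl h1))⟩
  · have h1 : ({a, b} : Finset W) ∩ R = ∅ := by
      rw [eq_empty_iff_forall_notMem]
      intro x hx
      rw [mem_inter, mem_insert, mem_singleton] at hx
      rcases hx.1 with rfl | rfl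
      · exact ha hx.2
      · exact hb hx.2
    exact ⟨Or.inl h1, Or.inl (by rw [inter_comm]; exact h1)⟩

/-- PROOF: `bnd_cone` with `U` = the cuts `S` with `Ns G S.1`, `Ns G (univ \ S.1)`, `S.1 ≠ {a, b}` and not
(`Ns (del G a b) S.1 ∧ Ns (del G a b) (univ \ S.1)`), `ρ = 0`, `α S` = the cut `{a, b}` (for `U` nonempty: one side of
`S ∈ U` contains `a`, `b` and its only edge is `ab`, the other side has an edge without `a`, `b`, so `{a, b}` is a cut of
`TT G`). If `R` has edges on both sides and does not cross `S ∈ U` (`Q` = the side of `S` with the only edge `ab`): a side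
of `R` inside `Q` has an edge, so it contains `a`, `b`; in all four cases `R` does not cross `{a, b}`. -/
theorem bnd_TX {G : SimpleGraph W} {a b : W} (hab : G.Adj a b) {m : ℕ} (h : Bnd m (TX G a b)) : Bnd m (TT G) := by
  classical
  set U : Finset (NCut W) := univ.filter fun S : NCut W => Ns G S.1 ∧ Ns G (univ \ S.1) ∧ S.1 ≠ {a, b} ∧
    ¬ (Ns (del G a b) S.1 ∧ Ns (del G a b) (univ \ S.1)) with hU
  have hmU : ∀ S : NCut W, S ∈ U ↔ Ns G S.1 ∧ Ns G (univ \ S.1) ∧ S.1 ≠ {a, b} ∧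
      ¬ (Ns (del G a b) S.1 ∧ Ns (del G a b) (univ \ S.1)) := by
    intro S
    rw [hU, mem_filter]
    exact ⟨fun h => h.2, fun h => ⟨mem_univ S, h⟩⟩
  have hDn : Dn (TT G) := by
    intro s t hst ht
    exact ⟨fun S hS => ht.1 S (hst hS), fun S hS S' hS' => ht.2 S (hst hS) S' (hst hS')⟩
  have hP : ∀ S ∈ U, Ns G (univ \ ({a, b} : Finset W)) := by
    intro S hS
    rw [hmU] at hS
    obtain ⟨Q, -, ⟨u, hu, v, hv, huv⟩, ⟨ha, hb⟩, -⟩ := t2_Q hS.1 hS.2.1 hS.2.2.2
    have h1 : ∀ x, x ∈ univ \ Q → x ∈ univ \ ({a, b} : Finset W) := by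
      intro x hx
      rw [mem_sdiff] at hx ⊢
      refine ⟨mem_univ x, fun hx2 => hx.2 ?_⟩
      rw [mem_insert, mem_singleton] at hx2
      rcases hx2 with rfl | rfl
      · exact ha
      · exact hb
    exact ⟨u, h1 u hu, v, h1 v hv, huv⟩
  have hcard : ∀ S ∈ U, 2 ≤ ({a, b} : Finset W).card ∧ 2 ≤ (univ \ ({a, b} : Finset W)).card := by
    intro S hS
    refine ⟨by rw [card_pair hab.ne], ?_⟩
    obtain ⟨u, hu, v, hv, huv⟩ := hP S hS
    have h1 : ({u, v} : Finset W) ⊆ univ \ ({a, b} : Finset W) := by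
      intro x hx
      rw [mem_insert, mem_singleton] at hx
      rcases hx with rfl | rfl
      · exact hu
      · exact hv
    calc 2 = ({u, v} : Finset W).card := (card_pair huv.ne).symm
      _ ≤ _ := card_le_card h1
  have hcong : Bnd m fun s => TT G s ∧ Disjoint s U := by
    refine bnd_congr (fun s => ?_) h
    constructor
    · rintro ⟨h1, h2⟩
      refine ⟨h1, ?_⟩
      rw [disjoint_left]
      intro S hS hSU
      rw [hmU] at hSU
      rcases h2 S hS with h3 | h3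
      · exact hSU.2.2.1 h3
      · exact hSU.2.2.2 h3
    · rintro ⟨h1, h2⟩
      refine ⟨h1, fun S hS => ?_⟩
      by_contra hcon
      push Not at hcon
      rw [disjoint_left] at h2
      apply h2 hS
      rw [hmU]
      exact ⟨(h1.1 S hS).1, (h1.1 S hS).2, hcon.1, fun h3 => hcon.2 h3.1 h3.2⟩
  by_cases hv : 2 ≤ ({a, b} : Finset W).card ∧ 2 ≤ (univ \ ({a, b} : Finset W)).card
  · refine bnd_cone U (fun _ => 0) (fun _ => ⟨{a, b}, hv⟩) ?_ hDn ?_ hcong
    · intro S _ hcon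
      rw [hmU] at hcon
      exact hcon.2.2.1 rfl
    · intro S hS s hSs hX _
      have hS' := (hmU S).1 hS
      have hR : ∀ R ∈ insert S s, NonX ({a, b} : Finset W) R.1 ∧ NonX R.1 ({a, b} : Finset W) := by
        intro R hR
        apply t2_nonX
        exact t2_both hS'.1 hS'.2.1 hS'.2.2.2 (hX.1 R hR).1 (hX.1 R hR).2
          (hX.2 S (mem_insert_self S s) R hR)
      have hPP : NonX ({a, b} : Finset W) ({a, b} : Finset W) := Or.inr (Or.inl (Finset.Subset.refl _))
      constructor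
      · intro R hR'
        rw [mem_insert] at hR'
        rcases hR' with rfl | hR'
        · exact ⟨⟨a, mem_insert_self a _, b, mem_insert_of_mem (mem_singleton_self b), hab⟩, hP S hS⟩
        · exact hX.1 R hR'
      · intro R hR1 R' hR2
        rw [mem_insert] at hR1 hR2
        rcases hR1 with rfl | hR1 <;> rcases hR2 with rfl | hR2
        · exact hPP
        · exact (hR R' hR2).1
        · exact (hR R hR1).2
        · exact hX.2 R hR1 R' hR2
  · have hUe : ∀ S, S ∉ U := fun S hS => hv (hcard S hS)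
    exact bnd_cone U (fun _ => 0) id (fun S hS => absurd hS (hUe S)) hDn
      (fun S hS => absurd hS (hUe S)) hcong

end H85J
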