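import Pool.Agent.Lib.H85J.R1

/-! # H85J, chunk Z: a cross-polytope without one facet -/

set_option autoImplicit false

namespace H85J

open Finset H98P H63F H96H

variable {V : Type*} [Fintype V] [DecidableEq V]

/-- The signed vertices over `O`. -/
def sv (O : Finset V) : Finset (St V) :=
  O.biUnion fun v => {Sum.inl (v, true), Sum.inl (v, false)}

private theorem z_mem_sv {O : Finset V} {x : St V} : x ∈ sv O ↔ ∃ v ∈ O, ∃ b : Bool, x = Sum.inl (v, b) := by
  unfold sv
  rw [mem_biUnion]
  constructor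
  · rintro ⟨v, hv, hx⟩
    rw [mem_insert, mem_singleton] at hx
    rcases hx with hx | hx
    · exact ⟨v, hv, true, hx⟩
    · exact ⟨v, hv, false, hx⟩
  · rintro ⟨v, hv, b, rfl⟩
    refine ⟨v, hv, ?_⟩
    rw [mem_insert, mem_singleton]
    cases b
    · exact Or.inr rfl
    · exact Or.inl rfl

private theorem z_inl_mem {O : Finset V} {v : V} {b : Bool} : (Sum.inl (v, b) : St V) ∈ sv O ↔ v ∈ O := by
  rw [z_mem_sv]
  constructor
  · rintro ⟨w, hw, c, h⟩
    have h1 := Sum.inl.inj h
    have h2 : v = w := congrArg Prod.fst h1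
    rw [h2]
    exact hw
  · intro h
    exact ⟨v, h, b, rfl⟩

private theorem z_ne {v w : V} {b c : Bool} (h : v ≠ w ∨ b ≠ c) : (Sum.inl (v, b) : St V) ≠ Sum.inl (w, c) := by
  intro h1
  have h2 := Sum.inl.inj h1
  rcases h with h | h
  · exact h (congrArg Prod.fst h2)
  · exact h (congrArg Prod.snd h2)

private theorem z_both {T : Finset (St V)} {v : V} (b : Bool) :
    ((Sum.inl (v, true) : St V) ∈ T ∧ (Sum.inl (v, false) : St V) ∈ T) ↔
      ((Sum.inl (v, b) : St V) ∈ T ∧ (Sum.inl (v, !b) : St V) ∈ T) := by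
  cases b
  · exact and_comm
  · exact Iff.rfl

private theorem z_congr {E : Type*} [Fintype E] [DecidableEq E] {K K' : Finset E → Prop} (h : ∀ s, K s ↔ K' s)
    (hK : AC K) : AC K' := by
  have : K = K' := funext fun s => propext (h s)
  rwa [← this]

/-- PROOF: induction on `O` (generalize `Ψ`). `O = ∅`: no `T` at all. `O = insert u O'`: `ac_of_bnd`, `bnd_ac` for the
vertex `(u, b)`: without it the complex is a cone with apex `(u, !b)` (`H96H.ac_cone`); the link of `(u, b)` is the
complex for `O'` and `Ψ' T = Ψ T ∧ no (u, ·) in T` (the condition: some `v ∈ O'` has `(v, b) ∉ T`). -/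
theorem ac_facet (b : Bool) (O : Finset V) {Ψ : Finset (St V) → Prop} (hΨ : Dn Ψ) :
    AC fun T : Finset (St V) => (∀ v ∈ O, ¬ ((Sum.inl (v, true) : St V) ∈ T ∧ (Sum.inl (v, false) : St V) ∈ T)) ∧
      (∃ v ∈ O, (Sum.inl (v, b) : St V) ∉ T) ∧ Ψ (T \ sv O) := by
  classical
  induction O using Finset.induction_on generalizing Ψ with
  | empty =>
    intro z hz _
    refine ⟨fun _ => 0, fun s hs => absurd rfl hs, fun r => ?_⟩
    have h1 : z r = 0 := by
      by_contra h
      obtain ⟨-, ⟨v, hv, -⟩, -⟩ := hz r h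
      exact absurd hv (notMem_empty v)
    rw [h1]
    unfold bd
    exact sum_eq_zero fun _ _ => rfl
  | insert u O' hu ih =>
    have hX : Dn fun T : Finset (St V) =>
        (∀ v ∈ insert u O', ¬ ((Sum.inl (v, true) : St V) ∈ T ∧ (Sum.inl (v, false) : St V) ∈ T)) ∧
        (∃ v ∈ insert u O', (Sum.inl (v, b) : St V) ∉ T) ∧ Ψ (T \ sv (insert u O')) := by
      rintro s t hst ⟨h1, ⟨v, hv, h2⟩, h3⟩
      exact ⟨fun w hw h => h1 w hw ⟨hst h.1, hst h.2⟩, ⟨v, hv, fun h => h2 (hst h)⟩,
        hΨ _ _ (sdiff_subset_sdiff hst (Subset.refl _)) h3⟩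
    refine ac_of_bnd fun m => bnd_ac hX (Sum.inl (u, b)) (bnd_of_ac ?_) ?_
    · refine ac_cone ?_ (Sum.inl (u, !b) : St V) ?_
      · rintro s t hst ⟨h1, h2⟩
        exact ⟨hX s t hst h1, fun h => h2 (hst h)⟩
      · rintro s ⟨⟨h1, -, h3⟩, h4⟩
        have hne : (Sum.inl (u, b) : St V) ∉ insert (Sum.inl (u, !b) : St V) s := by
          rw [mem_insert]
          rintro (h | h)
          · exact z_ne (Or.inr (by cases b <;> decide)) h
          · exact h4 h
        refine ⟨⟨fun v hv h => ?_, ⟨u, mem_insert_self u O', hne⟩, ?_⟩, hne⟩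
        · by_cases hvu : v = u
          · subst hvu
            exact hne ((z_both b).1 h).1
          · refine h1 v hv ⟨?_, ?_⟩
            · rcases mem_insert.1 h.1 with h5 | h5
              · exact absurd h5 (z_ne (Or.inl hvu))
              · exact h5
            · rcases mem_insert.1 h.2 with h5 | h5
              · exact absurd h5 (z_ne (Or.inl hvu))
              · exact h5
        · rw [insert_sdiff_of_mem _ (z_inl_mem.2 (mem_insert_self u O'))]
          exact h3
    · have hΨ' : Dn fun T : Finset (St V) =>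
          Ψ T ∧ (Sum.inl (u, b) : St V) ∉ T ∧ (Sum.inl (u, !b) : St V) ∉ T := by
        rintro s t hst ⟨h1, h2, h3⟩
        exact ⟨hΨ _ _ hst h1, fun h => h2 (hst h), fun h => h3 (hst h)⟩
      refine z_congr (fun s => ?_) (ih hΨ')
      have hsv : ∀ c : Bool, (Sum.inl (u, c) : St V) ∉ sv O' := fun c h => hu (z_inl_mem.1 h)
      have key : (Sum.inl (u, b) : St V) ∉ s → (Sum.inl (u, !b) : St V) ∉ s →
          (insert (Sum.inl (u, b) : St V) s) \ sv (insert u O') = s \ sv O' := by
        intro h1 h2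
        rw [insert_sdiff_of_mem _ (z_inl_mem.2 (mem_insert_self u O'))]
        ext x
        rw [mem_sdiff, mem_sdiff]
        refine and_congr_right fun hx => not_congr ?_
        rw [z_mem_sv, z_mem_sv]
        constructor
        · rintro ⟨v, hv, c, rfl⟩
          rcases mem_insert.1 hv with rfl | hv
          · by_cases hc : c = b
            · subst hc
              exact absurd hx h1
            · have hc' : c = !b := by
                cases c <;> cases b <;> simp_all
              rw [hc'] at hx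
              exact absurd hx h2
          · exact ⟨v, hv, c, rfl⟩
        · rintro ⟨v, hv, c, rfl⟩
          exact ⟨v, mem_insert_of_mem hv, c, rfl⟩
      have hins : ∀ {v : V} {c : Bool}, v ≠ u →
          ((Sum.inl (v, c) : St V) ∈ insert (Sum.inl (u, b) : St V) s ↔ (Sum.inl (v, c) : St V) ∈ s) := by
        intro v c hvu
        rw [mem_insert]
        exact ⟨fun h => h.elim (fun h1 => absurd h1 (z_ne (Or.inl hvu))) id, Or.inr⟩
      have hO : ∀ v ∈ O', v ≠ u := by
        rintro v hv rfl
        exact hu hv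
      constructor
      · rintro ⟨h1, ⟨v, hv, h2⟩, h3, h4, h5⟩
        have h4' : (Sum.inl (u, b) : St V) ∉ s := fun h => h4 (mem_sdiff.2 ⟨h, hsv _⟩)
        have h5' : (Sum.inl (u, !b) : St V) ∉ s := fun h => h5 (mem_sdiff.2 ⟨h, hsv _⟩)
        refine ⟨h4', fun w hw h => ?_, ⟨v, mem_insert_of_mem hv, fun h => h2 ((hins (hO v hv)).1 h)⟩, ?_⟩
        · rcases mem_insert.1 hw with rfl | hw
          · rcases mem_insert.1 ((z_both b).1 h).2 with h6 | h6
            · exact z_ne (Or.inr (by cases b <;> decide)) h6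
            · exact h5' h6
          · exact h1 w hw ⟨(hins (hO w hw)).1 h.1, (hins (hO w hw)).1 h.2⟩
        · rw [key h4' h5']
          exact h3
      · rintro ⟨h4, h1, ⟨v, hv, h2⟩, h3⟩
        have h5 : (Sum.inl (u, !b) : St V) ∉ s := fun h =>
          h1 u (mem_insert_self u O') ((z_both b).2 ⟨mem_insert_self _ _, mem_insert_of_mem h⟩)
        rw [key h4 h5] at h3
        refine ⟨fun w hw h => h1 w (mem_insert_of_mem hw) ⟨mem_insert_of_mem h.1, mem_insert_of_mem h.2⟩, ?_, h3,
          fun h => h4 (mem_sdiff.1 h).1, fun h => h5 (mem_sdiff.1 h).1⟩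
        rcases mem_insert.1 hv with rfl | hv
        · exact absurd (mem_insert_self _ _) h2
        · exact ⟨v, hv, fun h => h2 (mem_insert_of_mem h)⟩

end H85J
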